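import Pool.Agent.R323.SE.F

/-!
# Fields generated by elements of bounded degree
-/

set_option autoImplicit false

namespace Pool.Agent.R323.SE

open Polynomial

section prim

variable {F E : Type} [Field F] [CharZero F] [Field E] [Algebra F E]

/-- a primitive element with natural coefficients -/
theorem prim_nat [FiniteDimensional F E] {n : ℕ} (x : Fin n → E)
    (hx : IntermediateField.adjoin F (Set.range x) = ⊤) :
    ∃ c : ℕ, Module.finrank F E = (minpoly F (∑ i : Fin n, (c : E) ^ (i : ℕ) * x i)).natDegree := by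
  classical
  haveI : CharZero E := charZero_of_injective_algebraMap (algebraMap F E).injective
  let Ω := AlgebraicClosure E
  haveI : CharZero Ω := charZero_of_injective_algebraMap (algebraMap E Ω).injective
  let φ : E →ₐ[F] Ω := IsScalarTower.toAlgHom F E Ω
  let P : (E →ₐ[F] Ω) → Polynomial Ω := fun ψ =>
    ∑ i : Fin n, Polynomial.C (φ (x i) - ψ (x i)) * Polynomial.X ^ (i : ℕ)
  have hP0 : ∀ ψ, ψ ≠ φ → P ψ ≠ 0 := by
    intro ψ hψ h0
    apply hψ
    have h1 : ∀ i, φ (x i) = ψ (x i) := by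
      intro i
      have h2 : (P ψ).coeff (i : ℕ) = φ (x i) - ψ (x i) := by
        show (∑ i : Fin n, Polynomial.C (φ (x i) - ψ (x i)) * Polynomial.X ^ (i : ℕ)).coeff _ = _
        rw [Polynomial.finsetSum_coeff, Finset.sum_eq_single i]
        · rw [Polynomial.coeff_C_mul, Polynomial.coeff_X_pow, if_pos rfl, mul_one]
        · intro j _ hj
          rw [Polynomial.coeff_C_mul, Polynomial.coeff_X_pow, if_neg, mul_zero]
          intro h
          exact hj (Fin.ext h.symm)
        · intro h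
          exact absurd (Finset.mem_univ _) h
      rw [h0, Polynomial.coeff_zero] at h2
      exact (sub_eq_zero.1 h2.symm)
    refine AlgHom.ext fun z => ?_
    have hz : z ∈ IntermediateField.adjoin F (Set.range x) := by rw [hx]; trivial
    induction hz using IntermediateField.adjoin_induction with
    | mem z hz =>
      obtain ⟨i, rfl⟩ := hz
      exact (h1 i).symm
    | algebraMap r => rw [AlgHom.commutes, AlgHom.commutes]
    | add a b _ _ ha hb => rw [map_add, map_add, ha, hb]
    | inv a _ ha => rw [map_inv₀, map_inv₀, ha]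
    | mul a b _ _ ha hb => rw [map_mul, map_mul, ha, hb]
  let Pi₀ : Polynomial Ω := ∏ ψ ∈ Finset.univ.erase φ, P ψ
  have hPi₀0 : Pi₀ ≠ 0 := Finset.prod_ne_zero_iff.2 fun ψ hψ => hP0 ψ (Finset.ne_of_mem_erase hψ)
  obtain ⟨c, hcPi₀⟩ : ∃ c : ℕ, Pi₀.eval (c : Ω) ≠ 0 := by
    by_contra hcon
    push Not at hcon
    apply hPi₀0
    refine Polynomial.eq_zero_of_infinite_isRoot _ ?_
    refine Set.infinite_of_injective_forall_mem (f := (Nat.cast : ℕ → Ω)) Nat.cast_injective ?_
    intro c
    exact hcon c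
  refine ⟨c, ?_⟩
  let θ' : E := ∑ i : Fin n, (c : E) ^ (i : ℕ) * x i
  have hdiff : ∀ ψ : E →ₐ[F] Ω, φ θ' - ψ θ' = (P ψ).eval (c : Ω) := by
    intro ψ
    show φ (∑ i : Fin n, (c : E) ^ (i : ℕ) * x i) - ψ (∑ i : Fin n, (c : E) ^ (i : ℕ) * x i) =
      (∑ i : Fin n, Polynomial.C (φ (x i) - ψ (x i)) * Polynomial.X ^ (i : ℕ)).eval _
    rw [map_sum, map_sum, Polynomial.eval_finsetSum, ← Finset.sum_sub_distrib]
    refine Finset.sum_congr rfl fun i _ => ?_
    rw [map_mul, map_mul, map_pow, map_pow, map_natCast, map_natCast, Polynomial.eval_mul,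
      Polynomial.eval_C, Polynomial.eval_pow, Polynomial.eval_X]
    ring
  have htop : IntermediateField.adjoin F {θ'} = ⊤ := by
    refine (Field.primitive_element_iff_algHom_eq_of_eval F Ω
      (fun y => IsAlgClosed.splits _) θ' φ).2 ?_
    intro ψ hψ
    by_contra hne
    have h1 := hdiff ψ
    rw [hψ, sub_self] at h1
    have h2 : Pi₀.eval (c : Ω) = 0 := by
      show (∏ ψ ∈ Finset.univ.erase φ, P ψ).eval _ = 0
      rw [Polynomial.eval_prod]
      exact Finset.prod_eq_zero (Finset.mem_erase.2 ⟨fun h => hne h.symm, Finset.mem_univ ψ⟩)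
        h1.symm
    exact hcPi₀ h2
  exact ((Field.primitive_element_iff_minpoly_natDegree_eq F θ').1 htop).symm

end prim

section tower

variable {F L : Type} [Field F] [Field L] [Algebra F L]

theorem adjoin_val_top {ι : Type} (G : ι → L) (E : IntermediateField F L)
    (hE : E = IntermediateField.adjoin F (Set.range G)) (x : ι → E) (hx : ∀ i, (x i : L) = G i) :
    IntermediateField.adjoin F (Set.range x) = ⊤ := by
  apply IntermediateField.map_injective E.val
  rw [IntermediateField.adjoin_map]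
  have h1 : (E.val : E → L) '' Set.range x = Set.range G := by
    rw [← Set.range_comp]
    congr 1
    funext i
    exact hx i
  rw [h1, ← hE]
  ext z
  rw [IntermediateField.mem_map]
  constructor
  · intro h
    exact ⟨⟨z, h⟩, trivial, rfl⟩
  · rintro ⟨z', -, rfl⟩
    exact z'.2

theorem fin_tower [CharZero F] (G : ℕ → L) (hG : ∀ i, IsIntegral F (G i)) (D : ℕ)
    (hD : ∀ (n c : ℕ), (minpoly F (∑ i : Fin n, (c : L) ^ (i : ℕ) * G i)).natDegree ≤ D) :
    ∃ n, ∀ i, G i ∈ IntermediateField.adjoin F (Set.range fun j : Fin n => G j) := by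
  classical
  obtain ⟨E, hE⟩ : ∃ E : ℕ → IntermediateField F L,
      ∀ n, E n = IntermediateField.adjoin F (Set.range fun j : Fin n => G j) := ⟨_, fun _ => rfl⟩
  have hmem : ∀ n (j : Fin n), G j ∈ E n := by
    intro n j
    rw [hE]
    exact IntermediateField.subset_adjoin _ _ ⟨j, rfl⟩
  have hfd : ∀ n, FiniteDimensional F (E n) := by
    intro n
    rw [hE]
    have : Finite (Set.range fun j : Fin n => G j) := Set.finite_range _
    exact IntermediateField.finiteDimensional_adjoin (by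
      rintro _ ⟨j, rfl⟩
      exact hG j)
  have hfr : ∀ n, Module.finrank F (E n) ≤ D := by
    intro n
    haveI := hfd n
    obtain ⟨c, hc⟩ := prim_nat (F := F) (E := E n) (fun j : Fin n => (⟨G j, hmem n j⟩ : E n))
      (adjoin_val_top (fun j : Fin n => G j) (E n) (hE n) _ (fun _ => rfl))
    rw [hc]
    refine le_trans (le_of_eq ?_) (hD n c)
    rw [← minpoly.algebraMap_eq (algebraMap (E n) L).injective]
    congr 2
    rw [map_sum]
    refine Finset.sum_congr rfl fun i _ => ?_
    rw [map_mul, map_pow, map_natCast]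
    rfl
  obtain ⟨n, hn⟩ : ∃ n, ∀ m, Module.finrank F (E m) ≤ Module.finrank F (E n) := by
    by_contra hcon
    push Not at hcon
    have key : ∀ k, ∃ n, k ≤ Module.finrank F (E n) := by
      intro k
      induction k with
      | zero => exact ⟨0, Nat.zero_le _⟩
      | succ k ih =>
        obtain ⟨n, hn⟩ := ih
        obtain ⟨m, hm⟩ := hcon n
        exact ⟨m, by omega⟩
    obtain ⟨n, hn⟩ := key (D + 1)
    have := hfr n
    omega
  refine ⟨n, fun i => ?_⟩
  have h1 : E n ≤ E (max n (i + 1)) := by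
    rw [hE n, hE]
    refine IntermediateField.adjoin.mono _ _ _ ?_
    rintro _ ⟨j, rfl⟩
    exact ⟨⟨j, lt_of_lt_of_le j.2 (le_max_left _ _)⟩, rfl⟩
  haveI := hfd (max n (i + 1))
  have h2 : E n = E (max n (i + 1)) := IntermediateField.eq_of_le_of_finrank_le h1 (hn _)
  rw [← hE, h2]
  exact hmem _ ⟨i, lt_of_lt_of_le (Nat.lt_succ_self i) (le_max_right _ _)⟩

end tower

section rel

variable {K₀ K : Type} [Field K₀] [Field K] [Algebra K₀ K]

/-- relations give algebraicity and a bound for the degree -/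
theorem alg_of_rel {d D : ℕ} (y : Fin d → K) (hind : AlgebraicIndependent K₀ y) (w : K)
    (c : (Fin d → Fin (D + 1)) × Fin (D + 1) → K₀) (hc0 : c ≠ 0)
    (hc : ∑ e, algebraMap K₀ K (c e) * ((∏ b, y b ^ (e.1 b : ℕ)) * w ^ (e.2 : ℕ)) = 0) :
    IsIntegral (IntermediateField.adjoin K₀ (Set.range y)) w ∧
      (minpoly (IntermediateField.adjoin K₀ (Set.range y)) w).natDegree ≤ D := by
  classical
  obtain ⟨F, hF⟩ : ∃ F : IntermediateField K₀ K, F = IntermediateField.adjoin K₀ (Set.range y) :=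
    ⟨_, rfl⟩
  rw [← hF]
  have hy : ∀ b, y b ∈ F := by
    intro b
    rw [hF]
    exact IntermediateField.subset_adjoin _ _ ⟨b, rfl⟩
  let y' : Fin d → F := fun b => ⟨y b, hy b⟩
  let a : Fin (D + 1) → F := fun i => ∑ e1 : Fin d → Fin (D + 1),
    algebraMap K₀ F (c (e1, i)) * ∏ b, y' b ^ (e1 b : ℕ)
  have ha : ∀ i, (a i : K) = ∑ e1 : Fin d → Fin (D + 1),
      algebraMap K₀ K (c (e1, i)) * ∏ b, y b ^ (e1 b : ℕ) := by
    intro i
    have h1 : ((∑ e1 : Fin d → Fin (D + 1),
        algebraMap K₀ F (c (e1, i)) * ∏ b, y' b ^ (e1 b : ℕ) : F) : K) =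
        ∑ e1 : Fin d → Fin (D + 1), ((algebraMap K₀ F (c (e1, i)) * ∏ b, y' b ^ (e1 b : ℕ) : F) : K) :=
      map_sum (algebraMap F K) _ _
    refine h1.trans (Finset.sum_congr rfl fun e1 _ => ?_)
    have h2 : ((∏ b, y' b ^ (e1 b : ℕ) : F) : K) = ∏ b, y b ^ (e1 b : ℕ) := by
      have h3 : ((∏ b, y' b ^ (e1 b : ℕ) : F) : K) = ∏ b, ((y' b ^ (e1 b : ℕ) : F) : K) :=
        map_prod (algebraMap F K) _ _
      rw [h3]
      refine Finset.prod_congr rfl fun b _ => ?_
      rfl
    rw [← h2]
    rfl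
  obtain ⟨P, hP⟩ : ∃ P : F[X], P = ∑ i : Fin (D + 1), Polynomial.C (a i) * Polynomial.X ^ (i : ℕ) :=
    ⟨_, rfl⟩
  have hcoeff : ∀ i : Fin (D + 1), P.coeff (i : ℕ) = a i := by
    intro i
    rw [hP, Polynomial.finsetSum_coeff, Finset.sum_eq_single i]
    · rw [Polynomial.coeff_C_mul, Polynomial.coeff_X_pow, if_pos rfl, mul_one]
    · intro j _ hj
      rw [Polynomial.coeff_C_mul, Polynomial.coeff_X_pow, if_neg, mul_zero]
      intro h
      exact hj (Fin.ext h.symm)
    · intro h
      exact absurd (Finset.mem_univ _) h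
  have hP0 : P ≠ 0 := by
    obtain ⟨⟨e1, i⟩, hei⟩ := Function.ne_iff.1 hc0
    intro h0
    have h1 : a i = 0 := by rw [← hcoeff, h0, Polynomial.coeff_zero]
    have h2 := Pool.Agent.R323.rel_ne y hind (fun e1 => c (e1, i)) (fun h => hei (congrFun h e1))
    apply h2
    rw [← ha, h1]
    rfl
  have hPw : Polynomial.aeval w P = 0 := by
    rw [hP, map_sum, ← hc, Fintype.sum_prod_type_right]
    refine Finset.sum_congr rfl fun i _ => ?_
    rw [map_mul, Polynomial.aeval_C, map_pow, Polynomial.aeval_X]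
    have h1 : algebraMap F K (a i) = (a i : K) := rfl
    rw [h1, ha, Finset.sum_mul]
    refine Finset.sum_congr rfl fun e1 _ => ?_
    ring
  have hdeg : P.natDegree ≤ D := by
    rw [hP]
    refine Polynomial.natDegree_sum_le_of_forall_le _ _ fun i _ => ?_
    exact (Polynomial.natDegree_C_mul_X_pow_le _ _).trans (by omega)
  have hint : IsIntegral F w := (show IsAlgebraic F w from ⟨P, hP0, hPw⟩).isIntegral
  refine ⟨hint, ?_⟩
  exact (Polynomial.natDegree_le_of_dvd (minpoly.dvd F w hPw) hP0).trans hdeg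

/-- **Points with constant values in a field of internal functions.** -/
theorem absA [CharZero K₀] {d D : ℕ} (G : ℕ → K) (ι : Fin d → ℕ)
    (hind : AlgebraicIndependent K₀ (fun b => G (ι b)))
    (hrel : ∀ (n : ℕ) (b : Fin n → ℕ), ∃ c : (Fin d → Fin (D + 1)) × Fin (D + 1) → K₀, c ≠ 0 ∧
      ∑ e, algebraMap K₀ K (c e) * ((∏ b', G (ι b') ^ (e.1 b' : ℕ)) *
        (∑ i, (b i : K) * G i) ^ (e.2 : ℕ)) = 0)
    {r : ℕ} (hr : 1 ≤ r) (f : K[X]) (hf : f.natDegree = r)
    (hfG : ∀ i, f.coeff i ∈ IntermediateField.adjoin K₀ (Set.range G)) (Z : ℕ → K)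
    (hZ : Function.Injective Z) (hZG : ∀ n, Z n ∈ IntermediateField.adjoin K₀ (Set.range G))
    (hc : ∀ n, ∃ c : K₀, f.eval (Z n) = algebraMap K₀ K c) :
    ∃ g : ℕ → ℕ, StrictMono g ∧ ∀ i j l m, i ≠ j → l ≠ m →
      IsAlgebraic K₀ ((Z (g i) - Z (g j)) / (Z (g l) - Z (g m))) := by
  classical
  obtain ⟨y, hy⟩ : ∃ y : Fin d → K, ∀ b, y b = G (ι b) := ⟨_, fun _ => rfl⟩
  have hyf : (fun b => G (ι b)) = y := funext fun b => (hy b).symm
  rw [hyf] at hind
  -- single elements
  have hsingle : ∀ i, ∃ c : (Fin d → Fin (D + 1)) × Fin (D + 1) → K₀, c ≠ 0 ∧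
      ∑ e, algebraMap K₀ K (c e) * ((∏ b', y b' ^ (e.1 b' : ℕ)) * (G i) ^ (e.2 : ℕ)) = 0 := by
    intro i
    obtain ⟨c, hc0, hc1⟩ := hrel (i + 1) (fun j => if (j : ℕ) = i then 1 else 0)
    refine ⟨c, hc0, ?_⟩
    have h1 : (∑ j : Fin (i + 1), (((if (j : ℕ) = i then 1 else 0 : ℕ) : ℕ) : K) * G j) = G i := by
      rw [Finset.sum_eq_single (Fin.last i)]
      · simp
      · intro j _ hj
        rw [if_neg, Nat.cast_zero, zero_mul]
        intro h
        exact hj (Fin.ext h)
      · intro h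
        exact absurd (Finset.mem_univ _) h
    rw [h1] at hc1
    simp only [← hy] at hc1
    exact hc1
  obtain ⟨F, hF⟩ : ∃ F : IntermediateField K₀ K, F = IntermediateField.adjoin K₀ (Set.range y) :=
    ⟨_, rfl⟩
  have hyF : ∀ b, y b ∈ F := by
    intro b
    rw [hF]
    exact IntermediateField.subset_adjoin _ _ ⟨b, rfl⟩
  have hint : ∀ i, IsIntegral F (G i) := by
    intro i
    obtain ⟨c, hc0, hc1⟩ := hsingle i
    rw [hF]
    exact (alg_of_rel y hind (G i) c hc0 hc1).1
  haveI : CharZero F := charZero_of_injective_algebraMap (algebraMap K₀ F).injective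
  obtain ⟨n, hn⟩ := fin_tower (F := F) G hint D (by
    intro n c
    obtain ⟨cc, hc0, hc1⟩ := hrel n (fun i => c ^ (i : ℕ))
    simp only [← hy] at hc1
    have h1 := (alg_of_rel y hind _ cc hc0 hc1).2
    rw [← hF] at h1
    push_cast at h1
    exact h1)
  -- the finitely generated field
  obtain ⟨n', hn'1, hn'2⟩ : ∃ n', n ≤ n' ∧ ∀ b, ι b < n' := by
    refine ⟨n + (∑ b, ι b) + 1, by omega, fun b => ?_⟩
    have := Finset.single_le_sum (f := ι) (fun _ _ => Nat.zero_le _) (Finset.mem_univ b)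
    omega
  obtain ⟨E, hE⟩ : ∃ E : IntermediateField K₀ K,
      E = IntermediateField.adjoin K₀ (Set.range fun j : Fin n' => G j) := ⟨_, rfl⟩
  have hGE' : ∀ j : Fin n', G j ∈ E := by
    intro j
    rw [hE]
    exact IntermediateField.subset_adjoin _ _ ⟨j, rfl⟩
  have hFE : F ≤ E := by
    rw [hF, IntermediateField.adjoin_le_iff]
    rintro _ ⟨b, rfl⟩
    rw [hy]
    exact hGE' ⟨ι b, hn'2 b⟩
  have hGE : ∀ i, G i ∈ E := by
    intro i
    have h1 : IntermediateField.adjoin F (Set.range fun j : Fin n => G j) ≤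
        IntermediateField.extendScalars hFE := by
      rw [IntermediateField.adjoin_le_iff]
      rintro _ ⟨j, rfl⟩
      exact hGE' ⟨j, lt_of_lt_of_le j.2 hn'1⟩
    exact h1 (hn i)
  have hadj : IntermediateField.adjoin K₀ (Set.range G) ≤ E := by
    rw [IntermediateField.adjoin_le_iff]
    rintro _ ⟨i, rfl⟩
    exact hGE i
  rcases Nat.eq_zero_or_pos d with hd0 | hdpos
  · -- algebraic case
    subst hd0
    refine ⟨id, strictMono_id, fun i j l m _ _ => ?_⟩
    have hyr : Set.range y = ∅ := Set.range_eq_empty y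
    have hFbot : F = ⊥ := by rw [hF, hyr, IntermediateField.adjoin_empty]
    have hGalg : ∀ i, IsAlgebraic K₀ (G i) := by
      intro i
      have h1 := (hint i).isAlgebraic
      rw [hFbot] at h1
      exact h1.restrictScalars K₀
    have hE2 : IntermediateField.adjoin K₀ (Set.range G) ≤ algebraicClosure K₀ K := by
      rw [IntermediateField.adjoin_le_iff]
      rintro _ ⟨i, rfl⟩
      exact (mem_algebraicClosure_iff).2 (hGalg i)
    have hZalg : ∀ n, Z n ∈ algebraicClosure K₀ K := fun n => hE2 (hZG n)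
    exact (mem_algebraicClosure_iff).1 (div_mem (sub_mem (hZalg _) (hZalg _))
      (sub_mem (hZalg _) (hZalg _)))
  -- the function field
  let x : Fin n' → E := fun j => ⟨G j, hGE j⟩
  let ι' : Fin d → Fin n' := fun b => ⟨ι b, hn'2 b⟩
  let yE : Fin d → E := fun b => x (ι' b)
  have hindE : AlgebraicIndependent K₀ yE := by
    refine AlgebraicIndependent.of_comp E.val ?_
    have h1 : (E.val : E → K) ∘ yE = y := by
      funext b
      exact (hy b).symm
    rw [h1]
    exact hind
  have halgE : ∀ j, IsAlgebraic (IntermediateField.adjoin K₀ (Set.range yE)) (x j) := by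
    intro j
    obtain ⟨c, hc0, hc1⟩ := hsingle j
    refine (alg_of_rel yE hindE (x j) c hc0 ?_).1.isAlgebraic
    apply (algebraMap E K).injective
    rw [map_sum, map_zero, ← hc1]
    refine Finset.sum_congr rfl fun e _ => ?_
    rw [map_mul, map_mul, map_pow, map_prod]
    congr 1
    congr 1
    refine Finset.prod_congr rfl fun b _ => ?_
    rw [map_pow]
    congr 1
    exact (hy b).symm
  -- the polynomial
  obtain ⟨f', hf'⟩ : ∃ f' : E[X], f'.map (algebraMap E K) = f := by
    have : f ∈ Polynomial.lifts (algebraMap E K) := by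
      rw [Polynomial.lifts_iff_coeff_lifts]
      intro i
      exact ⟨⟨f.coeff i, hadj (hfG i)⟩, rfl⟩
    exact (Polynomial.mem_lifts f).1 this
  have hdeg : f'.natDegree = r := by
    rw [← hf, ← hf', Polynomial.natDegree_map]
  let Z' : ℕ → E := fun n => ⟨Z n, hadj (hZG n)⟩
  obtain ⟨g, hg, h⟩ := seq_alg (K₀ := K₀) (K := E) x ι' hdpos hindE
    (adjoin_val_top (fun j : Fin n' => G j) E hE x (fun _ => rfl)) halgE hr hdeg Z'
    (by
      intro a b hab
      exact hZ (congrArg Subtype.val hab))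
    (by
      intro n
      obtain ⟨c, hc'⟩ := hc n
      refine ⟨c, ?_⟩
      apply (algebraMap E K).injective
      rw [← Polynomial.eval_map_apply, hf']
      exact hc')
  refine ⟨g, hg, fun i j l m hij hlm => ?_⟩
  have h1 := h i j l m hij hlm
  have h2 := h1.algebraMap (A := K)
  exact h2

end rel

end Pool.Agent.R323.SE
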