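import Pool.Agent.R323.SE.L

/-!
# Generic extensions of generic internal sets
-/

set_option autoImplicit false

namespace Pool.Agent.R323.SE

open Filter MvPolynomial Pool.Agent.Y902.GN Pool.Agent.R323

section abs

variable {R₀ L O : Type} [CommRing R₀] [Field L] [CommRing O]

theorem alg_of_poly (φ : R₀ →+* L) {z : L} {p : Polynomial R₀} (h0 : p.map φ ≠ 0)
    (h1 : p.eval₂ φ z = 0) : IsAlgebraic φ.range z := by
  refine ⟨p.map φ.rangeRestrict, ?_, ?_⟩
  · intro h
    apply h0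
    have h2 : (p.map φ.rangeRestrict).map φ.range.subtype = p.map φ := by
      rw [Polynomial.map_map]
      rfl
    rw [← h2, h, Polynomial.map_zero]
  · rw [Polynomial.aeval_def, Polynomial.eval₂_map]
    exact h1

theorem poly_of_alg (φ : R₀ →+* L) {z : L} (h : IsAlgebraic φ.range z) :
    ∃ p : Polynomial R₀, p.map φ ≠ 0 ∧ p.eval₂ φ z = 0 := by
  obtain ⟨q, hq0, hq⟩ := h
  obtain ⟨p, rfl⟩ := Polynomial.map_surjective φ.rangeRestrict φ.rangeRestrict_surjective q
  refine ⟨p, ?_, ?_⟩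
  · intro h
    apply hq0
    have hinj : Function.Injective (Polynomial.map φ.range.subtype) :=
      Polynomial.map_injective _ Subtype.val_injective
    apply hinj
    rw [Polynomial.map_map, Polynomial.map_zero]
    exact h
  · rw [Polynomial.aeval_def, Polynomial.eval₂_map] at hq
    exact hq

theorem coeff_zero_ne (φ : R₀ →+* L) {z : L} (hz : z ≠ 0) : ∀ (n : ℕ) (p : Polynomial R₀),
    p.natDegree ≤ n → p.map φ ≠ 0 → p.eval₂ φ z = 0 →
    ∃ p' : Polynomial R₀, φ (p'.coeff 0) ≠ 0 ∧ p'.eval₂ φ z = 0 := by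
  intro n
  induction n with
  | zero =>
    intro p hp h0 h1
    refine ⟨p, ?_, h1⟩
    intro h2
    apply h0
    rw [Polynomial.eq_C_of_natDegree_le_zero hp, Polynomial.map_C, h2, Polynomial.C_0]
  | succ n ih =>
    intro p hp h0 h1
    by_cases h2 : φ (p.coeff 0) = 0
    · have e := Polynomial.divX_mul_X_add p
      refine ih p.divX ?_ ?_ ?_
      · rw [Polynomial.natDegree_divX_eq_natDegree_tsub_one]
        omega
      · intro h3
        apply h0
        rw [← e, Polynomial.map_add, Polynomial.map_mul, h3, Polynomial.map_C, h2, zero_mul,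
          Polynomial.C_0, zero_add]
      · rw [← e, Polynomial.eval₂_add, Polynomial.eval₂_mul, Polynomial.eval₂_X,
          Polynomial.eval₂_C, h2, add_zero] at h1
        exact (mul_eq_zero.1 h1).resolve_right hz
    · exact ⟨p, h2, h1⟩

theorem alg_dvd (φ : R₀ →+* L) {M : ℕ} (ψ : MvPolynomial (Fin M) O →+* L)
    (ρ : R₀ →+* MvPolynomial (Fin M) O) (hρ : ψ.comp ρ = φ) (hC : ∀ c, ∃ r, ψ (C c) = φ r)
    (halg : ∀ i, IsAlgebraic φ.range (ψ (X i))) (P : MvPolynomial (Fin M) O) (hP : ψ P ≠ 0) :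
    ∃ r Q, φ r ≠ 0 ∧ ψ (P * Q) = φ r := by
  have h1 : ∀ P, IsAlgebraic φ.range (ψ P) := by
    intro P
    induction P using MvPolynomial.induction_on with
    | C c =>
      obtain ⟨r, hr⟩ := hC c
      rw [hr]
      exact isAlgebraic_algebraMap (⟨φ r, ⟨r, rfl⟩⟩ : φ.range)
    | add P Q hP hQ =>
      rw [map_add]
      exact hP.add hQ
    | mul_X P i hP =>
      rw [map_mul]
      exact hP.mul (halg i)
  obtain ⟨p, hp0, hp⟩ := poly_of_alg φ (h1 P)
  obtain ⟨p', h2, h3⟩ := coeff_zero_ne φ hP _ p le_rfl hp0 hp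
  refine ⟨p'.coeff 0, -(p'.divX.eval₂ ρ P), h2, ?_⟩
  have e := Polynomial.divX_mul_X_add p'
  rw [← e, Polynomial.eval₂_add, Polynomial.eval₂_mul, Polynomial.eval₂_X,
    Polynomial.eval₂_C] at h3
  rw [map_mul, map_neg, Polynomial.hom_eval₂, hρ]
  linear_combination -h3

end abs

theorem sat {Y : ℕ → ℕ} {N : ℕ} {Om : ℕ → Finset (Fin N → ℤ)} {P : MvPolynomial (Fin N) (OO Y)}
    (h : MvPolynomial.map (algebraMap (OO Y) (FractionRing (OO Y))) P ∈
      (JI Y Om).map (MvPolynomial.map (algebraMap (OO Y) (FractionRing (OO Y))))) :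
    P ∈ JI Y Om := by
  classical
  let K := FractionRing (OO Y)
  let ψ : MvPolynomial (Fin N) (OO Y) →+* MvPolynomial (Fin N) K := MvPolynomial.map (algebraMap _ _)
  have h4 : ψ P ∈ (JI Y Om).map ψ := h
  let _ := MvPolynomial.algebraMvPolynomial (σ := Fin N) (R := OO Y) (S := K)
  have hloc : IsLocalization ((nonZeroDivisors (OO Y)).map (C (σ := Fin N)))
      (MvPolynomial (Fin N) K) := MvPolynomial.isLocalization (nonZeroDivisors (OO Y)) K
  have hψ : ψ = algebraMap (MvPolynomial (Fin N) (OO Y)) (MvPolynomial (Fin N) K) := rfl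
  rw [hψ, IsLocalization.mem_map_algebraMap_iff ((nonZeroDivisors (OO Y)).map (C (σ := Fin N)))
    (MvPolynomial (Fin N) K)] at h4
  obtain ⟨⟨x, m⟩, hx⟩ := h4
  obtain ⟨m, c, hc, rfl⟩ := m
  simp only at hx
  rw [← map_mul] at hx
  have hinj : Function.Injective ψ := MvPolynomial.map_injective _ (IsFractionRing.injective _ _)
  have h5 : P * C c = (x : MvPolynomial (Fin N) (OO Y)) := hinj hx
  have h6 : C c * P ∈ JI Y Om := by rw [mul_comm, h5]; exact x.2
  exact C_mul_mem (nonZeroDivisors.ne_zero hc) h6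

theorem dense_aux {y a m k : ℕ} (h : y ≤ (k * a) ^ m) (h4 : k ^ (2 * m) ≤ y) (hy : 0 < y) :
    y ≤ a ^ (2 * m) := by
  have h1 : y * y ≤ (k * a) ^ m * (k * a) ^ m := Nat.mul_le_mul h h
  have h2 : (k * a) ^ m * (k * a) ^ m = k ^ (2 * m) * a ^ (2 * m) := by
    rw [← pow_add, ← two_mul, mul_pow]
  rw [h2] at h1
  have h3 : k ^ (2 * m) * a ^ (2 * m) ≤ y * a ^ (2 * m) := Nat.mul_le_mul_right _ h4
  exact Nat.le_of_mul_le_mul_left (h1.trans h3) hy

theorem dense_big {Y : ℕ → ℕ} (hY : ∀ m : ℕ, ∀ᶠ ν in (Uf : Filter ℕ), m ≤ Y ν) {α β : Type}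
    {A : ℕ → Finset α} {B : ℕ → Finset β} {m k : ℕ}
    (hm : ∀ᶠ ν in (Uf : Filter ℕ), Y ν + 2 ≤ (A ν).card ^ m)
    (hk : ∀ᶠ ν in (Uf : Filter ℕ), (A ν).card ≤ k * (B ν).card) :
    ∀ᶠ ν in (Uf : Filter ℕ), Y ν + 2 ≤ (B ν).card ^ (2 * m) := by
  filter_upwards [hm, hk, hY (k ^ (2 * m))] with ν h1 h2 h3
  exact dense_aux (h1.trans (Nat.pow_le_pow_left h2 m)) (by omega) (by omega)

section gen

variable {Y : ℕ → ℕ} {N M : ℕ} {Om : ℕ → Finset (Fin N → ℤ)} {W : Ultrafilter (ℕ × (Fin N → ℤ))}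

/-- the image of a slice -/
noncomputable def Im (Om : ℕ → Finset (Fin N → ℤ)) (u : Fin M → ℕ × (Fin N → ℤ) → ℤ)
    (A : Set (ℕ × (Fin N → ℤ))) (ν : ℕ) : Finset (Fin M → ℤ) := by
  classical exact (slc Om A ν).image fun t i => u i (ν, t)

theorem mem_Im {u : Fin M → ℕ × (Fin N → ℤ) → ℤ} {A : Set (ℕ × (Fin N → ℤ))} {ν : ℕ}
    {s : Fin M → ℤ} : s ∈ Im Om u A ν ↔ ∃ t ∈ Om ν, (ν, t) ∈ A ∧ (fun i => u i (ν, t)) = s := by
  classical
  unfold Im
  rw [Finset.mem_image]
  constructor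
  · rintro ⟨t, ht, rfl⟩
    rw [mem_slc] at ht
    exact ⟨t, ht.1, ht.2, rfl⟩
  · rintro ⟨t, h1, h2, rfl⟩
    exact ⟨t, mem_slc.2 ⟨h1, h2⟩, rfl⟩

theorem Im_mono (u : Fin M → ℕ × (Fin N → ℤ) → ℤ) {A B : Set (ℕ × (Fin N → ℤ))} (h : A ⊆ B)
    (ν : ℕ) : Im Om u A ν ⊆ Im Om u B ν := by
  intro s hs
  rw [mem_Im] at hs ⊢
  obtain ⟨t, h1, h2, h3⟩ := hs
  exact ⟨t, h1, h h2, h3⟩

theorem card_Im {u : Fin M → ℕ × (Fin N → ℤ) → ℤ} {κ : Fin N → Fin M}
    (hκ : ∀ j ν t, u (κ j) (ν, t) = t j) (A : Set (ℕ × (Fin N → ℤ))) (ν : ℕ) :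
    (Im Om u A ν).card = (slc Om A ν).card := by
  classical
  unfold Im
  refine Finset.card_image_of_injective _ ?_
  intro t t' h
  funext j
  have := congrFun h (κ j)
  simp only at this
  rwa [hκ, hκ] at this

/-- the coordinates -/
def bs {N : ℕ} : Fin N → ℕ × (Fin N → ℤ) → ℤ := fun j x => x.2 j

theorem ker_base (hG : Gen Y Om) (hW : Dn Om W) (hφ : Tendsto Prod.fst (W : Filter (ℕ × (Fin N → ℤ))) (Uf : Filter ℕ))
    (hY : ∀ m : ℕ, ∀ᶠ ν in (Uf : Filter ℕ), m ≤ Y ν)
    (P : MvPolynomial (Fin N) (OO Y)) : P ∈ JI Y Om ↔ evu Y hφ bs P = 0 := by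
  have hne : ∀ᶠ ν in (Uf : Filter ℕ), (Om ν).Nonempty := hG.1.nonempty
  rw [mem_JI (Re.sq P), evu_eq_zero hφ bs (Re.sq P)]
  constructor
  · intro h
    filter_upwards [hφ.eventually h, hW.mem hne] with x h1 h2
    exact h1 x.2 h2
  · intro h
    obtain ⟨k, hk⟩ := hW _ h
    have hbig : Big Y (slc Om {x | eval (fun i => bs i x) (sq P x.1) = 0}) := by
      obtain ⟨m, hm⟩ := hG.1
      exact ⟨2 * m, dense_big hY hm hk⟩
    have h1 : P ∈ JI Y (slc Om {x | eval (fun i => bs i x) (sq P x.1) = 0}) := by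
      rw [mem_JI (Re.sq P)]
      refine Filter.Eventually.of_forall fun ν t ht => ?_
      rw [mem_slc] at ht
      exact ht.2
    have h2 := hG.2 _ (Filter.Eventually.of_forall fun ν t ht => (mem_slc.1 ht).1) hbig h1
    exact (mem_JI (Re.sq P)).1 h2

/-- **Extensions of generic sets.** -/
theorem gen_ext (hY : ∀ m : ℕ, ∀ᶠ ν in (Uf : Filter ℕ), m ≤ Y ν) (hG : Gen Y Om) (hW : Dn Om W)
    (hφ : Tendsto Prod.fst (W : Filter (ℕ × (Fin N → ℤ))) (Uf : Filter ℕ)) (u : Fin M → ℕ × (Fin N → ℤ) → ℤ)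
    (κ : Fin N → Fin M) (hκ : ∀ j ν t, u (κ j) (ν, t) = t j)
    (halg : ∀ i, IsAlgebraic (evu Y hφ (bs (N := N))).range (gm W fun x => ((u i x : ℤ) : ℚ))) :
    ∃ A ∈ W, Gen Y (Im Om u A) ∧ ∀ P, P ∈ JI Y (Im Om u A) ↔ evu Y hφ u P = 0 := by
  classical
  have hne : ∀ᶠ ν in (Uf : Filter ℕ), (Om ν).Nonempty := hG.1.nonempty
  let ψ : MvPolynomial (Fin M) (OO Y) →+* MvPolynomial (Fin M) (FractionRing (OO Y)) :=
    MvPolynomial.map (algebraMap _ _)
  let 𝒜 : Set (Ideal (MvPolynomial (Fin M) (FractionRing (OO Y)))) :=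
    {I | ∃ A ∈ W, I = (JI Y (Im Om u A)).map ψ}
  have hne' : 𝒜.Nonempty := ⟨_, Set.univ, Filter.univ_mem, rfl⟩
  obtain ⟨I, ⟨A, hA, hI⟩, hmax⟩ := WellFounded.has_min
    (wellFounded_gt : WellFounded ((· > ·) :
      Ideal (MvPolynomial (Fin M) (FractionRing (OO Y))) → _ → Prop)) 𝒜 hne'
  have hker : ∀ P, P ∈ JI Y (Im Om u A) ↔ evu Y hφ u P = 0 := by
    intro P
    constructor
    · intro h
      rw [mem_JI (Re.sq P)] at h
      rw [evu_eq_zero hφ u (Re.sq P)]
      filter_upwards [hφ.eventually h, hW.mem hne, hA] with x h1 h2 h3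
      exact h1 _ (mem_Im.2 ⟨x.2, h2, h3, rfl⟩)
    · intro h
      rw [evu_eq_zero hφ u (Re.sq P)] at h
      have hB : A ∩ {x | eval (fun i => u i x) (sq P x.1) = 0} ∈ W := Filter.inter_mem hA h
      have h1 : JI Y (Im Om u A) ≤
          JI Y (Im Om u (A ∩ {x | eval (fun i => u i x) (sq P x.1) = 0})) :=
        JI_mono (Filter.Eventually.of_forall fun ν => Im_mono u Set.inter_subset_left ν)
      have h2 : P ∈ JI Y (Im Om u (A ∩ {x | eval (fun i => u i x) (sq P x.1) = 0})) := by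
        rw [mem_JI (Re.sq P)]
        refine Filter.Eventually.of_forall fun ν s hs => ?_
        obtain ⟨t, -, ht2, rfl⟩ := mem_Im.1 hs
        exact ht2.2
      have h3 : (JI Y (Im Om u (A ∩ {x | eval (fun i => u i x) (sq P x.1) = 0}))).map ψ =
          (JI Y (Im Om u A)).map ψ := by
        by_contra hcon
        have h4 : (JI Y (Im Om u A)).map ψ <
            (JI Y (Im Om u (A ∩ {x | eval (fun i => u i x) (sq P x.1) = 0}))).map ψ :=
          lt_of_le_of_ne (Ideal.map_mono h1) (Ne.symm hcon)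
        rw [← hI] at h4
        exact hmax _ ⟨_, hB, rfl⟩ h4
      refine sat ?_
      rw [← h3]
      exact Ideal.mem_map_of_mem ψ h2
  refine ⟨A, hA, ⟨?_, ?_⟩, hker⟩
  · obtain ⟨m, hm⟩ := hG.1
    obtain ⟨k, hk⟩ := hW A hA
    refine ⟨2 * m, dense_big hY hm (k := k) ?_⟩
    filter_upwards [hk] with ν h1
    rw [card_Im hκ]
    exact h1
  · intro Om' hsub hbig P hP
    rw [hker]
    by_contra hcon
    obtain ⟨r, Q, hr, hQ⟩ := alg_dvd (evu Y hφ (bs (N := N))) (evu Y hφ u)
      (rename κ : MvPolynomial (Fin N) (OO Y) →ₐ[OO Y] _).toRingHom (by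
        refine MvPolynomial.ringHom_ext (fun c => ?_) (fun j => ?_)
        · rw [RingHom.comp_apply]
          show evu Y hφ u (rename κ (C c)) = _
          rw [rename_C, evu_C, evu_C]
        · rw [RingHom.comp_apply]
          show evu Y hφ u (rename κ (X j)) = _
          rw [rename_X, evu_X, evu_X, gm_eq]
          refine Filter.Eventually.of_forall fun x => ?_
          have := hκ j x.1 x.2
          rw [Prod.mk.eta] at this
          rw [this]
          rfl) (fun c => ⟨C c, by rw [evu_C, evu_C]⟩)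
      (fun i => by rw [evu_X]; exact halg i) P hcon
    have h1 : rename κ r - P * Q ∈ JI Y (Im Om u A) := by
      rw [hker, map_sub, hQ]
      have : evu Y hφ u (rename κ r) = evu Y hφ (bs (N := N)) r := by
        have h2 : (evu Y hφ u).comp (rename κ : MvPolynomial (Fin N) (OO Y) →ₐ[OO Y] _).toRingHom =
            evu Y hφ (bs (N := N)) := by
          refine MvPolynomial.ringHom_ext (fun c => ?_) (fun j => ?_)
          · rw [RingHom.comp_apply]
            show evu Y hφ u (rename κ (C c)) = _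
            rw [rename_C, evu_C, evu_C]
          · rw [RingHom.comp_apply]
            show evu Y hφ u (rename κ (X j)) = _
            rw [rename_X, evu_X, evu_X, gm_eq]
            refine Filter.Eventually.of_forall fun x => ?_
            have := hκ j x.1 x.2
            rw [Prod.mk.eta] at this
            rw [this]
            rfl
        exact RingHom.congr_fun h2 r
      rw [this, sub_self]
    have h2 : rename κ r ∈ JI Y Om' := by
      have h3 := JI_mono hsub h1
      have h4 : P * Q ∈ JI Y Om' := Ideal.mul_mem_right _ _ hP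
      have := add_mem h3 h4
      rwa [sub_add_cancel] at this
    -- the projection
    obtain ⟨Om'', hOm''⟩ : ∃ Om'' : ℕ → Finset (Fin N → ℤ),
        ∀ ν, Om'' ν = (Om' ν).image fun s j => s (κ j) := ⟨_, fun _ => rfl⟩
    have h3 : ∀ᶠ ν in (Uf : Filter ℕ), Om'' ν ⊆ Om ν := by
      filter_upwards [hsub] with ν h t ht
      rw [hOm''] at ht
      obtain ⟨s, hs, rfl⟩ := Finset.mem_image.1 ht
      obtain ⟨t', h4, -, rfl⟩ := mem_Im.1 (h hs)
      have : (fun j => (fun i => u i (ν, t')) (κ j)) = t' := by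
        funext j
        exact hκ j ν t'
      rw [this]
      exact h4
    have h4 : Big Y Om'' := by
      obtain ⟨m, hm⟩ := hbig
      refine ⟨m, ?_⟩
      filter_upwards [hm, hsub] with ν h5 h6
      have h7 : (Om'' ν).card = (Om' ν).card := by
        rw [hOm'']
        refine Finset.card_image_of_injOn ?_
        intro s hs s' hs' hss
        obtain ⟨t, -, -, rfl⟩ := mem_Im.1 (h6 hs)
        obtain ⟨t', -, -, rfl⟩ := mem_Im.1 (h6 hs')
        have : t = t' := by
          funext j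
          have := congrFun hss j
          simp only at this
          rwa [hκ, hκ] at this
        rw [this]
      rw [h7]
      exact h5
    have h5 : r ∈ JI Y Om'' := by
      rw [mem_JI (Re.sq r)]
      have h6 := (mem_JI ((Re.sq r).rename κ)).1 h2
      filter_upwards [h6] with ν h7 t ht
      rw [hOm''] at ht
      obtain ⟨s, hs, rfl⟩ := Finset.mem_image.1 ht
      have := h7 s hs
      rw [eval_rename] at this
      exact this
    exact hr ((ker_base hG hW hφ hY r).1 (hG.2 Om'' h3 h4 h5))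

end gen

end Pool.Agent.R323.SE
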