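import Pool.Agent.R323.SE.B
import Pool.Agent.R323.SE.G

/-!
# Abstract form, bases, transitivity
-/

set_option autoImplicit false

namespace Pool.Agent.R323.SE

section absB

open Polynomial

theorem absB {O L : Type} [CommRing O] [IsDomain O] [CharZero O] [Field L] (θ : O →+* L)
    (hθ : Function.Injective θ) {d D : ℕ} (G : ℕ → L) (ι : Fin d → ℕ)
    (hind : ∀ P : MvPolynomial (Fin d) O,
      MvPolynomial.eval₂Hom θ (fun b => G (ι b)) P = 0 → P = 0)
    (hrel : ∀ (n : ℕ) (b : Fin n → ℕ), ∃ c : (Fin d → Fin (D + 1)) × Fin (D + 1) → O, c ≠ 0 ∧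
      ∑ e, θ (c e) * ((∏ b', G (ι b') ^ (e.1 b' : ℕ)) *
        (∑ i, (b i : L) * G i) ^ (e.2 : ℕ)) = 0)
    {r : ℕ} (hr : 1 ≤ r) (f : L[X]) (hf : f.natDegree = r)
    (hfG : ∀ i, f.coeff i ∈ Subfield.closure (Set.range θ ∪ Set.range G)) (Z : ℕ → L)
    (hZ : Function.Injective Z) (hZG : ∀ n, Z n ∈ Subfield.closure (Set.range θ ∪ Set.range G))
    (hc : ∀ n, ∃ a b : O, b ≠ 0 ∧ f.eval (Z n) * θ b = θ a) :
    ∃ g : ℕ → ℕ, StrictMono g ∧ ∀ i j l m, i ≠ j → l ≠ m →
      ∃ p : Polynomial O, p ≠ 0 ∧ p.eval₂ θ ((Z (g i) - Z (g j)) / (Z (g l) - Z (g m))) = 0 := by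
  let algO : Algebra O L := θ.toAlgebra
  have hfs : FaithfulSMul O L := (faithfulSMul_iff_algebraMap_injective O L).2 hθ
  let K₀ := FractionRing O
  let _alg : Algebra K₀ L := FractionRing.liftAlgebra O L
  have htow : IsScalarTower O K₀ L := FractionRing.isScalarTower_liftAlgebra O L
  have hK₀alg : Algebra.IsAlgebraic O K₀ :=
    ⟨fun z => (IsFractionRing.isAlgebraic_iff O K₀ K₀).2 (isAlgebraic_algebraMap z)⟩
  have hθm : ∀ o, θ o = algebraMap K₀ L (algebraMap O K₀ o) := fun o => by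
    rw [← IsScalarTower.algebraMap_apply]
    rfl
  have hind0 : AlgebraicIndependent O (fun b => G (ι b)) := by
    rw [algebraicIndependent_iff]
    intro P hP
    exact hind P hP
  have hind1 : AlgebraicIndependent K₀ (fun b => G (ι b)) := hind0.extendScalars K₀
  have hCZ : CharZero K₀ := charZero_of_injective_algebraMap (IsFractionRing.injective O K₀)
  have hcl : ∀ z, z ∈ Subfield.closure (Set.range θ ∪ Set.range G) →
      z ∈ IntermediateField.adjoin K₀ (Set.range G) := by
    intro z hz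
    have h1 : Subfield.closure (Set.range θ ∪ Set.range G) ≤
        (IntermediateField.adjoin K₀ (Set.range G)).toSubfield := by
      rw [Subfield.closure_le]
      rintro _ (⟨o, rfl⟩ | ⟨i, rfl⟩)
      · rw [hθm]
        exact (IntermediateField.adjoin K₀ (Set.range G)).algebraMap_mem _
      · exact IntermediateField.subset_adjoin _ _ ⟨i, rfl⟩
    exact h1 hz
  obtain ⟨g, hg, h⟩ := absA (K₀ := K₀) (K := L) (D := D) G ι hind1 (by
      intro n b
      obtain ⟨c, hc0, hc1⟩ := hrel n b
      refine ⟨fun e => algebraMap O K₀ (c e), ?_, ?_⟩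
      · intro h
        apply hc0
        funext e
        have h1 := congrFun h e
        exact (map_eq_zero_iff _ (IsFractionRing.injective O K₀)).1 h1
      · rw [← hc1]
        refine Finset.sum_congr rfl fun e _ => ?_
        rw [hθm]) hr f hf (fun i => hcl _ (hfG i)) Z hZ (fun n => hcl _ (hZG n)) (by
      intro n
      obtain ⟨a, b, hb, hab⟩ := hc n
      refine ⟨algebraMap O K₀ a / algebraMap O K₀ b, ?_⟩
      have hb' : θ b ≠ 0 := by
        intro h
        exact hb (hθ (by rw [h, map_zero]))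
      rw [map_div₀, ← hθm, ← hθm, ← hab, mul_div_cancel_right₀ _ hb'])
  refine ⟨g, hg, fun i j l m hij hlm => ?_⟩
  have h1 := (IsFractionRing.isAlgebraic_iff O K₀ L).2 (h i j l m hij hlm)
  obtain ⟨p, hp0, hp⟩ := h1
  exact ⟨p, hp0, hp⟩

end absB

section basis

open MvPolynomial

theorem basis_alg (O : Type) [CommRing O] [IsDomain O] (N : ℕ)
    (J : Ideal (MvPolynomial (Fin N) O)) (hJ : J.IsPrime) (hC : ∀ c : O, c ≠ 0 → C c ∉ J) :
    ∃ (d : ℕ) (ι : Fin d → Fin N), (∀ P : MvPolynomial (Fin d) O, rename ι P ∈ J → P = 0) ∧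
      ∀ i : Fin N, ∃ p : Polynomial (MvPolynomial (Fin d) O), p ≠ 0 ∧
        Polynomial.eval₂ (rename ι : MvPolynomial (Fin d) O →ₐ[O] _).toRingHom
          (X i : MvPolynomial (Fin N) O) p ∈ J := by
  classical
  have hdom : IsDomain (MvPolynomial (Fin N) O ⧸ J) := Ideal.Quotient.isDomain J
  let mk : MvPolynomial (Fin N) O →ₐ[O] MvPolynomial (Fin N) O ⧸ J := Ideal.Quotient.mkₐ O J
  have hmk : Function.Surjective mk := Ideal.Quotient.mkₐ_surjective O J
  have hJ0 : ∀ P, P ∈ J ↔ mk P = 0 := fun P => Ideal.Quotient.eq_zero_iff_mem.symm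
  have hff : @FaithfulSMul O (MvPolynomial (Fin N) O ⧸ J) Algebra.toSMul := by
    rw [faithfulSMul_iff_algebraMap_injective, injective_iff_map_eq_zero]
    intro c hc
    by_contra hc0
    apply hC c hc0
    rw [hJ0, ← hc]
    exact mk.commutes c
  obtain ⟨d, ι, hι, halg⟩ := Pool.Agent.Y394.GN.exists_basis (O := O) (fun i => mk (X i)) (by
    rw [eq_top_iff]
    intro z _
    obtain ⟨P, rfl⟩ := hmk z
    have h1 : (aeval fun i => mk (X i)) = mk := by
      apply MvPolynomial.algHom_ext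
      intro i
      rw [aeval_X]
    rw [Algebra.adjoin_range_eq_range_aeval, h1]
    exact ⟨P, rfl⟩)
  have hcomp : mk.comp (rename ι) = aeval (fun b => mk (X (ι b))) := by
    apply MvPolynomial.algHom_ext
    intro b
    rw [AlgHom.comp_apply, rename_X, aeval_X]
  refine ⟨d, ι, ?_, ?_⟩
  · intro P hP
    have h3 : mk (rename ι P) = aeval (fun b => mk (X (ι b))) P := AlgHom.congr_fun hcomp P
    rw [hJ0, h3] at hP
    exact (injective_iff_map_eq_zero _).1 hι P hP
  · intro i
    obtain ⟨q, hq0, hq⟩ := halg (mk (X i))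
    let e := hι.aevalEquiv
    refine ⟨q.map e.symm.toAlgHom.toRingHom, ?_, ?_⟩
    · rwa [Ne, Polynomial.map_eq_zero_iff]
      exact e.symm.injective
    · rw [hJ0]
      have h0 := Polynomial.hom_eval₂ (q.map e.symm.toAlgHom.toRingHom)
        (rename ι : MvPolynomial (Fin d) O →ₐ[O] _).toRingHom mk.toRingHom (X i)
      refine h0.trans ?_
      rw [Polynomial.eval₂_map]
      have h1 : (mk.toRingHom.comp (rename ι : MvPolynomial (Fin d) O →ₐ[O] _).toRingHom).comp
          e.symm.toAlgHom.toRingHom = algebraMap (Algebra.adjoin O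
            (Set.range fun b => mk (MvPolynomial.X (ι b)))) (MvPolynomial (Fin N) O ⧸ J) := by
        refine RingHom.ext fun a => ?_
        obtain ⟨P, rfl⟩ := e.surjective a
        show mk (rename ι (e.symm (e P))) = _
        rw [AlgEquiv.symm_apply_apply]
        have h3 : mk (rename ι P) = aeval (fun b => mk (X (ι b))) P := AlgHom.congr_fun hcomp P
        rw [h3]
        exact (hι.algebraMap_aevalEquiv P).symm
      rw [h1]
      exact hq

theorem trans_alg {R₀ R₁ L : Type} [CommRing R₀] [CommRing R₁] [Field L] (φ₀ : R₀ →+* L)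
    (φ₁ : R₁ →+* L) (h : ∀ r, IsAlgebraic φ₀.range (φ₁ r)) {z : L} (p : Polynomial R₁)
    (h0 : p.map φ₁ ≠ 0) (h1 : p.eval₂ φ₁ z = 0) : IsAlgebraic φ₀.range z := by
  let S := Subalgebra.algebraicClosure φ₀.range L
  let φ : R₁ →+* S := φ₁.codRestrict S h
  have h2 : IsAlgebraic S z := by
    refine ⟨p.map φ, ?_, ?_⟩
    · intro h3
      apply h0
      have h4 : (p.map φ).map S.val.toRingHom = p.map φ₁ := by
        rw [Polynomial.map_map]
        rfl
      rw [← h4, h3, Polynomial.map_zero]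
    · rw [Polynomial.aeval_def, Polynomial.eval₂_map]
      exact h1
  exact h2.restrictScalars φ₀.range

end basis

end Pool.Agent.R323.SE
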