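import Pool.Agent.R323.SE.G

/-!
# Relations in the field of internal functions
-/

set_option autoImplicit false

namespace Pool.Agent.R323.SE

open Filter MvPolynomial Pool.Agent.Y902.GN Pool.Agent.R323

section

variable {Y : ℕ → ℕ} {N M : ℕ} {Om : ℕ → Finset (Fin N → ℤ)} {W : Ultrafilter (ℕ × (Fin N → ℤ))}

theorem evu_ren (hφ : Tendsto Prod.fst (W : Filter (ℕ × (Fin N → ℤ))) (Uf : Filter ℕ))
    (u : Fin M → ℕ × (Fin N → ℤ) → ℤ) (κ : Fin N → Fin M) (hκ : ∀ j ν t, u (κ j) (ν, t) = t j) :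
    (evu Y hφ u).comp (rename κ : MvPolynomial (Fin N) (OO Y) →ₐ[OO Y] _).toRingHom =
      evu Y hφ (bs (N := N)) := by
  refine MvPolynomial.ringHom_ext (fun c => ?_) (fun j => ?_)
  · rw [RingHom.comp_apply]
    show evu Y hφ u (rename κ (C c)) = _
    rw [rename_C, evu_C, evu_C]
  · rw [RingHom.comp_apply]
    show evu Y hφ u (rename κ (X j)) = _
    rw [rename_X, evu_X, evu_X, gm_eq]
    refine Filter.Eventually.of_forall fun x => ?_
    have := hκ j x.1 x.2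
    rw [Prod.mk.eta] at this
    rw [this]
    rfl

theorem abs_le_sqrt {a : ℤ} {y : ℕ} (h : a ^ 2 ≤ (y : ℤ)) : |a| ≤ ((Nat.sqrt y : ℕ) : ℤ) := by
  have h1 : a.natAbs ≤ Nat.sqrt y := by
    rw [Nat.le_sqrt']
    have : ((a.natAbs : ℕ) : ℤ) ^ 2 = a ^ 2 := Int.natAbs_sq a
    have h2 : ((a.natAbs ^ 2 : ℕ) : ℤ) ≤ (y : ℤ) := by
      push_cast
      rw [sq_abs]
      exact h
    exact_mod_cast h2
  rw [Int.abs_eq_natAbs]
  exact_mod_cast h1

theorem rel_LL (d m : ℕ) : ∃ D : ℕ, ∀ (Y : ℕ → ℕ) (N : ℕ) (Om : ℕ → Finset (Fin N → ℤ))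
    (W : Ultrafilter (ℕ × (Fin N → ℤ)))
    (hφ : Tendsto Prod.fst (W : Filter (ℕ × (Fin N → ℤ))) (Uf : Filter ℕ)),
    (∀ m : ℕ, ∀ᶠ ν in (Uf : Filter ℕ), m ≤ Y ν) → Gen Y Om →
    (∀ᶠ ν in (Uf : Filter ℕ), Y ν + 2 ≤ (Om ν).card ^ m) → Dn Om W →
    ∀ (g : ℕ → ℕ × (Fin N → ℤ) → ℤ), (∀ (j : Fin N) ν t, g (j : ℕ) (ν, t) = t j) →
    (∀ i, ∀ᶠ ν in (Uf : Filter ℕ), ∀ t ∈ Om ν, (g i (ν, t)) ^ 2 ≤ (Y ν : ℤ)) →
    ∀ (ι : Fin d → Fin N), (∀ P : MvPolynomial (Fin d) (OO Y), rename ι P ∈ JI Y Om → P = 0) →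
    (∀ i, ∃ p : Polynomial (MvPolynomial (Fin d) (OO Y)), p ≠ 0 ∧
      p.eval₂ ((evu Y hφ (bs (N := N))).comp
        (rename ι : MvPolynomial (Fin d) (OO Y) →ₐ[OO Y] _).toRingHom)
        (gm W fun x => ((g i x : ℤ) : ℚ)) = 0) →
    ∀ (n : ℕ) (b : Fin n → ℕ), ∃ c : (Fin d → Fin (D + 1)) × Fin (D + 1) → OO Y, c ≠ 0 ∧
      ∑ e, ps W hφ (c e) * ((∏ b', gm W (fun x => ((g (ι b' : ℕ) x : ℤ) : ℚ)) ^ (e.1 b' : ℕ)) *
        (∑ i, (b i : LL W) * gm W (fun x => ((g (i : ℕ) x : ℤ) : ℚ))) ^ (e.2 : ℕ)) = 0 := by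
  classical
  obtain ⟨D, hD⟩ := relationI d (2 * m)
  refine ⟨D, ?_⟩
  intro Y N Om W hφ hY hG hm hW g hg hb ι hind halg n b
  obtain ⟨u, hu⟩ : ∃ u : Fin (N + n) → ℕ × (Fin N → ℤ) → ℤ, ∀ i, u i = g (i : ℕ) :=
    ⟨_, fun _ => rfl⟩
  obtain ⟨κ, hκv⟩ : ∃ κ : Fin N → Fin (N + n), ∀ j, ((κ j : Fin (N + n)) : ℕ) = j :=
    ⟨Fin.castAdd n, fun _ => rfl⟩
  have hκ : ∀ j ν t, u (κ j) (ν, t) = t j := by
    intro j ν t
    rw [hu, hκv]
    exact hg j ν t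
  have hinj : Function.Injective ((evu Y hφ (bs (N := N))).comp
      (rename ι : MvPolynomial (Fin d) (OO Y) →ₐ[OO Y] _).toRingHom) := by
    rw [injective_iff_map_eq_zero]
    intro P hP
    exact hind P ((ker_base hG hW hφ hY _).2 hP)
  have halg2 : ∀ i, IsAlgebraic (evu Y hφ (bs (N := N))).range
      (gm W fun x => ((u i x : ℤ) : ℚ)) := by
    intro i
    obtain ⟨p, hp0, hp⟩ := halg (i : ℕ)
    refine alg_of_poly _ (p := p.map
      (rename ι : MvPolynomial (Fin d) (OO Y) →ₐ[OO Y] _).toRingHom) ?_ ?_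
    · rw [Polynomial.map_map]
      intro h
      apply hp0
      apply Polynomial.map_injective _ hinj
      rw [h, Polynomial.map_zero]
    · rw [Polynomial.eval₂_map, hu]
      exact hp
  obtain ⟨A, hA, hG', hker⟩ := gen_ext hY hG hW hφ u κ hκ halg2
  have hren := evu_ren (Y := Y) hφ u κ hκ
  have hall : ∀ᶠ ν in (Uf : Filter ℕ), ∀ s ∈ Im Om u A ν, ∀ j, |s j| ≤ ((Nat.sqrt (Y ν) : ℕ) : ℤ) := by
    have h1 : ∀ᶠ ν in (Uf : Filter ℕ), ∀ j : Fin (N + n), ∀ t ∈ Om ν,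
        (g (j : ℕ) (ν, t)) ^ 2 ≤ (Y ν : ℤ) := Filter.eventually_all.2 fun j => hb j
    filter_upwards [h1] with ν h2 s hs j
    obtain ⟨t, ht, -, rfl⟩ := mem_Im.1 hs
    refine abs_le_sqrt ?_
    show (u j (ν, t)) ^ 2 ≤ _
    rw [hu]
    exact h2 j t ht
  have hBd : Bd Y (Im Om u A) := by
    filter_upwards [hall] with ν h1 s hs j
    refine (h1 s hs j).trans ?_
    exact_mod_cast Nat.sqrt_le_self _
  have hsize : ∀ᶠ ν in (Uf : Filter ℕ), Y ν + 2 ≤ (Im Om u A ν).card ^ (2 * m) := by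
    obtain ⟨k, hk⟩ := hW A hA
    refine dense_big hY hm (k := k) ?_
    filter_upwards [hk] with ν h1
    rw [card_Im hκ]
    exact h1
  have hcomp : ∀ P : MvPolynomial (Fin d) (OO Y), evu Y hφ u (rename (κ ∘ ι) P) =
      evu Y hφ (bs (N := N)) (rename ι P) := by
    intro P
    rw [← rename_rename]
    exact RingHom.congr_fun hren (rename ι P)
  have hind' : ∀ P : MvPolynomial (Fin d) (OO Y), rename (κ ∘ ι) P ∈ JI Y (Im Om u A) → P = 0 := by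
    intro P hP
    rw [hker, hcomp] at hP
    exact hind P ((ker_base hG hW hφ hY _).2 hP)
  have halg' : ∀ i : Fin (N + n), ∃ p : Polynomial (MvPolynomial (Fin d) (OO Y)), p ≠ 0 ∧
      Polynomial.eval₂ (rename (κ ∘ ι) : MvPolynomial (Fin d) (OO Y) →ₐ[OO Y] _).toRingHom
        (X i : MvPolynomial (Fin (N + n)) (OO Y)) p ∈ JI Y (Im Om u A) := by
    intro i
    obtain ⟨p, hp0, hp⟩ := halg (i : ℕ)
    refine ⟨p, hp0, ?_⟩
    rw [hker, Polynomial.hom_eval₂, evu_X, hu]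
    have h1 : (evu Y hφ u).comp (rename (κ ∘ ι) : MvPolynomial (Fin d) (OO Y) →ₐ[OO Y] _).toRingHom =
        (evu Y hφ (bs (N := N))).comp
          (rename ι : MvPolynomial (Fin d) (OO Y) →ₐ[OO Y] _).toRingHom :=
      RingHom.ext fun P => hcomp P
    rw [h1]
    exact hp
  have hprime := hG'.isPrime hY
  have h1n : (1 : MvPolynomial (Fin (N + n)) (OO Y)) ∉ JI Y (Im Om u A) := by
    intro h
    exact hprime.ne_top ((Ideal.eq_top_iff_one _).2 h)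
  obtain ⟨cl, hcl⟩ : ∃ cl : Fin n → Fin (N + n), ∀ i, ((cl i : Fin (N + n)) : ℕ) = i :=
    ⟨fun i => ⟨i, by omega⟩, fun _ => rfl⟩
  obtain ⟨U, hU⟩ : ∃ U : MvPolynomial (Fin (N + n)) (OO Y),
      U = ∑ i : Fin n, C ((b i : ℕ) : OO Y) * X (cl i) := ⟨_, rfl⟩
  have hUre : Re U (fun _ => ∑ i : Fin n, C ((b i : ℕ) : ℤ) * X (cl i)) := by
    rw [hU]
    refine Re.sum _ fun i _ => Re.mul (Re.C ?_) (Re.X _)
    rw [SubringClass.coe_natCast]
    rfl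
  have hLT : LT Y (Im Om u A) U 1 := by
    filter_upwards [hall, (Re.sq U).eq hUre,
      (Re.sq (1 : MvPolynomial (Fin (N + n)) (OO Y))).eq Re.one, hY ((∑ i, b i) ^ 2), hY 1]
      with ν h1 h2 h3 h4 h5 s hs
    refine ⟨∑ i : Fin n, (b i : ℤ) * s (cl i), 1, isCoprime_one_right, ?_, ?_, ?_⟩
    · have h6 : ∑ i, b i ≤ Nat.sqrt (Y ν) := by
        rw [Nat.le_sqrt']
        exact h4
      calc |∑ i : Fin n, (b i : ℤ) * s (cl i)| ≤ ∑ i : Fin n, |(b i : ℤ) * s (cl i)| :=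
            Finset.abs_sum_le_sum_abs _ _
        _ ≤ ∑ i : Fin n, (b i : ℤ) * ((Nat.sqrt (Y ν) : ℕ) : ℤ) := by
            refine Finset.sum_le_sum fun i _ => ?_
            rw [abs_mul, Nat.abs_cast]
            exact mul_le_mul_of_nonneg_left (h1 s hs _) (by positivity)
        _ = ((∑ i, b i : ℕ) : ℤ) * ((Nat.sqrt (Y ν) : ℕ) : ℤ) := by
            rw [← Finset.sum_mul]
            push_cast
            rfl
        _ ≤ ((Nat.sqrt (Y ν) : ℕ) : ℤ) * ((Nat.sqrt (Y ν) : ℕ) : ℤ) :=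
            mul_le_mul_of_nonneg_right (by exact_mod_cast h6) (by positivity)
        _ ≤ (Y ν : ℤ) := by exact_mod_cast Nat.sqrt_le (Y ν)
    · rw [abs_one]
      exact_mod_cast h5
    · rw [h2, h3, map_sum, map_one]
      simp only [map_mul, eval_C, eval_X]
      ring
  obtain ⟨c, hc0, hc⟩ := hD Y (N + n) (Im Om u A) hY hG' hsize (κ ∘ ι) hind' halg' hBd U 1 h1n hLT
  refine ⟨c, hc0, ?_⟩
  rw [hker, map_sum] at hc
  rw [← hc]
  refine Finset.sum_congr rfl fun e _ => ?_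
  rw [map_mul, map_mul, map_mul, evu_C, map_prod, map_pow, one_pow, map_one, mul_one]
  congr 1
  congr 1
  · refine Finset.prod_congr rfl fun b' _ => ?_
    have e1 : u ((κ ∘ ι) b') = g (ι b' : ℕ) := by
      rw [hu]
      congr 1
      exact hκv (ι b')
    rw [map_pow, evu_X, e1]
  · congr 1
    rw [hU, map_sum]
    refine Finset.sum_congr rfl fun i _ => ?_
    rw [map_mul, evu_C, evu_X, hu, hcl]
    congr 1

end

end Pool.Agent.R323.SE
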