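import Pool.Agent.R323.SE.C
import Pool.Agent.R323.SE.H

/-!
# The core theorem
-/

set_option autoImplicit false

namespace Pool.Agent.R323.SE

open Filter MvPolynomial Pool.Agent.Y902.GN Pool.Agent.R323

/-- the polynomial with the coefficients `t j / t (d + 1)` -/
noncomputable def pol {d : ℕ} (t : Fin (d + 2) → ℤ) : Polynomial ℚ :=
  ∑ j : Fin (d + 1), Polynomial.C ((t j.castSucc : ℚ) / (t (Fin.last (d + 1)) : ℚ)) *
    Polynomial.X ^ (j : ℕ)

/-- affine equivalence -/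
def Aff (f f' : Polynomial ℚ) : Prop :=
  ∃ a b : ℚ, a ≠ 0 ∧ f' = f.comp (Polynomial.C a * Polynomial.X + Polynomial.C b)

theorem pol_natDegree {d : ℕ} (t : Fin (d + 2) → ℤ) : (pol t).natDegree ≤ d := by
  unfold pol
  refine Polynomial.natDegree_sum_le_of_forall_le _ _ fun i _ => ?_
  exact (Polynomial.natDegree_C_mul_X_pow_le _ _).trans (by omega)

theorem aff_of_points {d : ℕ} (hd : 1 ≤ d) {f f' : Polynomial ℚ} (hf : f.natDegree ≤ d)
    (hf' : f'.natDegree ≤ d) (x x' c : ℕ → ℚ)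
    (hx : ∀ j, j ≤ d → f.eval (x j) = c j) (hx' : ∀ j, j ≤ d → f'.eval (x' j) = c j)
    (hinj : ∀ i j, i ≤ d → j ≤ d → i ≠ j → x i ≠ x j)
    (hinj' : ∀ i j, i ≤ d → j ≤ d → i ≠ j → x' i ≠ x' j)
    (h : ∀ j, j < d → (x (j + 1) - x 0) / (x 1 - x 0) = (x' (j + 1) - x' 0) / (x' 1 - x' 0)) :
    Aff f f' := by
  have h0 : x 1 - x 0 ≠ 0 := sub_ne_zero.2 (hinj 1 0 hd (Nat.zero_le _) one_ne_zero)
  have h0' : x' 1 - x' 0 ≠ 0 := sub_ne_zero.2 (hinj' 1 0 hd (Nat.zero_le _) one_ne_zero)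
  obtain ⟨a, ha⟩ : ∃ a, a = (x 1 - x 0) / (x' 1 - x' 0) := ⟨_, rfl⟩
  obtain ⟨b, hb⟩ : ∃ b, b = x 0 - a * x' 0 := ⟨_, rfl⟩
  refine ⟨a, b, by rw [ha]; exact div_ne_zero h0 h0', ?_⟩
  have hpt : ∀ j, j < d + 1 → a * x' j + b = x j := by
    intro j hj
    rcases Nat.eq_zero_or_pos j with rfl | hpos
    · rw [hb]; ring
    · obtain ⟨j, rfl⟩ : ∃ j', j = j' + 1 := ⟨j - 1, by omega⟩
      have h1 := h j (by omega)
      rw [div_eq_div_iff h0 h0'] at h1
      have h2 : a * (x' (j + 1) - x' 0) = x (j + 1) - x 0 := by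
        rw [ha, div_mul_eq_mul_div, div_eq_iff h0']
        linear_combination -h1
      rw [hb]
      linear_combination h2
  rw [← sub_eq_zero]
  refine Polynomial.eq_zero_of_natDegree_lt_card_of_eval_eq_zero _
    (f := fun j : Fin (d + 1) => x' j) ?_ ?_ ?_
  · intro i j hij
    by_contra hne
    exact hinj' i j (by omega) (by omega) (fun h => hne (Fin.ext h)) hij
  · intro j
    rw [Polynomial.eval_sub, hx' _ (by omega), Polynomial.eval_comp, Polynomial.eval_add,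
      Polynomial.eval_mul, Polynomial.eval_C, Polynomial.eval_C, Polynomial.eval_X, hpt j j.2,
      hx _ (by omega), sub_self]
  · rw [Fintype.card_fin]
    have h1 : (f.comp (Polynomial.C a * Polynomial.X + Polynomial.C b)).natDegree ≤ d := by
      refine Polynomial.natDegree_comp_le.trans ?_
      have h2 : (Polynomial.C a * Polynomial.X + Polynomial.C b).natDegree ≤ 1 :=
        Polynomial.natDegree_linear_le
      calc f.natDegree * _ ≤ d * 1 := Nat.mul_le_mul hf h2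
        _ = d := mul_one _
    have h3 := Polynomial.natDegree_sub_le_of_le hf' h1
    rw [max_self] at h3
    omega

section gm

variable {α : Type} {W : Ultrafilter (ℕ × α)}

theorem gm_sum {ι : Type} (s : Finset ι) (F : ι → ℕ × α → ℚ) :
    gm W (fun x => ∑ i ∈ s, F i x) = ∑ i ∈ s, gm W (F i) := by
  classical
  induction s using Finset.induction_on with
  | empty =>
    simp only [Finset.sum_empty]
    exact (gm_zero).2 (Filter.Eventually.of_forall fun _ => rfl)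
  | insert a s ha ih =>
    simp only [Finset.sum_insert ha]
    rw [gm_add, ih]

theorem gm_pow (f : ℕ × α → ℚ) (n : ℕ) : gm W (fun x => f x ^ n) = gm W f ^ n := by
  induction n with
  | zero => simp only [pow_zero]; exact gm_one
  | succ n ih => simp only [pow_succ]; rw [gm_mul, ih]

theorem gm_ne {f g : ℕ × α → ℚ} (h : ∀ᶠ x in (W : Filter (ℕ × α)), f x ≠ g x) :
    gm W f ≠ gm W g := by
  intro h1
  rw [gm_eq] at h1
  obtain ⟨x, h2, h3⟩ := (h1.and h).exists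
  exact h3 h2

theorem few_LL {Y : ℕ → ℕ} (hφ : Tendsto Prod.fst (W : Filter (ℕ × α)) (Uf : Filter ℕ))
    {p : Polynomial (OO Y)} (hp : p ≠ 0) {f : ℕ × α → ℚ}
    (h : p.eval₂ ((ps W hφ).comp (OO Y).subtype) (gm W f) = 0) :
    ∃ A ∈ W, ∀ᶠ ν in (Uf : Filter ℕ), ∃ R : Finset ℚ, R.card ≤ p.natDegree ∧
      ∀ t, (ν, t) ∈ A → f (ν, t) ∈ R := by
  classical
  choose c hc using fun i => rep_exists (p.coeff i)
  have h1 : gm W (fun x => ∑ i ∈ Finset.range (p.natDegree + 1), ((c i x.1 : ℤ) : ℚ) * f x ^ i) = 0 := by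
    rw [gm_sum, ← h, Polynomial.eval₂_eq_sum_range]
    refine Finset.sum_congr rfl fun i _ => ?_
    rw [gm_mul, gm_pow, RingHom.comp_apply, Subring.coe_subtype, hc i, ps_coe]
  rw [gm_zero] at h1
  refine ⟨_, h1, ?_⟩
  have h2 : p.coeff p.natDegree ≠ 0 := by
    rw [Polynomial.coeff_natDegree]
    exact Polynomial.leadingCoeff_ne_zero.2 hp
  filter_upwards [ev_ne_zero h2 (hc _)] with ν h3
  obtain ⟨q, hq⟩ : ∃ q : Polynomial ℚ, q = ∑ i ∈ Finset.range (p.natDegree + 1),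
    Polynomial.C ((c i ν : ℤ) : ℚ) * Polynomial.X ^ i := ⟨_, rfl⟩
  have hq0 : q ≠ 0 := by
    intro h0
    have h4 : q.coeff p.natDegree = ((c p.natDegree ν : ℤ) : ℚ) := by
      rw [hq, Polynomial.finsetSum_coeff, Finset.sum_eq_single p.natDegree]
      · rw [Polynomial.coeff_C_mul, Polynomial.coeff_X_pow, if_pos rfl, mul_one]
      · intro j _ hj
        rw [Polynomial.coeff_C_mul, Polynomial.coeff_X_pow, if_neg (Ne.symm hj), mul_zero]
      · intro h
        exact absurd (Finset.mem_range.2 (Nat.lt_succ_self _)) h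
    rw [h0, Polynomial.coeff_zero] at h4
    exact h3 (by exact_mod_cast h4.symm)
  have hqd : q.natDegree ≤ p.natDegree := by
    rw [hq]
    refine Polynomial.natDegree_sum_le_of_forall_le _ _ fun i hi => ?_
    refine (Polynomial.natDegree_C_mul_X_pow_le _ _).trans ?_
    have := Finset.mem_range.1 hi
    omega
  refine ⟨q.roots.toFinset, ?_, fun t ht => ?_⟩
  · exact (Multiset.toFinset_card_le _).trans ((Polynomial.card_roots' q).trans hqd)
  · rw [Multiset.mem_toFinset, Polynomial.mem_roots hq0, Polynomial.IsRoot.def, hq,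
      Polynomial.eval_finsetSum]
    have h5 : ∑ i ∈ Finset.range (p.natDegree + 1), ((c i ν : ℤ) : ℚ) * f (ν, t) ^ i = 0 := ht
    rw [← h5]
    refine Finset.sum_congr rfl fun i _ => ?_
    rw [Polynomial.eval_mul, Polynomial.eval_C, Polynomial.eval_pow, Polynomial.eval_X]

end gm

/-- the points -/
noncomputable def xx {d : ℕ} (e : ℕ → ℕ → ℤ) (z : ℕ → ℕ → (Fin (d + 2) → ℤ) → ℤ) (i : ℕ)
    (x : ℕ × (Fin (d + 2) → ℤ)) : ℚ :=
  (z i x.1 x.2 : ℚ) / ((e i x.1 : ℚ) * (x.2 (Fin.last d).castSucc : ℚ))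

theorem core {d : ℕ} (hd : 1 ≤ d) {Y : ℕ → ℕ} (hY : ∀ m : ℕ, ∀ᶠ ν in (Uf : Filter ℕ), m ≤ Y ν)
    {Om₀ : ℕ → Finset (Fin (d + 2) → ℤ)} (hbig : Big Y Om₀)
    (e p : ℕ → ℕ → ℤ) (z : ℕ → ℕ → (Fin (d + 2) → ℤ) → ℤ)
    (he0 : ∀ i, ∀ᶠ ν in (Uf : Filter ℕ), e i ν ≠ 0)
    (heb : ∀ i, ∀ᶠ ν in (Uf : Filter ℕ), |e i ν| ≤ (Y ν : ℤ))
    (hpb : ∀ i, ∀ᶠ ν in (Uf : Filter ℕ), |p i ν| ≤ (Y ν : ℤ))
    (hlead₀ : ∀ᶠ ν in (Uf : Filter ℕ), ∀ t ∈ Om₀ ν,
      t (Fin.last d).castSucc ≠ 0 ∧ t (Fin.last (d + 1)) ≠ 0)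
    (htb₀ : ∀ᶠ ν in (Uf : Filter ℕ), ∀ t ∈ Om₀ ν, ∀ j, (t j) ^ 2 ≤ (Y ν : ℤ))
    (hzb₀ : ∀ i, ∀ᶠ ν in (Uf : Filter ℕ), ∀ t ∈ Om₀ ν, (z i ν t) ^ 2 ≤ (Y ν : ℤ))
    (hval₀ : ∀ i, ∀ᶠ ν in (Uf : Filter ℕ), ∀ t ∈ Om₀ ν,
      (pol t).eval (xx e z i (ν, t)) = (p i ν : ℚ) / (e i ν : ℚ))
    (hne₀ : ∀ i j, i ≠ j → ∀ᶠ ν in (Uf : Filter ℕ), ∀ t ∈ Om₀ ν,
      xx e z i (ν, t) ≠ xx e z j (ν, t)) :
    ∀ᶠ ν in (Uf : Filter ℕ), ∃ t ∈ Om₀ ν, ∃ t' ∈ Om₀ ν, t ≠ t' ∧ Aff (pol t) (pol t') := by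
  classical
  obtain ⟨Om, hsub, hG⟩ := Gen.ex hbig
  obtain ⟨m, hm⟩ := hG.1
  have hne := hG.1.nonempty
  obtain ⟨W, hW⟩ := exists_W Om hne
  have hφ := hW.fst hne
  -- properties on the ultrafilter
  have toW : ∀ {q : ℕ → (Fin (d + 2) → ℤ) → Prop},
      (∀ᶠ ν in (Uf : Filter ℕ), ∀ t ∈ Om₀ ν, q ν t) →
      ∀ᶠ x in (W : Filter (ℕ × (Fin (d + 2) → ℤ))), q x.1 x.2 := by
    intro q hq
    filter_upwards [hφ.eventually hq, hφ.eventually hsub, hW.mem hne] with x h1 h2 h3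
    exact h1 _ (h2 h3)
  have heW : ∀ i, ∀ᶠ x in (W : Filter (ℕ × (Fin (d + 2) → ℤ))), e i x.1 ≠ 0 :=
    fun i => hφ.eventually (he0 i)
  have hleadW := toW hlead₀
  obtain ⟨d', ι, hind, halg⟩ := basis_alg (OO Y) (d + 2) (JI Y Om) (hG.isPrime hY)
    (fun c hc => C_notMem hG.1 hc)
  obtain ⟨D, hD⟩ := rel_LL d' m
  obtain ⟨g, hgdef⟩ : ∃ g : ℕ → ℕ × (Fin (d + 2) → ℤ) → ℤ, g = fun i x =>
      if h : i < d + 2 then x.2 ⟨i, h⟩ else z (i - (d + 2)) x.1 x.2 := ⟨_, rfl⟩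
  have hg : ∀ (j : Fin (d + 2)) ν t, g (j : ℕ) (ν, t) = t j := by
    intro j ν t
    rw [hgdef]
    simp only [j.2, dif_pos]
  have hg' : ∀ (j : Fin (d + 2)), g (j : ℕ) = fun x => x.2 j := by
    intro j
    funext x
    exact hg j x.1 x.2
  have hgz : ∀ i, g (d + 2 + i) = fun x => z i x.1 x.2 := by
    intro i
    funext x
    rw [hgdef]
    simp
  obtain ⟨φ₁, hφ₁⟩ : ∃ φ₁, φ₁ = evu Y hφ (bs (N := d + 2)) := ⟨_, rfl⟩
  obtain ⟨φ₀, hφ₀⟩ : ∃ φ₀ : MvPolynomial (Fin d') (OO Y) →+* LL W, φ₀ = φ₁.comp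
      (rename ι : MvPolynomial (Fin d') (OO Y) →ₐ[OO Y] _).toRingHom := ⟨_, rfl⟩
  have hinj₀ : Function.Injective φ₀ := by
    rw [injective_iff_map_eq_zero]
    intro P hP
    rw [hφ₀, hφ₁] at hP
    exact hind P ((ker_base hG hW hφ hY _).2 hP)
  have hT : ∀ j, φ₁ (X j) = gm W fun x => ((x.2 j : ℤ) : ℚ) := by
    intro j
    rw [hφ₁, evu_X]
    rfl
  have hbase : ∀ j, IsAlgebraic φ₀.range (φ₁ (X j)) := by
    intro j
    obtain ⟨q, hq0, hq⟩ := halg j
    refine alg_of_poly φ₀ (p := q) ?_ ?_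
    · intro h
      apply hq0
      apply Polynomial.map_injective _ hinj₀
      rw [h, Polynomial.map_zero]
    · have h1 := (ker_base hG hW hφ hY _).1 hq
      rw [← hφ₁, Polynomial.hom_eval₂, ← hφ₀] at h1
      exact h1
  have hall : ∀ r, IsAlgebraic φ₀.range (φ₁ r) := by
    intro r
    induction r using MvPolynomial.induction_on with
    | C c =>
      have h1 : φ₁ (C c) = φ₀ (C c) := by
        rw [hφ₀, RingHom.comp_apply]
        show _ = φ₁ (rename ι (C c))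
        rw [rename_C]
      rw [h1]
      exact isAlgebraic_algebraMap (⟨φ₀ (C c), ⟨C c, rfl⟩⟩ : φ₀.range)
    | add P Q hP hQ =>
      rw [map_add]
      exact hP.add hQ
    | mul_X P i hP =>
      rw [map_mul]
      exact hP.mul (hbase i)
  -- the constants
  obtain ⟨eO, heO⟩ : ∃ eO : ℕ → OO Y, ∀ i, ((eO i : OO Y) : ZS) = ((e i : ℕ → ℤ) : ZS) := by
    refine ⟨fun i => ⟨((e i : ℕ → ℤ) : ZS), mem_OO.2 ⟨1, ?_⟩⟩, fun i => rfl⟩
    filter_upwards [heb i] with ν h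
    rw [pow_one]; omega
  obtain ⟨pO, hpO⟩ : ∃ pO : ℕ → OO Y, ∀ i, ((pO i : OO Y) : ZS) = ((p i : ℕ → ℤ) : ZS) := by
    refine ⟨fun i => ⟨((p i : ℕ → ℤ) : ZS), mem_OO.2 ⟨1, ?_⟩⟩, fun i => rfl⟩
    filter_upwards [hpb i] with ν h
    rw [pow_one]; omega
  obtain ⟨θ, hθ⟩ : ∃ θ : OO Y →+* LL W, θ = (ps W hφ).comp (OO Y).subtype := ⟨_, rfl⟩
  have hθe : ∀ i, θ (eO i) = gm W fun x => ((e i x.1 : ℤ) : ℚ) := by
    intro i
    rw [hθ, RingHom.comp_apply, Subring.coe_subtype, heO, ps_coe]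
  have hθp : ∀ i, θ (pO i) = gm W fun x => ((p i x.1 : ℤ) : ℚ) := by
    intro i
    rw [hθ, RingHom.comp_apply, Subring.coe_subtype, hpO, ps_coe]
  have hθC : ∀ c, φ₁ (C c) = θ c := by
    intro c
    rw [hφ₁, evu_C, hθ, RingHom.comp_apply, Subring.coe_subtype]
  have hθinj : Function.Injective θ := by
    rw [hθ]
    exact (ps_inj hφ).comp Subtype.val_injective
  -- the field elements
  obtain ⟨G, hGd⟩ : ∃ G : ℕ → LL W, ∀ i, G i = gm W fun x => ((g i x : ℤ) : ℚ) := ⟨_, fun _ => rfl⟩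
  have hGT : ∀ j : Fin (d + 2), G (j : ℕ) = gm W fun x => ((x.2 j : ℤ) : ℚ) := by
    intro j
    rw [hGd, hg']
  have hGz : ∀ i, G (d + 2 + i) = gm W fun x => ((z i x.1 x.2 : ℤ) : ℚ) := by
    intro i
    rw [hGd, hgz]
  obtain ⟨Z, hZd⟩ : ∃ Z : ℕ → LL W, ∀ i, Z i = gm W (xx e z i) := ⟨_, fun _ => rfl⟩
  obtain ⟨f, hf⟩ : ∃ f : Polynomial (LL W), f = ∑ j : Fin (d + 1),
      Polynomial.C (G (j.castSucc : ℕ) / G ((Fin.last (d + 1) : Fin (d + 2)) : ℕ)) *
        Polynomial.X ^ (j : ℕ) := ⟨_, rfl⟩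
  have hfcoeff : ∀ j : Fin (d + 1), f.coeff (j : ℕ) =
      G (j.castSucc : ℕ) / G ((Fin.last (d + 1) : Fin (d + 2)) : ℕ) := by
    intro j
    rw [hf, Polynomial.finsetSum_coeff, Finset.sum_eq_single j]
    · rw [Polynomial.coeff_C_mul, Polynomial.coeff_X_pow, if_pos rfl, mul_one]
    · intro i _ hi
      rw [Polynomial.coeff_C_mul, Polynomial.coeff_X_pow, if_neg, mul_zero]
      intro h
      exact hi (Fin.ext h.symm)
    · intro h
      exact absurd (Finset.mem_univ _) h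
  have hfle : f.natDegree ≤ d := by
    rw [hf]
    refine Polynomial.natDegree_sum_le_of_forall_le _ _ fun i _ => ?_
    exact (Polynomial.natDegree_C_mul_X_pow_le _ _).trans (by omega)
  have hTd : gm W (fun x => ((x.2 (Fin.last d).castSucc : ℤ) : ℚ)) ≠ 0 := by
    intro h
    rw [gm_zero] at h
    obtain ⟨x, h1, h2⟩ := (h.and hleadW).exists
    exact h2.1 (by exact_mod_cast h1)
  have hTq : gm W (fun x => ((x.2 (Fin.last (d + 1)) : ℤ) : ℚ)) ≠ 0 := by
    intro h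
    rw [gm_zero] at h
    obtain ⟨x, h1, h2⟩ := (h.and hleadW).exists
    exact h2.2 (by exact_mod_cast h1)
  have hE : ∀ i, θ (eO i) ≠ 0 := by
    intro i h
    rw [hθe, gm_zero] at h
    obtain ⟨x, h1, h2⟩ := (h.and (heW i)).exists
    exact h2 (by exact_mod_cast h1)
  have hfdeg : f.natDegree = d := by
    refine le_antisymm hfle (Polynomial.le_natDegree_of_ne_zero ?_)
    have h1 := hfcoeff (Fin.last d)
    rw [Fin.val_last] at h1
    rw [h1, hGT, hGT]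
    exact div_ne_zero hTd hTq
  have hfeval : ∀ F : ℕ × (Fin (d + 2) → ℤ) → ℚ, f.eval (gm W F) =
      gm W fun x => (pol x.2).eval (F x) := by
    intro F
    rw [hf, Polynomial.eval_finsetSum]
    have h1 : (fun x : ℕ × (Fin (d + 2) → ℤ) => (pol x.2).eval (F x)) = fun x =>
        ∑ j : Fin (d + 1), ((x.2 j.castSucc : ℤ) : ℚ) / ((x.2 (Fin.last (d + 1)) : ℤ) : ℚ) *
          F x ^ (j : ℕ) := by
      funext x
      unfold pol
      rw [Polynomial.eval_finsetSum]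
      refine Finset.sum_congr rfl fun j _ => ?_
      rw [Polynomial.eval_mul, Polynomial.eval_C, Polynomial.eval_pow, Polynomial.eval_X]
    rw [h1, gm_sum]
    refine Finset.sum_congr rfl fun j _ => ?_
    rw [gm_mul, gm_pow, gm_div, Polynomial.eval_mul, Polynomial.eval_C, Polynomial.eval_pow,
      Polynomial.eval_X, hGT, hGT]
  have hvalZ : ∀ i, f.eval (Z i) * θ (eO i) = θ (pO i) := by
    intro i
    rw [hZd, hfeval, hθe, hθp, ← gm_mul, gm_eq]
    filter_upwards [toW (hval₀ i), heW i] with x h1 h2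
    have h3 : ((e i x.1 : ℤ) : ℚ) ≠ 0 := by exact_mod_cast h2
    rw [h1, div_mul_cancel₀ _ h3]
  have hZz : ∀ i, Z i = G (d + 2 + i) / (θ (eO i) * G ((Fin.last d).castSucc : Fin (d + 2))) := by
    intro i
    rw [hZd, hGz, hθe, hGT, ← gm_mul, ← gm_div]
    rfl
  have hden : ∀ i, θ (eO i) * G ((Fin.last d).castSucc : Fin (d + 2)) ≠ 0 := by
    intro i
    refine mul_ne_zero (hE i) ?_
    rw [hGT]
    exact hTd
  -- algebraicity of the points
  have hZalg : ∀ i, IsAlgebraic φ₀.range (Z i) := by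
    intro i
    obtain ⟨P, hP⟩ : ∃ P : Polynomial (MvPolynomial (Fin (d + 2)) (OO Y)),
        P = (∑ j : Fin (d + 1), Polynomial.C (C (eO i) * X j.castSucc) *
          Polynomial.X ^ (j : ℕ)) - Polynomial.C (C (pO i) * X (Fin.last (d + 1))) := ⟨_, rfl⟩
    refine trans_alg φ₀ φ₁ hall P ?_ ?_
    · intro h0
      have h1 : P.coeff d = C (eO i) * X (Fin.last d).castSucc := by
        rw [hP, Polynomial.coeff_sub, Polynomial.finsetSum_coeff,
          Finset.sum_eq_single (Fin.last d)]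
        · rw [Polynomial.coeff_C_mul, Polynomial.coeff_X_pow, Fin.val_last, if_pos rfl, mul_one,
            Polynomial.coeff_C, if_neg (by omega), sub_zero]
        · intro j _ hj
          rw [Polynomial.coeff_C_mul, Polynomial.coeff_X_pow, if_neg, mul_zero]
          intro h
          exact hj (Fin.ext h.symm)
        · intro h
          exact absurd (Finset.mem_univ _) h
      have h2 : (P.map φ₁).coeff d = 0 := by rw [h0, Polynomial.coeff_zero]
      rw [Polynomial.coeff_map, h1, map_mul, hθC, hT] at h2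
      exact mul_ne_zero (hE i) hTd h2
    · rw [hP, Polynomial.eval₂_sub, Polynomial.eval₂_finsetSum, Polynomial.eval₂_C, map_mul, hθC,
        hT]
      have h1 : ∀ j : Fin (d + 1), Polynomial.eval₂ φ₁ (Z i) (Polynomial.C (C (eO i) *
          X j.castSucc) * Polynomial.X ^ (j : ℕ)) = (θ (eO i) * G ((Fin.last (d + 1) :
            Fin (d + 2)) : ℕ)) * (G (j.castSucc : ℕ) / G ((Fin.last (d + 1) : Fin (d + 2)) : ℕ) *
              Z i ^ (j : ℕ)) := by
        intro j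
        rw [Polynomial.eval₂_mul, Polynomial.eval₂_C, Polynomial.eval₂_pow, Polynomial.eval₂_X,
          map_mul, hθC, hT, hGT, hGT]
        field_simp
      rw [Finset.sum_congr rfl fun j _ => h1 j, ← Finset.mul_sum]
      have h2 : ∑ j : Fin (d + 1), G (j.castSucc : ℕ) / G ((Fin.last (d + 1) : Fin (d + 2)) : ℕ) *
              Z i ^ (j : ℕ) = f.eval (Z i) := by
        rw [hf, Polynomial.eval_finsetSum]
        refine Finset.sum_congr rfl fun j _ => ?_
        rw [Polynomial.eval_mul, Polynomial.eval_C, Polynomial.eval_pow, Polynomial.eval_X]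
      rw [h2, hGT]
      linear_combination (gm W (fun x => ((x.2 (Fin.last (d + 1)) : ℤ) : ℚ))) * hvalZ i
  have hGalg : ∀ i, IsAlgebraic φ₀.range (G i) := by
    intro i
    by_cases hi : i < d + 2
    · have h1 := hbase ⟨i, hi⟩
      rw [hT] at h1
      have h2 := hGT ⟨i, hi⟩
      rw [show ((⟨i, hi⟩ : Fin (d + 2)) : ℕ) = i from rfl] at h2
      rw [h2]
      exact h1
    · obtain ⟨j, rfl⟩ : ∃ j, i = d + 2 + j := ⟨i - (d + 2), by omega⟩
      have h1 : G (d + 2 + j) = Z j * (φ₁ (C (eO j)) * φ₁ (X (Fin.last d).castSucc)) := by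
        rw [hZz, hθC, hT, ← hGT, div_mul_cancel₀ _ (hden j)]
      rw [h1]
      exact (hZalg j).mul ((hall _).mul (hall _))
  have halg3 : ∀ i, ∃ q : Polynomial (MvPolynomial (Fin d') (OO Y)), q ≠ 0 ∧
      q.eval₂ ((evu Y hφ (bs (N := d + 2))).comp
        (rename ι : MvPolynomial (Fin d') (OO Y) →ₐ[OO Y] _).toRingHom)
        (gm W fun x => ((g i x : ℤ) : ℚ)) = 0 := by
    intro i
    obtain ⟨q, h1, h2⟩ := poly_of_alg φ₀ (hGalg i)
    refine ⟨q, ?_, ?_⟩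
    · rintro rfl
      exact h1 (Polynomial.map_zero _)
    · rw [hφ₀, hφ₁, hGd] at h2
      exact h2
  have hb : ∀ i, ∀ᶠ ν in (Uf : Filter ℕ), ∀ t ∈ Om ν, (g i (ν, t)) ^ 2 ≤ (Y ν : ℤ) := by
    intro i
    by_cases hi : i < d + 2
    · filter_upwards [htb₀, hsub] with ν h1 h2 t ht
      have h3 := hg ⟨i, hi⟩ ν t
      rw [show ((⟨i, hi⟩ : Fin (d + 2)) : ℕ) = i from rfl] at h3
      rw [h3]
      exact h1 t (h2 ht) _
    · obtain ⟨j, rfl⟩ : ∃ j, i = d + 2 + j := ⟨i - (d + 2), by omega⟩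
      filter_upwards [hzb₀ j, hsub] with ν h1 h2 t ht
      rw [hgz]
      exact h1 t (h2 ht)
  have hrel := hD Y (d + 2) Om W hφ hY hG hm hW g hg hb ι hind halg3
  obtain ⟨k, hk, hrat⟩ := absB (O := OO Y) (L := LL W) θ hθinj (D := D) G
    (fun b => ((ι b : Fin (d + 2)) : ℕ)) (by
      intro P hP
      apply hinj₀
      rw [map_zero, ← hP]
      have h1 : φ₀ = eval₂Hom θ (fun b => G ((ι b : Fin (d + 2)) : ℕ)) := by
        refine MvPolynomial.ringHom_ext (fun c => ?_) (fun j => ?_)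
        · rw [hφ₀, RingHom.comp_apply, coe_eval₂Hom, eval₂_C]
          show φ₁ (rename ι (C c)) = _
          rw [rename_C, hθC]
        · rw [hφ₀, RingHom.comp_apply, coe_eval₂Hom, eval₂_X]
          show φ₁ (rename ι (X j)) = _
          rw [rename_X, hT, hGT]
      rw [h1]) (by
      intro n b
      obtain ⟨c, hc0, hc1⟩ := hrel n b
      refine ⟨c, hc0, ?_⟩
      rw [← hc1]
      refine Finset.sum_congr rfl fun e1 _ => ?_
      simp only [hGd, hθ]
      rfl) hd f hfdeg (by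
      intro i
      by_cases hi : i < d + 1
      · have h1 := hfcoeff ⟨i, hi⟩
        rw [show ((⟨i, hi⟩ : Fin (d + 1)) : ℕ) = i from rfl] at h1
        rw [h1]
        exact div_mem (Subfield.subset_closure (Or.inr ⟨_, rfl⟩))
          (Subfield.subset_closure (Or.inr ⟨_, rfl⟩))
      · rw [Polynomial.coeff_eq_zero_of_natDegree_lt (by omega)]
        exact zero_mem _) Z (by
      intro i j hij
      by_contra hne'
      rw [hZd, hZd] at hij
      exact gm_ne (toW (hne₀ i j hne')) hij) (by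
      intro i
      rw [hZz]
      exact div_mem (Subfield.subset_closure (Or.inr ⟨_, rfl⟩)) (mul_mem
        (Subfield.subset_closure (Or.inl ⟨_, rfl⟩)) (Subfield.subset_closure (Or.inr ⟨_, rfl⟩))))
      (by
      intro i
      refine ⟨pO i, eO i, ?_, hvalZ i⟩
      intro h
      exact hE i (by rw [h, map_zero]))
  -- few values
  have hfew : ∀ j : Fin d, ∃ n : ℕ, ∃ A ∈ W, ∀ᶠ ν in (Uf : Filter ℕ), ∃ R : Finset ℚ, R.card ≤ n ∧
      ∀ t, (ν, t) ∈ A → (xx e z (k ((j : ℕ) + 1)) (ν, t) - xx e z (k 0) (ν, t)) /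
        (xx e z (k 1) (ν, t) - xx e z (k 0) (ν, t)) ∈ R := by
    intro j
    obtain ⟨q, hq0, hq⟩ := hrat ((j : ℕ) + 1) 0 1 0 (by omega) (by omega)
    rw [hZd, hZd, hZd, ← gm_sub, ← gm_sub, ← gm_div, hθ] at hq
    exact ⟨_, few_LL hφ hq0 hq⟩
  choose n A hA hR using hfew
  obtain ⟨K, hK⟩ : ∃ K, ∀ j, n j ≤ K :=
    ⟨∑ j, n j, fun j => Finset.single_le_sum (fun _ _ => Nat.zero_le _) (Finset.mem_univ j)⟩
  have hAA : (⋂ j, A j) ∈ W := (Filter.iInter_mem).2 hA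
  obtain ⟨kk, hkk⟩ := hW _ hAA
  have hall1 : ∀ᶠ ν in (Uf : Filter ℕ), ∀ i : Fin (d + 1), ∀ t ∈ Om₀ ν,
      (pol t).eval (xx e z (k i) (ν, t)) = (p (k i) ν : ℚ) / (e (k i) ν : ℚ) :=
    Filter.eventually_all.2 fun i => hval₀ (k i)
  have hall2 : ∀ᶠ ν in (Uf : Filter ℕ), ∀ i j : Fin (d + 1), i ≠ j → ∀ t ∈ Om₀ ν,
      xx e z (k i) (ν, t) ≠ xx e z (k j) (ν, t) := by
    refine Filter.eventually_all.2 fun i => Filter.eventually_all.2 fun j => ?_
    by_cases hij : i = j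
    · exact Filter.Eventually.of_forall fun ν h => absurd hij h
    · filter_upwards [hne₀ (k i) (k j) (fun h => hij (Fin.ext (hk.injective h)))] with ν h _
      exact h
  filter_upwards [hsub, hkk, Big.card_large hY hG.1 (kk * K ^ d), Filter.eventually_all.2 hR,
    hall1, hall2] with ν h1 h2 h3 h4 h5 h6
  choose R hR1 hR2 using h4
  have h7 : K ^ d < (slc Om (⋂ j, A j) ν).card := by
    by_contra hcon
    push Not at hcon
    have := Nat.mul_le_mul_left kk hcon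
    omega
  have h8 : (Fintype.piFinset R).card ≤ K ^ d := by
    rw [Fintype.card_piFinset]
    calc ∏ i, (R i).card ≤ ∏ _i : Fin d, K :=
          Finset.prod_le_prod (fun _ _ => Nat.zero_le _) fun i _ => (hR1 i).trans (hK i)
      _ = K ^ d := by rw [Finset.prod_const, Finset.card_univ, Fintype.card_fin]
  obtain ⟨t, ht, t', ht', hne', heq⟩ := Finset.exists_ne_map_eq_of_card_lt_of_maps_to
    (lt_of_le_of_lt h8 h7) (f := fun t => fun j : Fin d =>
      (xx e z (k ((j : ℕ) + 1)) (ν, t) - xx e z (k 0) (ν, t)) /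
        (xx e z (k 1) (ν, t) - xx e z (k 0) (ν, t))) (by
      intro t ht
      rw [Finset.mem_coe, Fintype.mem_piFinset]
      intro j
      have h9 := (mem_slc.1 (Finset.mem_coe.1 ht)).2
      exact hR2 j t (Set.mem_iInter.1 h9 j))
  have ht1 := h1 (mem_slc.1 ht).1
  have ht1' := h1 (mem_slc.1 ht').1
  refine ⟨t, ht1, t', ht1', hne', ?_⟩
  refine aff_of_points hd (pol_natDegree t) (pol_natDegree t') (fun j => xx e z (k j) (ν, t))
    (fun j => xx e z (k j) (ν, t')) (fun j => (p (k j) ν : ℚ) / (e (k j) ν : ℚ)) ?_ ?_ ?_ ?_ ?_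
  · intro j hj
    exact h5 ⟨j, by omega⟩ t ht1
  · intro j hj
    exact h5 ⟨j, by omega⟩ t' ht1'
  · intro i j hi hj hij
    exact h6 ⟨i, by omega⟩ ⟨j, by omega⟩ (fun h => hij (congrArg Fin.val h)) t ht1
  · intro i j hi hj hij
    exact h6 ⟨i, by omega⟩ ⟨j, by omega⟩ (fun h => hij (congrArg Fin.val h)) t' ht1'
  · intro j hj
    have := congrFun heq ⟨j, hj⟩
    exact this

end Pool.Agent.R323.SE
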