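import Pool.Agent.R323.SE.Q

/-!
# Multiples of perfect powers are almost full
-/

set_option autoImplicit false

namespace Pool.Agent.R323.SE

theorem full_of_eq {a b c₁ c₂ u v n p : ℕ} (hp : p.Prime) (h : a * (c₂ * v ^ n) = c₁ * u ^ n * b)
    (hab : Nat.Coprime a b) (huv : Nat.Coprime u v) (h1 : ¬ p ∣ c₁) (h2 : ¬ p ∣ c₂)
    (hpd : p ∣ a * b) : p ^ n ∣ a * b := by
  rcases (hp.dvd_mul).1 hpd with hpa | hpb
  · have h3 : ¬ p ∣ b := fun hb => hp.one_lt.ne' (Nat.dvd_one.1 (hab ▸ Nat.dvd_gcd hpa hb))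
    have h4 : p ∣ c₁ * u ^ n * b := h ▸ hpa.mul_right _
    have h5 : p ∣ u := by
      rcases (hp.dvd_mul).1 h4 with h6 | h6
      · rcases (hp.dvd_mul).1 h6 with h7 | h7
        · exact absurd h7 h1
        · exact hp.dvd_of_dvd_pow h7
      · exact absurd h6 h3
    have h6 : ¬ p ∣ v := fun hv => hp.one_lt.ne' (Nat.dvd_one.1 (huv ▸ Nat.dvd_gcd h5 hv))
    have h7 : p ^ n ∣ a * (c₂ * v ^ n) := by
      rw [h]
      exact ((pow_dvd_pow_of_dvd h5 n).mul_left _).mul_right _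
    have h8 : Nat.Coprime (p ^ n) (c₂ * v ^ n) := by
      refine Nat.Coprime.pow_left _ ((Nat.coprime_mul_iff_right).2 ⟨?_, ?_⟩)
      · exact (hp.coprime_iff_not_dvd).2 h2
      · exact Nat.Coprime.pow_right _ ((hp.coprime_iff_not_dvd).2 h6)
    exact (h8.dvd_of_dvd_mul_right h7).mul_right _
  · have h3 : ¬ p ∣ a := fun ha => hp.one_lt.ne' (Nat.dvd_one.1 (hab ▸ Nat.dvd_gcd ha hpb))
    have h4 : p ∣ a * (c₂ * v ^ n) := h ▸ hpb.mul_left _
    have h5 : p ∣ v := by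
      rcases (hp.dvd_mul).1 h4 with h6 | h6
      · exact absurd h6 h3
      · rcases (hp.dvd_mul).1 h6 with h7 | h7
        · exact absurd h7 h2
        · exact hp.dvd_of_dvd_pow h7
    have h6 : ¬ p ∣ u := fun hu => hp.one_lt.ne' (Nat.dvd_one.1 (huv ▸ Nat.dvd_gcd hu h5))
    have h7 : p ^ n ∣ c₁ * u ^ n * b := by
      rw [← h]
      exact ((pow_dvd_pow_of_dvd h5 n).mul_left _).mul_left _
    have h8 : Nat.Coprime (p ^ n) (c₁ * u ^ n) := by
      refine Nat.Coprime.pow_left _ ((Nat.coprime_mul_iff_right).2 ⟨?_, ?_⟩)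
      · exact (hp.coprime_iff_not_dvd).2 h1
      · exact Nat.Coprime.pow_right _ ((hp.coprime_iff_not_dvd).2 h6)
    exact (h8.dvd_of_dvd_mul_left h7).mul_left _

theorem full_of_power {c y : ℚ} {n p : ℕ} (hp : p.Prime) (hc : c ≠ 0)
    (h : p ∉ (c.num.natAbs * c.den).primeFactors) : FullAt n p (c * y ^ n) := by
  intro hpd
  have hcn : c.num.natAbs * c.den ≠ 0 :=
    mul_ne_zero (Int.natAbs_ne_zero.2 (Rat.num_ne_zero.2 hc)) c.den_ne_zero
  have h1 : ¬ p ∣ c.num.natAbs * c.den := fun hd => h (Nat.mem_primeFactors.2 ⟨hp, hd, hcn⟩)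
  refine full_of_eq (c₁ := c.num.natAbs) (c₂ := c.den) (u := y.num.natAbs) (v := y.den) hp ?_
    (c * y ^ n).reduced y.reduced (fun hd => h1 (hd.mul_right _)) (fun hd => h1 (hd.mul_left _)) hpd
  have h2 : (c * y ^ n).num * ((c.den : ℤ) * (y.den : ℤ) ^ n) =
      c.num * y.num ^ n * ((c * y ^ n).den : ℤ) := by
    have e1 : (((c * y ^ n).num : ℤ) : ℚ) = (c * y ^ n) * ((c * y ^ n).den : ℚ) :=
      (Rat.mul_den_eq_num _).symm
    have e2 : ((c.num : ℤ) : ℚ) = c * (c.den : ℚ) := (Rat.mul_den_eq_num _).symm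
    have e3 : ((y.num : ℤ) : ℚ) = y * (y.den : ℚ) := (Rat.mul_den_eq_num _).symm
    have : (((c * y ^ n).num * ((c.den : ℤ) * (y.den : ℤ) ^ n) : ℤ) : ℚ) =
        ((c.num * y.num ^ n * ((c * y ^ n).den : ℤ) : ℤ) : ℚ) := by
      push_cast
      rw [e1, e2, e3]
      ring
    exact_mod_cast this
  have h3 := congrArg Int.natAbs h2
  simpa only [Int.natAbs_mul, Int.natAbs_pow, Int.natAbs_natCast] using h3

end Pool.Agent.R323.SE
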