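import Pool.Agent.R323.FN2

/-!
# Sequences on which a polynomial is constant
-/

set_option autoImplicit false

namespace Pool.Agent.R323.SE

open Pool.Agent.H951R3.PB Pool.Agent.TH450.PC Pool.Agent.TH450.FG Real Finset Filter Topology
open Pool.Agent.R323

universe u v w

section pf

variable {k : Type v} {K : Type u} [Field k] [Field K] [Algebra k K]

/-- two points are close at `v` -/
def Cl (V : AbsoluteValue K ℝ) (a : K) (d : ℕ) (z z' : K) : Prop := V (z - z') ^ d * V a ≤ 1

theorem Cl.symm {V : AbsoluteValue K ℝ} {a : K} {d : ℕ} {z z' : K} (h : Cl V a d z z') :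
    Cl V a d z' z := by
  unfold Cl at *
  rwa [V.map_sub]

theorem Cl.refl (V : AbsoluteValue K ℝ) (a : K) {d : ℕ} (hd : 1 ≤ d) (z : K) : Cl V a d z z := by
  unfold Cl
  rw [sub_self, map_zero, zero_pow (by omega), zero_mul]
  exact zero_le_one

theorem Cl.trans {V : AbsoluteValue K ℝ} (hna : IsNonarchimedean V) {a : K} {d : ℕ} {z z' z'' : K}
    (h : Cl V a d z z') (h' : Cl V a d z' z'') : Cl V a d z z'' := by
  unfold Cl at *
  have h1 : V (z - z'') ≤ max (V (z - z')) (V (z' - z'')) := by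
    have := hna (z - z') (z' - z'')
    rwa [sub_add_sub_cancel] at this
  rcases le_max_iff.1 h1 with h2 | h2
  · exact (mul_le_mul_of_nonneg_right (pow_le_pow_left₀ (V.nonneg _) h2 d) (V.nonneg _)).trans h
  · exact (mul_le_mul_of_nonneg_right (pow_le_pow_left₀ (V.nonneg _) h2 d) (V.nonneg _)).trans h'

/-- among `d + 1` points with integral values two are close -/
theorem exists_close {V : AbsoluteValue K ℝ} (hna : IsNonarchimedean V) {d : ℕ} (hd : 1 ≤ d)
    {f : Polynomial K} (hf : f.natDegree = d) (x : ℕ → K) (hx : Function.Injective x)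
    (hc : ∀ n, V (f.eval (x n)) ≤ 1) (s : Finset ℕ) (hs : s.card = d + 1) :
    ∃ i ∈ s, ∃ j ∈ s, i ≠ j ∧ Cl V f.leadingCoeff d (x i) (x j) := by
  classical
  have hf0 : f ≠ 0 := by
    rintro rfl
    rw [Polynomial.natDegree_zero] at hf
    omega
  have h1 := Lagrange.coeff_eq_sum (s := s) (v := x) hx.injOn (P := f) (by
    rw [Polynomial.degree_eq_natDegree hf0, hf, hs]
    exact_mod_cast Nat.lt_succ_self d)
  have h2 : f.coeff (s.card - 1) = f.leadingCoeff := by
    rw [hs, Nat.add_sub_cancel, ← hf, Polynomial.coeff_natDegree]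
  rw [h2] at h1
  by_contra hcon
  push Not at hcon
  have ha : 0 < V f.leadingCoeff := (V.pos_iff).2 (Polynomial.leadingCoeff_ne_zero.2 hf0)
  obtain ⟨q, hq⟩ : ∃ q : ℝ, q = V f.leadingCoeff := ⟨_, rfl⟩
  rw [← hq] at ha
  have h3 : ∀ i ∈ s, V (f.eval (x i) / ∏ j ∈ s.erase i, (x i - x j)) < q := by
    intro i hi
    rw [map_div₀, map_prod]
    have h4 : 0 < ∏ j ∈ s.erase i, V (x i - x j) := by
      refine Finset.prod_pos fun j hj => (V.pos_iff).2 ?_
      rw [sub_ne_zero]
      exact fun h => (Finset.mem_erase.1 hj).1 (hx h).symm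
    rw [div_lt_iff₀ h4]
    refine (hc i).trans_lt ?_
    have hcard : (s.erase i).card = d := by rw [Finset.card_erase_of_mem hi, hs]; rfl
    -- product of the d-th powers
    have h5 : 1 < ∏ j ∈ s.erase i, (V (x i - x j) ^ d * q) := by
      have hne : (s.erase i).Nonempty := by
        rw [← Finset.card_pos, hcard]; omega
      have h6 : ∀ j ∈ s.erase i, 1 < V (x i - x j) ^ d * q := by
        intro j hj
        have := hcon i hi j (Finset.mem_erase.1 hj).2 (fun h => (Finset.mem_erase.1 hj).1 h.symm)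
        unfold Cl at this
        rw [not_le] at this
        rw [hq]
        exact this
      obtain ⟨j₀, hj₀⟩ := hne
      have h7 := Finset.prod_lt_prod_of_nonempty (s := s.erase i) (f := fun _ => (1 : ℝ))
        (g := fun j => V (x i - x j) ^ d * q) (fun _ _ => zero_lt_one) h6 ⟨j₀, hj₀⟩
      rwa [Finset.prod_const_one] at h7
    rw [Finset.prod_mul_distrib, Finset.prod_const, hcard, Finset.prod_pow, ← mul_pow] at h5
    have h8 : 1 < (∏ j ∈ s.erase i, V (x i - x j)) * q := by
      by_contra hle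
      push Not at hle
      have := pow_le_one₀ (n := d) (mul_nonneg h4.le ha.le) hle
      linarith
    rw [mul_comm]
    exact h8
  have h4 : V f.leadingCoeff < q := by
    rw [h1]
    have hsne : s.Nonempty := by rw [← Finset.card_pos, hs]; omega
    obtain ⟨i₀, hi₀, hmax⟩ := Finset.exists_max_image s
      (fun i => V (f.eval (x i) / ∏ j ∈ s.erase i, (x i - x j))) hsne
    exact (na_sum_le hna s _ (V.nonneg _) hmax).trans_lt (h3 i₀ hi₀)
  rw [hq] at h4
  exact lt_irrefl _ h4

/-- finitely many representatives -/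
theorem exists_reps {V : AbsoluteValue K ℝ} (hna : IsNonarchimedean V) {d : ℕ} (hd : 1 ≤ d)
    {f : Polynomial K} (hf : f.natDegree = d) (x : ℕ → K) (hx : Function.Injective x)
    (hc : ∀ n, V (f.eval (x n)) ≤ 1) :
    ∃ M : Finset ℕ, ∀ n, ∃ m ∈ M, Cl V f.leadingCoeff d (x n) (x m) := by
  classical
  by_contra hcon
  push Not at hcon
  have key : ∀ k : ℕ, ∃ s : Finset ℕ, s.card = k ∧ ∀ i ∈ s, ∀ j ∈ s, i ≠ j →
      ¬ Cl V f.leadingCoeff d (x i) (x j) := by
    intro k
    induction k with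
    | zero => exact ⟨∅, rfl, by simp⟩
    | succ k ih =>
      obtain ⟨s, hs, hs2⟩ := ih
      obtain ⟨n, hn⟩ := hcon s
      have hns : n ∉ s := fun h => hn n h (Cl.refl V _ hd _)
      refine ⟨insert n s, by rw [Finset.card_insert_of_notMem hns, hs], ?_⟩
      intro i hi j hj hij
      rcases Finset.mem_insert.1 hi with rfl | hi'
      · rcases Finset.mem_insert.1 hj with rfl | hj'
        · exact absurd rfl hij
        · exact hn j hj'
      · rcases Finset.mem_insert.1 hj with rfl | hj'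
        · exact fun h => hn i hi' h.symm
        · exact hs2 i hi' j hj' hij
  obtain ⟨s, hs, hs2⟩ := key (d + 1)
  obtain ⟨i, hi, j, hj, hij, h⟩ := exists_close hna hd hf x hx hc s hs
  exact hs2 i hi j hj hij h

/-- bounded points at good places -/
theorem good_le {V : AbsoluteValue K ℝ} (hna : IsNonarchimedean V) {d : ℕ} (hd : 1 ≤ d)
    {f : Polynomial K} (hf : f.natDegree = d) (h1 : ∀ i, V (f.coeff i) ≤ 1)
    (h2 : V f.leadingCoeff = 1) {z : K} (hz : V (f.eval z) ≤ 1) : V z ≤ 1 := by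
  by_contra hcon
  push Not at hcon
  have e1 : f.eval z = (∑ i ∈ Finset.range d, f.coeff i * z ^ i) + f.leadingCoeff * z ^ d := by
    rw [Polynomial.eval_eq_sum_range, hf, Finset.sum_range_succ, Polynomial.leadingCoeff, hf]
  have e2 : V (∑ i ∈ Finset.range d, f.coeff i * z ^ i) ≤ V z ^ (d - 1) := by
    refine na_sum_le hna _ _ (pow_nonneg (V.nonneg _) _) fun i hi => ?_
    rw [map_mul, map_pow]
    calc V (f.coeff i) * V z ^ i ≤ 1 * V z ^ i :=
          mul_le_mul_of_nonneg_right (h1 i) (pow_nonneg (V.nonneg _) _)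
      _ = V z ^ i := one_mul _
      _ ≤ V z ^ (d - 1) := pow_le_pow_right₀ hcon.le (by have := Finset.mem_range.1 hi; omega)
  have e3 : V (f.leadingCoeff * z ^ d) = V z ^ d := by rw [map_mul, map_pow, h2, one_mul]
  have e4 : V (f.leadingCoeff * z ^ d) ≤ max (V (f.eval z))
      (V (∑ i ∈ Finset.range d, f.coeff i * z ^ i)) := by
    have h3 := hna (f.eval z) (-(∑ i ∈ Finset.range d, f.coeff i * z ^ i))
    rw [V.map_neg] at h3
    have h4 : f.eval z + -(∑ i ∈ Finset.range d, f.coeff i * z ^ i) = f.leadingCoeff * z ^ d := by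
      rw [e1]; ring
    rwa [h4] at h3
  rw [e3] at e4
  have h5 : V z ^ (d - 1) < V z ^ d := pow_lt_pow_right₀ hcon (by omega)
  have h6 : (1 : ℝ) ≤ V z ^ (d - 1) := one_le_pow₀ hcon.le
  rcases le_max_iff.1 e4 with h | h
  · linarith
  · linarith

/-- **Sequences of constant values.** -/
theorem seq_const (Q : PF.{u, v, w} k K) {d : ℕ} (hd : 1 ≤ d) {f : Polynomial K}
    (hf : f.natDegree = d) (x : ℕ → K) (hx : Function.Injective x)
    (hc : ∀ n, ∃ c : k, f.eval (x n) = algebraMap k K c) :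
    ∃ g : ℕ → ℕ, StrictMono g ∧ ∀ i j l m, i ≠ j → l ≠ m →
      IsAlgebraic k ((x (g i) - x (g j)) / (x (g l) - x (g m))) := by
  classical
  have hf0 : f ≠ 0 := by
    rintro rfl
    rw [Polynomial.natDegree_zero] at hf
    omega
  have ha : f.leadingCoeff ≠ 0 := Polynomial.leadingCoeff_ne_zero.2 hf0
  have hcv : ∀ v n, Q.V v (f.eval (x n)) ≤ 1 := by
    intro v n
    obtain ⟨c, hc'⟩ := hc n
    rw [hc']
    by_cases h : c = 0
    · rw [h]; simp
    · exact (Q.triv v c h).le
  -- bad places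
  have hfin : ∀ z : K, ∃ T : Finset Q.Pl, ∀ v, v ∉ T → z = 0 ∨ Q.V v z = 1 := by
    intro z
    by_cases hz : z = 0
    · exact ⟨∅, fun _ _ => Or.inl hz⟩
    · refine ⟨(Q.fin z hz).toFinset, fun v hv => Or.inr ?_⟩
      by_contra hne
      exact hv (by simpa using hne)
  choose T hT using hfin
  obtain ⟨S₀, hS₀⟩ : ∃ S₀ : Finset Q.Pl, S₀ = (Finset.range (d + 1)).biUnion fun i => T (f.coeff i) :=
    ⟨_, rfl⟩
  have hgood : ∀ v, v ∉ S₀ → (∀ i, Q.V v (f.coeff i) ≤ 1) ∧ Q.V v f.leadingCoeff = 1 := by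
    intro v hv
    have h1 : ∀ i, i ≤ d → (f.coeff i = 0 ∨ Q.V v (f.coeff i) = 1) := by
      intro i hi
      refine hT _ v fun h => hv ?_
      rw [hS₀]
      exact Finset.mem_biUnion.2 ⟨i, Finset.mem_range.2 (by omega), h⟩
    refine ⟨fun i => ?_, ?_⟩
    · by_cases hi : i ≤ d
      · rcases h1 i hi with h | h
        · rw [h]; simp
        · exact h.le
      · rw [Polynomial.coeff_eq_zero_of_natDegree_lt (by omega)]; simp
    · rcases h1 d le_rfl with h | h
      · exact absurd (by rw [Polynomial.leadingCoeff, hf]; exact h) ha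
      · rw [Polynomial.leadingCoeff, hf]; exact h
  choose M hM using fun v => exists_reps (Q.na v) hd hf x hx (hcv v)
  choose m hm1 hm2 using hM
  -- colouring
  let col : ℕ → (S₀ → ℕ) := fun n v => m v.1 n
  have hcolfin : (Set.range col).Finite := by
    refine Set.Finite.subset (Set.Finite.pi' (t := fun v : S₀ => ((M v.1 : Finset ℕ) : Set ℕ))
      fun v => (M v.1).finite_toSet) ?_
    rintro _ ⟨n, rfl⟩
    intro v
    exact hm1 v.1 n
  obtain ⟨c, hcinf⟩ : ∃ c, (col ⁻¹' {c}).Infinite := by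
    by_contra hcon
    push Not at hcon
    have h1 : (Set.univ : Set ℕ) = ⋃ c ∈ Set.range col, col ⁻¹' {c} := by
      ext n
      simp
    have h2 : (Set.univ : Set ℕ).Finite := by
      rw [h1]
      exact hcolfin.biUnion fun c _ => hcon c
    exact Set.infinite_univ h2
  refine ⟨Nat.nth (col ⁻¹' {c}), Nat.nth_strictMono hcinf, ?_⟩
  obtain ⟨g, hg⟩ : ∃ g, g = Nat.nth (col ⁻¹' {c}) := ⟨_, rfl⟩
  rw [← hg]
  have hginj : Function.Injective g := by rw [hg]; exact (Nat.nth_strictMono hcinf).injective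
  have hgc : ∀ n, col (g n) = c := by
    intro n
    rw [hg]
    exact Nat.nth_mem_of_infinite hcinf n
  have hclose : ∀ v i j, Cl (Q.V v) f.leadingCoeff d (x (g i)) (x (g j)) := by
    intro v i j
    by_cases hv : v ∈ S₀
    · have h1 := hm2 v (g i)
      have h2 := hm2 v (g j)
      have h3 : m v (g i) = m v (g j) := by
        have a1 := congrFun (hgc i) ⟨v, hv⟩
        have a2 := congrFun (hgc j) ⟨v, hv⟩
        exact a1.trans a2.symm
      rw [h3] at h1
      exact h1.trans (Q.na v) h2.symm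
    · obtain ⟨h1, h2⟩ := hgood v hv
      unfold Cl
      rw [h2, mul_one]
      refine pow_le_one₀ ((Q.V v).nonneg _) ?_
      have h3 := good_le (Q.na v) hd hf h1 h2 (hcv v (g i))
      have h4 := good_le (Q.na v) hd hf h1 h2 (hcv v (g j))
      have h5 := Q.na v (x (g i)) (-(x (g j)))
      rw [← sub_eq_add_neg, (Q.V v).map_neg] at h5
      exact h5.trans (max_le h3 h4)
  have heq : ∀ i j, i ≠ j → ∀ v, Q.V v (x (g i) - x (g j)) ^ d * Q.V v f.leadingCoeff = 1 := by
    intro i j hij v₀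
    have hne : x (g i) - x (g j) ≠ 0 := by
      rw [sub_ne_zero]
      exact fun h => hij (hginj (hx h))
    obtain ⟨T1, hT1⟩ := sum_log Q ((x (g i) - x (g j)) ^ d * f.leadingCoeff)
      (mul_ne_zero (pow_ne_zero _ hne) ha)
    have h1 := hT1 (T1 ∪ {v₀}) Finset.subset_union_left
    have h2 : ∀ v ∈ T1 ∪ {v₀}, Q.wt v * log (Q.V v ((x (g i) - x (g j)) ^ d * f.leadingCoeff)) ≤ 0 := by
      intro v _
      refine mul_nonpos_of_nonneg_of_nonpos (Q.wt_pos v).le (log_nonpos ((Q.V v).nonneg _) ?_)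
      rw [map_mul, map_pow]
      exact hclose v i j
    have h3 := (Finset.sum_eq_zero_iff_of_nonpos h2).1 h1 v₀
      (Finset.mem_union_right _ (Finset.mem_singleton_self _))
    have h4 : log (Q.V v₀ ((x (g i) - x (g j)) ^ d * f.leadingCoeff)) = 0 :=
      (mul_eq_zero.1 h3).resolve_left (Q.wt_pos v₀).ne'
    have h5 : 0 < Q.V v₀ ((x (g i) - x (g j)) ^ d * f.leadingCoeff) :=
      ((Q.V v₀).pos_iff).2 (mul_ne_zero (pow_ne_zero _ hne) ha)
    have h6 := Real.eq_one_of_pos_of_log_eq_zero h5 h4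
    rwa [map_mul, map_pow] at h6
  intro i j l m' hij hlm
  have hne : ∀ i j, i ≠ j → x (g i) - x (g j) ≠ 0 := fun i j hij => by
    rw [sub_ne_zero]
    exact fun h => hij (hginj (hx h))
  refine Q.const _ (div_ne_zero (hne i j hij) (hne l m' hlm)) fun v => ?_
  have h1 := heq i j hij v
  have h2 := heq l m' hlm v
  have hapos : 0 < Q.V v f.leadingCoeff := ((Q.V v).pos_iff).2 ha
  have h3 : Q.V v (x (g i) - x (g j)) ^ d = Q.V v (x (g l) - x (g m')) ^ d :=
    mul_right_cancel₀ hapos.ne' (h1.trans h2.symm)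
  have h4 : Q.V v (x (g i) - x (g j)) = Q.V v (x (g l) - x (g m')) :=
    (pow_left_inj₀ ((Q.V v).nonneg _) ((Q.V v).nonneg _) (by omega)).1 h3
  rw [map_div₀, h4, div_self]
  exact ((Q.V v).ne_zero_iff).2 (hne l m' hlm)

end pf

section alg

variable {K₀ : Type v} {K : Type u} [Field K₀] [Field K] [Algebra K₀ K]

/-- **Sequences of constant values, any transcendence degree.** -/
theorem seq_alg {N r : ℕ} (x : Fin N → K) (ι : Fin r → Fin N) (hr : 0 < r)
    (hind : AlgebraicIndependent K₀ (fun b => x (ι b)))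
    (htop : IntermediateField.adjoin K₀ (Set.range x) = ⊤)
    (halg : ∀ j, IsAlgebraic (IntermediateField.adjoin K₀ (Set.range fun b => x (ι b))) (x j))
    {d : ℕ} (hd : 1 ≤ d) {f : Polynomial K} (hf : f.natDegree = d) (X : ℕ → K)
    (hX : Function.Injective X) (hc : ∀ n, ∃ c : K₀, f.eval (X n) = algebraMap K₀ K c) :
    ∃ g : ℕ → ℕ, StrictMono g ∧ ∀ i j l m, i ≠ j → l ≠ m →
      IsAlgebraic K₀ ((X (g i) - X (g j)) / (X (g l) - X (g m))) := by
  classical
  set Bs : Set K := Set.range fun b => x (ι b) with hBs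
  have hinj : Function.Injective fun b => x (ι b) := hind.injective
  have hB : AlgebraicIndependent K₀ ((↑) : Bs → K) := hind.coe_range
  have hne : Bs.Nonempty := ⟨_, ⟨⟨0, hr⟩, rfl⟩⟩
  -- one coordinate after the other
  have key : ∀ s : Finset (Fin r), ∃ g : ℕ → ℕ, StrictMono g ∧ ∀ b ∈ s, ∀ i j l m, i ≠ j → l ≠ m →
      IsAlgebraic (IntermediateField.adjoin K₀ (Bs \ {x (ι b)}))
        ((X (g i) - X (g j)) / (X (g l) - X (g m))) := by
    intro s
    induction s using Finset.induction_on with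
    | empty => exact ⟨id, strictMono_id, by simp⟩
    | insert b₀ s hb₀ ih =>
      obtain ⟨g, hg, h⟩ := ih
      obtain ⟨g1, g2, -⟩ := Pool.Agent.Z864.UB.sub_data (k := K₀) (K := K) (B := Bs)
        (S := Set.range x) (T := ∅) (b := x (ι b₀)) hB ⟨b₀, rfl⟩ (Set.finite_range x) (by
          rw [eq_top_iff, ← htop]
          exact IntermediateField.adjoin.mono _ _ _ Set.subset_union_right) (by
          rintro _ ⟨j, rfl⟩
          rw [Pool.Agent.Z864.UB.mem_cl]
          exact halg j) (Set.empty_subset _)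
      rw [Set.union_empty] at g1 g2
      obtain ⟨Q⟩ := exists_PF (IntermediateField.adjoin K₀ (Bs \ {x (ι b₀)})) K g1 g2
      obtain ⟨g', hg', h'⟩ := seq_const Q hd hf (fun n => X (g n)) (hX.comp hg.injective) (by
        intro n
        obtain ⟨c, hc'⟩ := hc (g n)
        exact ⟨algebraMap K₀ _ c, hc'⟩)
      refine ⟨g ∘ g', hg.comp hg', ?_⟩
      intro b hb i j l m hij hlm
      rcases Finset.mem_insert.1 hb with rfl | hb'
      · exact h' i j l m hij hlm
      · exact h b hb' _ _ _ _ (fun e => hij (hg'.injective e)) (fun e => hlm (hg'.injective e))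
  obtain ⟨g, hg, h⟩ := key Finset.univ
  refine ⟨g, hg, fun i j l m hij hlm => ?_⟩
  refine Pool.Agent.Z864.UB.alg_of_all hB hne ?_
  rintro _ ⟨b₀, rfl⟩
  have h5 := h b₀ (Finset.mem_univ _) i j l m hij hlm
  rw [Pool.Agent.Z864.UB.mem_cl]
  exact h5

end alg

end Pool.Agent.R323.SE
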