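import Pool.Agent.R323.SE.E

/-!
# Polynomials with integer coefficients
-/

set_option autoImplicit false

namespace Pool.Agent.R323.SE

open Filter

/-- the value at `(a, b)` of the homogeneous form of degree `deg g` belonging to `g` -/
def homValue (g : Polynomial ℤ) (a b : ℤ) : ℤ :=
  ∑ i ∈ Finset.range (g.natDegree + 1), g.coeff i * a ^ i * b ^ (g.natDegree - i)

theorem homValue_eq (g : Polynomial ℤ) (a : ℤ) {b : ℤ} (hb : b ≠ 0) :
    ((homValue g a b : ℤ) : ℚ) =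
      (b : ℚ) ^ g.natDegree * (g.map (Int.castRingHom ℚ)).eval ((a : ℚ) / (b : ℚ)) := by
  have hbQ : (b : ℚ) ≠ 0 := by exact_mod_cast hb
  rw [Polynomial.eval_map, Polynomial.eval₂_eq_sum_range, Finset.mul_sum, homValue]
  push_cast
  refine Finset.sum_congr rfl fun i hi => ?_
  have hi' : i ≤ g.natDegree := by
    have := Finset.mem_range.1 hi
    omega
  have e1 : (b : ℚ) ^ g.natDegree = (b : ℚ) ^ i * (b : ℚ) ^ (g.natDegree - i) := by
    rw [← pow_add]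
    congr 1
    omega
  rw [e1, div_pow, eq_intCast]
  field_simp

theorem homValue_mul {f g : Polynomial ℤ} (hf : f ≠ 0) (hg : g ≠ 0) (a : ℤ) {b : ℤ} (hb : b ≠ 0) :
    homValue (f * g) a b = homValue f a b * homValue g a b := by
  have : ((homValue (f * g) a b : ℤ) : ℚ) = ((homValue f a b * homValue g a b : ℤ) : ℚ) := by
    push_cast
    rw [homValue_eq _ _ hb, homValue_eq _ _ hb, homValue_eq _ _ hb, Polynomial.natDegree_mul hf hg,
      Polynomial.map_mul, Polynomial.eval_mul]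
    ring
  exact_mod_cast this

theorem homValue_one (a b : ℤ) : homValue 1 a b = 1 := by
  unfold homValue
  simp

theorem homValue_dvd {f g : Polynomial ℤ} (hf : f ≠ 0) (h : g ∣ f) (a : ℤ) {b : ℤ} (hb : b ≠ 0) :
    homValue g a b ∣ homValue f a b := by
  obtain ⟨k, rfl⟩ := h
  have hg : g ≠ 0 := fun h0 => hf (by rw [h0, zero_mul])
  have hk : k ≠ 0 := fun h0 => hf (by rw [h0, mul_zero])
  rw [homValue_mul hg hk _ hb]
  exact Dvd.intro _ rfl

theorem homValue_unit {u : Polynomial ℤ} (hu : IsUnit u) (a : ℤ) {b : ℤ} (hb : b ≠ 0) :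
    IsUnit (homValue u a b) := by
  obtain ⟨v, hv⟩ := hu.exists_right_inv
  have hu0 : u ≠ 0 := hu.ne_zero
  have hv0 : v ≠ 0 := fun h0 => by
    rw [h0, mul_zero] at hv
    exact zero_ne_one hv
  refine IsUnit.of_mul_eq_one (homValue v a b) ?_
  rw [← homValue_mul hu0 hv0 _ hb, hv, homValue_one]

theorem exists_factor {p : ℕ} (hp : p.Prime) (a : ℤ) {b : ℤ} (hb : b ≠ 0) (f : Polynomial ℤ)
    (hf : f ≠ 0) (h : (p : ℤ) ∣ homValue f a b) :
    ∃ g : Polynomial ℤ, Irreducible g ∧ g ∣ f ∧ (p : ℤ) ∣ homValue g a b := by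
  have hp' : Prime (p : ℤ) := Nat.prime_iff_prime_int.1 hp
  revert hf h
  refine WfDvdMonoid.induction_on_irreducible f (fun h => absurd rfl h) ?_ ?_
  · intro u hu _ h
    exact absurd (isUnit_of_dvd_unit h (homValue_unit hu a hb)) hp'.not_unit
  · intro k i hk hi ih hik h
    rw [homValue_mul hi.ne_zero hk _ hb] at h
    rcases hp'.dvd_or_dvd h with h1 | h1
    · exact ⟨i, hi, Dvd.intro _ rfl, h1⟩
    · obtain ⟨g, h2, h3, h4⟩ := ih hk h1
      exact ⟨g, h2, h3.mul_left _, h4⟩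

theorem homValue_ne_zero (a : ℤ) {b : ℤ} (hb : b ≠ 0) (f : Polynomial ℤ) (hf : f ≠ 0)
    (h : ∀ g : Polynomial ℤ, Irreducible g → g ∣ f → homValue g a b ≠ 0) :
    homValue f a b ≠ 0 := by
  revert hf h
  refine WfDvdMonoid.induction_on_irreducible f (fun h => absurd rfl h) ?_ ?_
  · intro u hu _ _
    exact (homValue_unit hu a hb).ne_zero
  · intro k i hk hi ih _ h
    rw [homValue_mul hi.ne_zero hk _ hb]
    exact mul_ne_zero (h i hi (Dvd.intro _ rfl)) (ih hk fun g h1 h2 => h g h1 (h2.mul_left _))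

theorem heightLe_map {f : Polynomial ℤ} {Y : ℕ} (hY : 1 ≤ Y) (h : ∀ i, |f.coeff i| ≤ (Y : ℤ)) :
    HeightLe (f.map (Int.castRingHom ℚ)) Y := by
  refine ⟨1, one_ne_zero, by rw [abs_one]; exact_mod_cast hY, fun i => ⟨f.coeff i, h i, ?_⟩⟩
  rw [Polynomial.coeff_map, eq_intCast, Int.cast_one, div_one]

theorem radQ_le {f : Polynomial ℤ} (x : ℚ)
    (hF : homValue f x.num x.den ≠ 0) :
    radQ ((f.map (Int.castRingHom ℚ)).eval x) ≤
      rad ((homValue f x.num x.den).natAbs * x.den) := by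
  classical
  have hb : (x.den : ℤ) ≠ 0 := by exact_mod_cast x.den_ne_zero
  have hbQ : (x.den : ℚ) ≠ 0 := by exact_mod_cast x.den_ne_zero
  obtain ⟨F, hFd⟩ : ∃ F, F = homValue f x.num x.den := ⟨_, rfl⟩
  have h1 : (f.map (Int.castRingHom ℚ)).eval x =
      Rat.divInt F ((x.den : ℤ) ^ f.natDegree) := by
    have h2 := homValue_eq f x.num hb
    rw [← hFd] at h2
    have h3 : ((x.num : ℤ) : ℚ) / (((x.den : ℕ) : ℤ) : ℚ) = x := by
      rw [Int.cast_natCast]
      exact Rat.num_div_den x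
    rw [h3] at h2
    rw [Rat.divInt_eq_div, h2]
    push_cast
    field_simp
  have h2 : (((f.map (Int.castRingHom ℚ)).eval x).num) ∣ F := by
    rw [h1]
    exact Rat.num_dvd F (pow_ne_zero _ hb)
  have h3 : ((((f.map (Int.castRingHom ℚ)).eval x).den : ℕ) : ℤ) ∣ (x.den : ℤ) ^ f.natDegree := by
    rw [h1]
    exact Rat.den_dvd F _
  rw [← hFd] at hF ⊢
  have hF0 : F.natAbs * x.den ≠ 0 := mul_ne_zero (Int.natAbs_ne_zero.2 hF) x.den_ne_zero
  unfold radQ rad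
  refine Finset.prod_le_prod_of_subset_of_one_le' ?_
    fun p hp _ => (Nat.prime_of_mem_primeFactors hp).one_le
  intro p hp
  rw [Nat.mem_primeFactors] at hp ⊢
  refine ⟨hp.1, ?_, hF0⟩
  rcases (hp.1.dvd_mul).1 hp.2.1 with h4 | h4
  · exact (h4.trans (Int.natAbs_dvd_natAbs.2 h2)).mul_right _
  · have h5 : p ∣ x.den ^ f.natDegree := by
      have : ((p : ℕ) : ℤ) ∣ ((x.den ^ f.natDegree : ℕ) : ℤ) := by
        push_cast
        exact (Int.natCast_dvd_natCast.2 h4).trans h3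
      exact Int.natCast_dvd_natCast.1 this
    exact (hp.1.dvd_of_dvd_pow h5).mul_left _

theorem map_inj {f g : Polynomial ℤ}
    (h : f.map (Int.castRingHom ℚ) = g.map (Int.castRingHom ℚ)) : f = g :=
  Polynomial.map_injective _ (RingHom.injective_int _) h

theorem rad_int (d A : ℕ) (hd : 1 ≤ d) (hA : 1 ≤ A) (ε : ℝ) (hε : 0 < ε) :
    ∃ (N : ℕ) (δ C : ℝ), 0 < δ ∧ ∀ Y : ℕ, 1 ≤ Y → ∀ S : Finset (Polynomial ℤ),
      (∀ f ∈ S, f.natDegree = d ∧ (∀ i, |f.coeff i| ≤ (Y : ℤ)) ∧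
        ∃ P : Finset ℚ, N < P.card ∧ ∀ x ∈ P,
          |x.num| ≤ (Y : ℤ) ^ A ∧ (x.den : ℤ) ≤ (Y : ℤ) ^ A ∧ homValue f x.num x.den ≠ 0 ∧
          (rad ((homValue f x.num x.den).natAbs * x.den) : ℝ) ≤ (Y : ℝ) ^ δ) →
      (∀ f ∈ S, ∀ g ∈ S, f ≠ g →
        ¬ Aff (f.map (Int.castRingHom ℚ)) (g.map (Int.castRingHom ℚ))) →
      (S.card : ℝ) ≤ C * (Y : ℝ) ^ ε := by
  classical
  obtain ⟨N, δ, C, hδ, h⟩ := radical_poly d A hd hA ε hε
  refine ⟨N, δ, C, hδ, fun Y hY S hS hAff => ?_⟩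
  have h2 : (S.image (Polynomial.map (Int.castRingHom ℚ))).card = S.card :=
    Finset.card_image_of_injOn fun f _ g _ h => map_inj h
  rw [← h2]
  refine h Y hY _ ?_ ?_
  · intro c hc
    obtain ⟨f, hf, rfl⟩ := Finset.mem_image.1 hc
    obtain ⟨h3, h4, P, hP, hP2⟩ := hS f hf
    refine ⟨?_, heightLe_map hY h4, P, hP, fun x hx => ?_⟩
    · rw [Polynomial.natDegree_map_eq_of_injective (RingHom.injective_int _), h3]
    · obtain ⟨h5, h6, h7, h8⟩ := hP2 x hx
      exact ⟨h5, h6, (Nat.cast_le.2 (radQ_le x h7)).trans h8⟩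
  · intro c hc c' hc' hne
    obtain ⟨f, hf, rfl⟩ := Finset.mem_image.1 hc
    obtain ⟨g, hg, rfl⟩ := Finset.mem_image.1 hc'
    exact hAff f hf g hg fun h => hne (by rw [h])

theorem homValue_bound {f : Polynomial ℤ} {d X : ℕ} (hf : f.natDegree = d) (hX : 1 ≤ X)
    (h : ∀ i, |f.coeff i| ≤ (X : ℤ)) {a b : ℤ} (ha : |a| ≤ (X : ℤ)) (hb : |b| ≤ (X : ℤ)) :
    (homValue f a b).natAbs ≤ (d + 1) * X ^ (d + 1) := by
  have hX0 : (0 : ℤ) ≤ (X : ℤ) := by positivity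
  have h1 : |homValue f a b| ≤ (((d + 1) * X ^ (d + 1) : ℕ) : ℤ) := by
    unfold homValue
    rw [hf]
    calc |∑ i ∈ Finset.range (d + 1), f.coeff i * a ^ i * b ^ (d - i)|
        ≤ ∑ i ∈ Finset.range (d + 1), |f.coeff i * a ^ i * b ^ (d - i)| :=
          Finset.abs_sum_le_sum_abs _ _
      _ ≤ ∑ _i ∈ Finset.range (d + 1), (X : ℤ) ^ (d + 1) := by
          refine Finset.sum_le_sum fun i hi => ?_
          have hi' := Finset.mem_range.1 hi
          rw [abs_mul, abs_mul, abs_pow, abs_pow]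
          have e1 : (X : ℤ) ^ (d + 1) = X * (X : ℤ) ^ i * (X : ℤ) ^ (d - i) := by
            rw [mul_assoc, ← pow_add, pow_succ']
            congr 2
            omega
          rw [e1]
          exact mul_le_mul (mul_le_mul (h i) (pow_le_pow_left₀ (abs_nonneg _) ha _)
            (pow_nonneg (abs_nonneg _) _) hX0) (pow_le_pow_left₀ (abs_nonneg _) hb _)
            (pow_nonneg (abs_nonneg _) _) (mul_nonneg hX0 (pow_nonneg hX0 _))
      _ = _ := by
          rw [Finset.sum_const, Finset.card_range, nsmul_eq_mul]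
          push_cast
          ring
  rw [Int.abs_eq_natAbs] at h1
  exact_mod_cast h1

theorem full_int (d A : ℕ) (hd : 1 ≤ d) (hA : 1 ≤ A) (ε : ℝ) (hε : 0 < ε) :
    ∃ (N m : ℕ) (δ C : ℝ), 0 < δ ∧ ∀ Y : ℕ, 1 ≤ Y → ∀ S : Finset (Polynomial ℤ),
      (∀ f ∈ S, f.natDegree = d ∧ (∀ i, |f.coeff i| ≤ (Y : ℤ)) ∧
        ∃ P : Finset ℚ, N < P.card ∧ ∀ x ∈ P,
          |x.num| ≤ (Y : ℤ) ^ A ∧ (x.den : ℤ) ≤ (Y : ℤ) ^ A ∧ homValue f x.num x.den ≠ 0 ∧
          ∃ T : Finset ℕ, (∀ p ∈ T, p.Prime) ∧ ((∏ p ∈ T, p : ℕ) : ℝ) ≤ (Y : ℝ) ^ δ ∧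
            ∀ p : ℕ, p.Prime → p ∉ T → p ∣ (homValue f x.num x.den).natAbs * x.den →
              p ^ m ∣ (homValue f x.num x.den).natAbs * x.den) →
      (∀ f ∈ S, ∀ g ∈ S, f ≠ g →
        ¬ Aff (f.map (Int.castRingHom ℚ)) (g.map (Int.castRingHom ℚ))) →
      (S.card : ℝ) ≤ C * (Y : ℝ) ^ ε := by
  classical
  obtain ⟨N, δ, C, hδ, h⟩ := rad_int d A hd hA ε hε
  obtain ⟨m, hm⟩ := exists_nat_gt ((2 * d + 2 * (A * (d + 1)) : ℝ) / (δ / 2))
  have hm' : (2 * d + 2 * (A * (d + 1)) : ℝ) ≤ δ / 2 * m := by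
    rw [div_lt_iff₀ (by positivity)] at hm
    linarith
  have hm1 : 1 ≤ m := by
    rcases Nat.eq_zero_or_pos m with h0 | h0
    · exfalso
      rw [h0] at hm'
      have : (1 : ℝ) ≤ d := by exact_mod_cast hd
      have hA0 : (0 : ℝ) ≤ A * (d + 1) := by positivity
      push_cast at hm'
      linarith
    · exact h0
  refine ⟨N, m, δ / 2, max C ((3 ^ (d + 2) : ℕ) : ℝ), by positivity, fun Y hY S hS hAff => ?_⟩
  have hYR : (1 : ℝ) ≤ Y := by exact_mod_cast hY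
  have hYε : (1 : ℝ) ≤ (Y : ℝ) ^ ε := Real.one_le_rpow hYR hε.le
  rcases Nat.lt_or_ge Y 2 with hY2 | hY2
  · have h0 : (S.image (Polynomial.map (Int.castRingHom ℚ))).card = S.card :=
      Finset.card_image_of_injOn fun f _ g _ h => map_inj h
    have h1 := card_poly hd (S.image (Polynomial.map (Int.castRingHom ℚ))) (Y := Y) (by
      intro c hc
      obtain ⟨f, hf, rfl⟩ := Finset.mem_image.1 hc
      refine ⟨?_, heightLe_map hY (hS f hf).2.1⟩
      rw [Polynomial.natDegree_map_eq_of_injective (RingHom.injective_int _), (hS f hf).1])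
    have hY1 : Y = 1 := by omega
    have h3 : (S.card : ℝ) ≤ ((3 ^ (d + 2) : ℕ) : ℝ) := by
      rw [hY1, h0] at h1
      exact_mod_cast h1
    calc (S.card : ℝ) ≤ ((3 ^ (d + 2) : ℕ) : ℝ) := h3
      _ ≤ max C ((3 ^ (d + 2) : ℕ) : ℝ) := le_max_right _ _
      _ = max C ((3 ^ (d + 2) : ℕ) : ℝ) * 1 := (mul_one _).symm
      _ ≤ _ := mul_le_mul_of_nonneg_left hYε ((Nat.cast_nonneg _).trans (le_max_right _ _))
  · refine (h Y hY S ?_ hAff).trans
      (mul_le_mul_of_nonneg_right (le_max_left _ _) (by linarith))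
    intro f hf
    obtain ⟨h1, h2, P, hP, hP2⟩ := hS f hf
    refine ⟨h1, h2, P, hP, fun x hx => ?_⟩
    obtain ⟨h3, h4, h5, T, hT, hTY, hfull⟩ := hP2 x hx
    refine ⟨h3, h4, h5, ?_⟩
    have hYA : Y ≤ Y ^ A := by
      calc Y = Y ^ 1 := (pow_one _).symm
        _ ≤ Y ^ A := Nat.pow_le_pow_right hY hA
    have hYA1 : 1 ≤ Y ^ A := Nat.one_le_pow _ _ hY
    have h6 := homValue_bound (X := Y ^ A) h1 hYA1
      (fun i => (h2 i).trans (by exact_mod_cast hYA)) (a := x.num) (b := (x.den : ℤ))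
      (by push_cast; exact h3) (by rw [Nat.abs_cast]; push_cast; exact h4)
    have hz : (homValue f x.num x.den).natAbs * x.den ≠ 0 :=
      mul_ne_zero (Int.natAbs_ne_zero.2 h5) x.den_ne_zero
    have h7 := rad_full (m := m) hz T hT (fun p hp hpd hpT => hfull p hp hpT hpd)
    have h8 : (homValue f x.num x.den).natAbs * x.den ≤ ((d + 1) * (Y ^ A) ^ (d + 1)) ^ 2 := by
      rw [sq]
      refine Nat.mul_le_mul h6 ?_
      have e1 : x.den ≤ Y ^ A := by exact_mod_cast h4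
      calc x.den ≤ Y ^ A := e1
        _ = (Y ^ A) ^ 1 := (pow_one _).symm
        _ ≤ (Y ^ A) ^ (d + 1) := Nat.pow_le_pow_right hYA1 (by omega)
        _ ≤ (d + 1) * (Y ^ A) ^ (d + 1) := Nat.le_mul_of_pos_left _ (by omega)
    have h9 : ((d + 1) * (Y ^ A) ^ (d + 1)) ^ 2 ≤ Y ^ (2 * d + 2 * (A * (d + 1))) := by
      have e1 : d + 1 ≤ Y ^ d := by
        calc d + 1 ≤ 2 ^ d := Nat.lt_two_pow_self
          _ ≤ Y ^ d := Nat.pow_le_pow_left hY2 _
      calc ((d + 1) * (Y ^ A) ^ (d + 1)) ^ 2 ≤ (Y ^ d * (Y ^ A) ^ (d + 1)) ^ 2 :=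
            Nat.pow_le_pow_left (Nat.mul_le_mul_right _ e1) _
        _ = _ := by
            rw [← pow_mul, ← pow_add, ← pow_mul]
            congr 1
            ring
    have h10 : (rad ((homValue f x.num x.den).natAbs * x.den) : ℝ) ^ m ≤
        ((Y : ℝ) ^ δ) ^ m := by
      have e1 : (rad ((homValue f x.num x.den).natAbs * x.den) : ℝ) ^ m ≤
          ((∏ p ∈ T, p : ℕ) : ℝ) ^ m * (Y : ℝ) ^ (2 * d + 2 * (A * (d + 1))) := by
        have := h7.trans (Nat.mul_le_mul_left _ (h8.trans h9))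
        exact_mod_cast this
      refine e1.trans ?_
      have e2 : (Y : ℝ) ^ (2 * d + 2 * (A * (d + 1))) ≤ ((Y : ℝ) ^ (δ / 2)) ^ m := by
        rw [← Real.rpow_natCast ((Y : ℝ) ^ (δ / 2)), ← Real.rpow_mul (by linarith),
          ← Real.rpow_natCast (Y : ℝ)]
        refine Real.rpow_le_rpow_of_exponent_le hYR ?_
        push_cast
        exact hm'
      calc ((∏ p ∈ T, p : ℕ) : ℝ) ^ m * (Y : ℝ) ^ (2 * d + 2 * (A * (d + 1)))
          ≤ ((Y : ℝ) ^ (δ / 2)) ^ m * ((Y : ℝ) ^ (δ / 2)) ^ m :=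
            mul_le_mul (pow_le_pow_left₀ (Nat.cast_nonneg _) hTY _) e2 (by positivity)
              (by positivity)
        _ = ((Y : ℝ) ^ δ) ^ m := by
            rw [← mul_pow, ← Real.rpow_add (by linarith)]
            congr 2
            ring
    exact le_of_pow_le_pow_left₀ (by omega) (by positivity) h10

end Pool.Agent.R323.SE
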