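import Pool.Agent.R323.SE.I
import Pool.Agent.H353R2.Z2

/-!
# Integer polynomials with more than `d` values with a small radical
-/

set_option autoImplicit false

namespace Pool.Agent.R323.SE

open Filter

/-- translation equivalence over `ℚ` -/
def Tr (f g : Polynomial ℤ) : Prop :=
  ∃ β : ℚ, g.map (Int.castRingHom ℚ) =
    (f.map (Int.castRingHom ℚ)).comp (Polynomial.X + Polynomial.C β)

theorem dvd_K (f : Polynomial ℤ) (a b a' b' : ℤ) :
    (a * b' - a' * b) ∣
      homValue f a b * b' ^ f.natDegree - homValue f a' b' * b ^ f.natDegree := by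
  unfold homValue
  rw [Finset.sum_mul, Finset.sum_mul, ← Finset.sum_sub_distrib]
  refine Finset.dvd_sum fun i hi => ?_
  have hi' : i ≤ f.natDegree := by
    have := Finset.mem_range.1 hi
    omega
  have e1 : f.coeff i * a ^ i * b ^ (f.natDegree - i) * b' ^ f.natDegree -
      f.coeff i * a' ^ i * b' ^ (f.natDegree - i) * b ^ f.natDegree =
      f.coeff i * (b * b') ^ (f.natDegree - i) * ((a * b') ^ i - (a' * b) ^ i) := by
    have e2 : b' ^ f.natDegree = b' ^ i * b' ^ (f.natDegree - i) := by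
      rw [← pow_add]
      congr 1
      omega
    have e3 : b ^ f.natDegree = b ^ i * b ^ (f.natDegree - i) := by
      rw [← pow_add]
      congr 1
      omega
    rw [e2, e3, mul_pow, mul_pow, mul_pow]
    ring
  rw [e1]
  exact (sub_dvd_pow_sub_pow _ _ i).mul_left _

theorem tr_of_points {d : ℕ} {f g : Polynomial ℤ} (hf : f.natDegree = d)
    (hg : g.natDegree = d) (x y : Fin (d + 1) → ℚ) (hy : Function.Injective y)
    (hv : ∀ i, (f.map (Int.castRingHom ℚ)).eval (x i) = (g.map (Int.castRingHom ℚ)).eval (y i))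
    (hxy : ∀ i, x i - x 0 = y i - y 0) : Tr f g := by
  refine ⟨x 0 - y 0, ?_⟩
  rw [← sub_eq_zero]
  refine Polynomial.eq_zero_of_natDegree_lt_card_of_eval_eq_zero _ hy ?_ ?_
  · intro i
    rw [Polynomial.eval_sub, Polynomial.eval_comp, Polynomial.eval_add, Polynomial.eval_X,
      Polynomial.eval_C, ← hv i]
    have e1 : y i + (x 0 - y 0) = x i := by linear_combination -(hxy i)
    rw [e1, sub_self]
  · rw [Fintype.card_fin]
    have h1 : ((f.map (Int.castRingHom ℚ)).comp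
        (Polynomial.X + Polynomial.C (x 0 - y 0))).natDegree ≤ d := by
      refine Polynomial.natDegree_comp_le.trans ?_
      rw [Polynomial.natDegree_X_add_C, mul_one]
      exact Polynomial.natDegree_map_le.trans hf.le
    have h2 : (g.map (Int.castRingHom ℚ)).natDegree ≤ d := Polynomial.natDegree_map_le.trans hg.le
    have h3 := Polynomial.natDegree_sub_le_of_le h2 h1
    rw [max_self] at h3
    omega

theorem exists_ne {d : ℕ} (hd : 1 ≤ d) {f : Polynomial ℤ} (hf : f.natDegree = d)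
    (x : Fin (d + 1) → ℚ) (hx : Function.Injective x) :
    ∃ j, (f.map (Int.castRingHom ℚ)).eval (x j) ≠ (f.map (Int.castRingHom ℚ)).eval (x 0) := by
  by_contra hcon
  push Not at hcon
  have h1 : f.map (Int.castRingHom ℚ) -
      Polynomial.C ((f.map (Int.castRingHom ℚ)).eval (x 0)) = 0 := by
    refine Polynomial.eq_zero_of_natDegree_lt_card_of_eval_eq_zero _ hx ?_ ?_
    · intro i
      rw [Polynomial.eval_sub, Polynomial.eval_C, hcon i, sub_self]
    · rw [Fintype.card_fin]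
      have h2 : (f.map (Int.castRingHom ℚ)).natDegree ≤ d :=
        Polynomial.natDegree_map_le.trans hf.le
      have h3 := Polynomial.natDegree_sub_le_of_le h2
        (Polynomial.natDegree_C ((f.map (Int.castRingHom ℚ)).eval (x 0))).le
      rw [max_eq_left (Nat.zero_le _)] at h3
      omega
  have h4 : (f.map (Int.castRingHom ℚ)).natDegree = 0 := by
    rw [sub_eq_zero] at h1
    rw [h1, Polynomial.natDegree_C]
  rw [Polynomial.natDegree_map_eq_of_injective (RingHom.injective_int _), hf] at h4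
  omega

/-- integers with absolute value in a set -/
def pm (W : Finset ℕ) : Finset ℤ :=
  W.image (fun n : ℕ => (n : ℤ)) ∪ W.image (fun n : ℕ => -(n : ℤ))

theorem card_pm (W : Finset ℕ) : (pm W).card ≤ 2 * W.card := by
  unfold pm
  refine (Finset.card_union_le _ _).trans ?_
  have h1 := Finset.card_image_le (s := W) (f := fun n : ℕ => (n : ℤ))
  have h2 := Finset.card_image_le (s := W) (f := fun n : ℕ => -(n : ℤ))
  omega

theorem mem_pm {W : Finset ℕ} {z : ℤ} (h : z.natAbs ∈ W) : z ∈ pm W := by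
  unfold pm
  rcases le_total 0 z with h0 | h0
  · exact Finset.mem_union_left _ (Finset.mem_image.2 ⟨_, h, by omega⟩)
  · exact Finset.mem_union_right _ (Finset.mem_image.2 ⟨_, h, by omega⟩)

theorem card_WW_le (Z R : ℕ) (hZ : 1 ≤ Z) (hR : 1 ≤ R) : (WW Z R).card ≤ (VQ Z R).card := by
  classical
  refine Finset.card_le_card_of_injOn (fun n => (n : ℚ)) ?_ ?_
  · intro n hn
    have hn' : n ∈ WW Z R := hn
    have h1 : 1 ∈ WW Z R := by
      rw [WW, Finset.mem_filter, Finset.mem_Icc]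
      refine ⟨⟨le_rfl, hZ⟩, ?_⟩
      unfold rad
      rw [Nat.primeFactors_one, Finset.prod_empty]
      exact hR
    refine Finset.mem_coe.2 (Finset.mem_union_left _ (Finset.mem_image.2 ⟨(n, 1),
      Finset.mem_product.2 ⟨hn', h1⟩, ?_⟩))
    simp
  · intro n _ m _ h
    exact Nat.cast_injective (R := ℚ) h

section fiber

variable {d : ℕ} (S : Finset (Polynomial ℤ)) (x : Polynomial ℤ → Fin (d + 1) → ℚ)
  (cc bb : Fin (d + 1) → ℤ) (jj : Fin (d + 1))

/-- the partner of a point -/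
def kp (i : Fin (d + 1)) : Fin (d + 1) :=
  if cc i * bb 0 ^ d ≠ cc 0 * bb i ^ d then 0 else jj

theorem kp_ne (hb : ∀ i, bb i ≠ 0) (hj : cc jj * bb 0 ^ d ≠ cc 0 * bb jj ^ d) (i : Fin (d + 1)) :
    cc i * bb (kp cc bb jj i) ^ d - cc (kp cc bb jj i) * bb i ^ d ≠ 0 := by
  rw [sub_ne_zero]
  unfold kp
  split_ifs with h
  · exact h
  · push Not at h
    intro h1
    apply hj
    have h2 : bb i ^ d ≠ 0 := pow_ne_zero _ (hb i)
    apply mul_right_cancel₀ h2
    linear_combination bb jj ^ d * h - bb 0 ^ d * h1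

theorem kp_jj (hj : cc jj * bb 0 ^ d ≠ cc 0 * bb jj ^ d) : kp cc bb jj jj = 0 := by
  unfold kp
  rw [if_pos hj]

theorem kp_or (i : Fin (d + 1)) : kp cc bb jj i = 0 ∨ kp cc bb jj i = jj := by
  unfold kp
  split_ifs
  · exact Or.inl rfl
  · exact Or.inr rfl

theorem card_fiber (hS : ∀ f ∈ S, f.natDegree = d ∧ Function.Injective (x f) ∧
      (∀ i, homValue f (x f i).num (x f i).den = cc i) ∧ (∀ i, ((x f i).den : ℤ) = bb i))
    (hTr : ∀ f ∈ S, ∀ g ∈ S, f ≠ g → ¬ Tr f g)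
    (hj : cc jj * bb 0 ^ d ≠ cc 0 * bb jj ^ d) (hb : ∀ i, bb i ≠ 0) :
    S.card ≤ ∏ i : Fin (d + 1), 2 * (cc i * bb (kp cc bb jj i) ^ d -
      cc (kp cc bb jj i) * bb i ^ d).natAbs.divisors.card := by
  classical
  have h1 : S.card ≤ (Fintype.piFinset fun i : Fin (d + 1) => pm (cc i * bb (kp cc bb jj i) ^ d -
      cc (kp cc bb jj i) * bb i ^ d).natAbs.divisors).card := by
    refine Finset.card_le_card_of_injOn (fun f i => (x f i).num * bb (kp cc bb jj i) -
      (x f (kp cc bb jj i)).num * bb i) ?_ ?_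
    · intro f hf
      obtain ⟨h2, -, h3, h4⟩ := hS f hf
      refine Finset.mem_coe.2 (Fintype.mem_piFinset.2 fun i => mem_pm ?_)
      rw [Nat.mem_divisors]
      refine ⟨Int.natAbs_dvd_natAbs.2 ?_, Int.natAbs_ne_zero.2 (kp_ne cc bb jj hb hj i)⟩
      have h5 := dvd_K f (x f i).num (x f i).den (x f (kp cc bb jj i)).num
        (x f (kp cc bb jj i)).den
      rw [h2, h3, h3, h4, h4] at h5
      exact h5
    · intro f hf g hg hfg
      by_contra hne
      obtain ⟨h2, h3, h4, h5⟩ := hS f hf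
      obtain ⟨h2', h3', h4', h5'⟩ := hS g hg
      refine hTr f hf g hg hne ?_
      have hbQ : ∀ i, (bb i : ℚ) ≠ 0 := fun i => by exact_mod_cast hb i
      have hxf : ∀ i, x f i = ((x f i).num : ℚ) / (bb i : ℚ) := fun i => by
        rw [← h5 i, Int.cast_natCast]
        exact (Rat.num_div_den _).symm
      have hxg : ∀ i, x g i = ((x g i).num : ℚ) / (bb i : ℚ) := fun i => by
        rw [← h5' i, Int.cast_natCast]
        exact (Rat.num_div_den _).symm
      have h6 : ∀ i, x f i - x f (kp cc bb jj i) = x g i - x g (kp cc bb jj i) := by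
        intro i
        have h7 := congrFun hfg i
        simp only at h7
        have h8 : ((x f i).num : ℚ) * (bb (kp cc bb jj i) : ℚ) -
            ((x f (kp cc bb jj i)).num : ℚ) * (bb i : ℚ) =
            ((x g i).num : ℚ) * (bb (kp cc bb jj i) : ℚ) -
            ((x g (kp cc bb jj i)).num : ℚ) * (bb i : ℚ) := by exact_mod_cast h7
        rw [hxf i, hxf (kp cc bb jj i), hxg i, hxg (kp cc bb jj i)]
        have e1 := hbQ i
        have e2 := hbQ (kp cc bb jj i)
        field_simp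
        linear_combination h8
      refine tr_of_points h2 h2' (x f) (x g) h3' (fun i => ?_) (fun i => ?_)
      · have e0 : ((x f i).den : ℤ) ≠ 0 := by rw [h5]; exact hb i
        have e0' : ((x g i).den : ℤ) ≠ 0 := by rw [h5']; exact hb i
        have e1 := homValue_eq f (x f i).num e0
        have e2 := homValue_eq g (x g i).num e0'
        rw [h4, h2, Int.cast_natCast, Rat.num_div_den] at e1
        rw [h4', h2', Int.cast_natCast, Rat.num_div_den] at e2
        have e3 : ((x f i).den : ℚ) = ((x g i).den : ℚ) := by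
          have : ((x f i).den : ℤ) = ((x g i).den : ℤ) := by rw [h5, h5']
          exact_mod_cast this
        rw [e2, e3] at e1
        have e4 : ((x g i).den : ℚ) ^ d ≠ 0 := pow_ne_zero _ (by exact_mod_cast (x g i).den_ne_zero)
        exact (mul_left_cancel₀ e4 e1).symm
      · rcases kp_or cc bb jj i with h7 | h7
        · have := h6 i
          rw [h7] at this
          exact this
        · have e1 := h6 i
          have e2 := h6 jj
          rw [h7] at e1
          rw [kp_jj cc bb jj hj] at e2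
          linear_combination e1 + e2
  refine h1.trans ?_
  rw [Fintype.card_piFinset]
  exact Finset.prod_le_prod (fun _ _ => Nat.zero_le _) fun i _ => card_pm _

end fiber

theorem card_int {d : ℕ} (hd : 1 ≤ d) {X : ℕ} (hX : 1 ≤ X) (S : Finset (Polynomial ℤ))
    (hS : ∀ f ∈ S, f.natDegree = d ∧ ∀ i, |f.coeff i| ≤ (X : ℤ)) :
    S.card ≤ (2 * X + 1) ^ (d + 2) := by
  classical
  have h0 : (S.image (Polynomial.map (Int.castRingHom ℚ))).card = S.card :=
    Finset.card_image_of_injOn fun f _ g _ h => map_inj h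
  rw [← h0]
  refine card_poly hd _ ?_
  intro c hc
  obtain ⟨f, hf, rfl⟩ := Finset.mem_image.1 hc
  refine ⟨?_, heightLe_map hX (hS f hf).2⟩
  rw [Polynomial.natDegree_map_eq_of_injective (RingHom.injective_int _), (hS f hf).1]

/-- **More than `d` values with a small radical.** -/
theorem elem (d : ℕ) (hd : 1 ≤ d) (ε : ℝ) (hε : 0 < ε) : ∃ (δ C : ℝ), 0 < δ ∧
    ∀ X : ℕ, 1 ≤ X → ∀ S : Finset (Polynomial ℤ),
      (∀ f ∈ S, f.natDegree = d ∧ (∀ i, |f.coeff i| ≤ (X : ℤ)) ∧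
        ∃ P : Finset ℚ, d < P.card ∧ ∀ x ∈ P, |x.num| ≤ (X : ℤ) ∧ (x.den : ℤ) ≤ (X : ℤ) ∧
          homValue f x.num x.den ≠ 0 ∧
          (rad ((homValue f x.num x.den).natAbs * x.den) : ℝ) ≤ (X : ℝ) ^ δ) →
      (∀ f ∈ S, ∀ g ∈ S, f ≠ g → ¬ Tr f g) → (S.card : ℝ) ≤ C * (X : ℝ) ^ ε := by
  classical
  have hd1 : (0 : ℝ) < (d : ℝ) + 1 := by positivity
  obtain ⟨δ, X₀, hδ, hfew⟩ := few_VQ d (ε / (4 * ((d : ℝ) + 1))) (by positivity)
  obtain ⟨η, hη⟩ : ∃ η : ℝ, η = ε / (2 * ((d : ℝ) + 1) * (2 * (d : ℝ) + 1)) := ⟨_, rfl⟩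
  have hη0 : 0 < η := by
    rw [hη]
    positivity
  obtain ⟨Cη, hCη, hdiv⟩ := H353.divisor_bound_real η hη0
  obtain ⟨C₁, hC₁⟩ : ∃ C₁ : ℝ, C₁ = (2 * (Cη * ((2 * ((d : ℝ) + 1)) ^ η))) ^ (d + 1) *
      ((2 : ℝ) ^ (2 * (d + 1)) * ((d : ℝ) + 1)) := ⟨_, rfl⟩
  refine ⟨δ, max C₁ (((2 * X₀ + 1) ^ (d + 2) : ℕ) : ℝ), hδ, fun X hX S hS hTr => ?_⟩
  have hXR : (1 : ℝ) ≤ X := by exact_mod_cast hX
  have hX0 : (0 : ℝ) < X := by linarith
  have hXε : (1 : ℝ) ≤ (X : ℝ) ^ ε := Real.one_le_rpow hXR hε.le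
  rcases lt_or_ge X X₀ with hlt | hge
  · have h1 := card_int hd hX S (fun f hf => ⟨(hS f hf).1, (hS f hf).2.1⟩)
    have h2 : (2 * X + 1) ^ (d + 2) ≤ (2 * X₀ + 1) ^ (d + 2) := Nat.pow_le_pow_left (by omega) _
    have h3 : (S.card : ℝ) ≤ (((2 * X₀ + 1) ^ (d + 2) : ℕ) : ℝ) := by exact_mod_cast h1.trans h2
    calc (S.card : ℝ) ≤ (((2 * X₀ + 1) ^ (d + 2) : ℕ) : ℝ) := h3
      _ ≤ max C₁ (((2 * X₀ + 1) ^ (d + 2) : ℕ) : ℝ) := le_max_right _ _
      _ = max C₁ (((2 * X₀ + 1) ^ (d + 2) : ℕ) : ℝ) * 1 := (mul_one _).symm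
      _ ≤ _ := mul_le_mul_of_nonneg_left hXε ((Nat.cast_nonneg _).trans (le_max_right _ _))
  refine le_trans ?_ (mul_le_mul_of_nonneg_right (le_max_left _ _) (by linarith))
  obtain ⟨Z, hZ⟩ : ∃ Z, Z = (d + 1) * X ^ (d + 1) := ⟨_, rfl⟩
  obtain ⟨R, hR⟩ : ∃ R, R = ⌊(X : ℝ) ^ δ⌋₊ := ⟨_, rfl⟩
  have hXZ : X ≤ Z := by
    rw [hZ]
    calc X = X ^ 1 := (pow_one _).symm
      _ ≤ X ^ (d + 1) := Nat.pow_le_pow_right hX (by omega)
      _ ≤ (d + 1) * X ^ (d + 1) := Nat.le_mul_of_pos_left _ (by omega)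
  have hR1 : 1 ≤ R := by
    rw [hR]
    exact Nat.le_floor (by
      rw [Nat.cast_one]
      exact Real.one_le_rpow hXR hδ.le)
  have hW : ((WW Z R).card : ℝ) ≤ (X : ℝ) ^ (ε / (4 * ((d : ℝ) + 1))) := by
    have h1 := hfew X hge hX
    rw [← hZ, ← hR] at h1
    exact (Nat.cast_le.2 (card_WW_le Z R (hX.trans hXZ) hR1)).trans h1
  -- the points
  have hpts : ∀ f : Polynomial ℤ, ∃ x : Fin (d + 1) → ℚ, f ∈ S → Function.Injective x ∧
      ∀ i, |(x i).num| ≤ (X : ℤ) ∧ ((x i).den : ℤ) ≤ (X : ℤ) ∧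
        homValue f (x i).num (x i).den ≠ 0 ∧
        (rad ((homValue f (x i).num (x i).den).natAbs * (x i).den) : ℝ) ≤ (X : ℝ) ^ δ := by
    intro f
    by_cases hf : f ∈ S
    · obtain ⟨-, -, P, hP1, hP2⟩ := hS f hf
      refine ⟨fun i => P.equivFin.symm ⟨i, by have := i.2; omega⟩, fun _ => ⟨?_, ?_⟩⟩
      · intro i j hij
        have h1 := P.equivFin.symm.injective (Subtype.ext hij)
        have h2 := congrArg Fin.val h1
        exact Fin.ext h2
      · intro i
        exact hP2 _ (P.equivFin.symm ⟨i, by have := i.2; omega⟩).2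
    · exact ⟨fun _ => 0, fun h => absurd h hf⟩
  choose x hx using hpts
  have hjj : ∀ f : Polynomial ℤ, ∃ j : Fin (d + 1), f ∈ S →
      homValue f (x f j).num (x f j).den * ((x f 0).den : ℤ) ^ d ≠
        homValue f (x f 0).num (x f 0).den * ((x f j).den : ℤ) ^ d := by
    intro f
    by_cases hf : f ∈ S
    · obtain ⟨j, hj⟩ := exists_ne hd (hS f hf).1 (x f) (hx f hf).1
      refine ⟨j, fun _ h => hj ?_⟩
      have e0 : ((x f j).den : ℤ) ≠ 0 := by exact_mod_cast (x f j).den_ne_zero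
      have e0' : ((x f 0).den : ℤ) ≠ 0 := by exact_mod_cast (x f 0).den_ne_zero
      have e1 := homValue_eq f (x f j).num e0
      have e2 := homValue_eq f (x f 0).num e0'
      rw [(hS f hf).1, Int.cast_natCast, Rat.num_div_den] at e1 e2
      have e3 : ((homValue f (x f j).num (x f j).den : ℤ) : ℚ) * ((x f 0).den : ℚ) ^ d =
          ((homValue f (x f 0).num (x f 0).den : ℤ) : ℚ) * ((x f j).den : ℚ) ^ d := by
        exact_mod_cast h
      rw [e1, e2] at e3
      have e4 : ((x f j).den : ℚ) ^ d ≠ 0 := pow_ne_zero _ (by exact_mod_cast (x f j).den_ne_zero)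
      have e5 : ((x f 0).den : ℚ) ^ d ≠ 0 := pow_ne_zero _ (by exact_mod_cast (x f 0).den_ne_zero)
      apply mul_left_cancel₀ (mul_ne_zero e4 e5)
      linear_combination e3
    · exact ⟨0, fun h => absurd h hf⟩
  choose jj hjj using hjj
  let dat : Polynomial ℤ → (Fin (d + 1) → ℤ) × (Fin (d + 1) → ℤ) × Fin (d + 1) := fun f =>
    (fun i => homValue f (x f i).num (x f i).den, fun i => ((x f i).den : ℤ), jj f)
  have hC : ∀ f ∈ S, ∀ i, (homValue f (x f i).num (x f i).den).natAbs ∈ WW Z R := by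
    intro f hf i
    obtain ⟨h1, h2, -⟩ := hS f hf
    obtain ⟨h3, h4, h5, h6⟩ := (hx f hf).2 i
    rw [WW, Finset.mem_filter, Finset.mem_Icc]
    refine ⟨⟨Int.natAbs_pos.2 h5, ?_⟩, ?_⟩
    · rw [hZ]
      exact homValue_bound h1 hX h2 h3 (by rw [Nat.abs_cast]; exact h4)
    · rw [hR]
      refine (rad_le_of_dvd (Dvd.intro _ rfl)
        (mul_ne_zero (Int.natAbs_ne_zero.2 h5) (x f i).den_ne_zero)).trans (Nat.le_floor h6)
  have hB : ∀ f ∈ S, ∀ i, (x f i).den ∈ WW Z R := by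
    intro f hf i
    obtain ⟨h3, h4, h5, h6⟩ := (hx f hf).2 i
    rw [WW, Finset.mem_filter, Finset.mem_Icc]
    refine ⟨⟨(x f i).den_pos, le_trans (by exact_mod_cast h4) hXZ⟩, ?_⟩
    rw [hR]
    exact (rad_le_of_dvd (Dvd.intro_left _ rfl)
      (mul_ne_zero (Int.natAbs_ne_zero.2 h5) (x f i).den_ne_zero)).trans (Nat.le_floor h6)
  have hdat : ((S.image dat).card : ℝ) ≤ ((2 : ℝ) ^ (2 * (d + 1)) * ((d : ℝ) + 1)) *
      (X : ℝ) ^ (ε / 2) := by
    have h1 : S.image dat ⊆ (Fintype.piFinset fun _ : Fin (d + 1) => pm (WW Z R)) ×ˢ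
        ((Fintype.piFinset fun _ : Fin (d + 1) => pm (WW Z R)) ×ˢ Finset.univ) := by
      intro y hy
      obtain ⟨f, hf, rfl⟩ := Finset.mem_image.1 hy
      refine Finset.mem_product.2 ⟨Fintype.mem_piFinset.2 fun i => mem_pm (hC f hf i),
        Finset.mem_product.2 ⟨Fintype.mem_piFinset.2 fun i => mem_pm ?_, Finset.mem_univ _⟩⟩
      show (((x f i).den : ℕ) : ℤ).natAbs ∈ WW Z R
      rw [Int.natAbs_natCast]
      exact hB f hf i
    have h2 := Finset.card_le_card h1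
    rw [Finset.card_product, Finset.card_product, Fintype.card_piFinset, Finset.prod_const,
      Finset.card_univ, Fintype.card_fin] at h2
    have h3 : ((pm (WW Z R)).card : ℝ) ≤ 2 * (X : ℝ) ^ (ε / (4 * ((d : ℝ) + 1))) := by
      have := card_pm (WW Z R)
      have h4 : ((pm (WW Z R)).card : ℝ) ≤ 2 * ((WW Z R).card : ℝ) := by exact_mod_cast this
      linarith
    have h5 : ((S.image dat).card : ℝ) ≤ ((pm (WW Z R)).card : ℝ) ^ (d + 1) *
        (((pm (WW Z R)).card : ℝ) ^ (d + 1) * ((d : ℝ) + 1)) := by exact_mod_cast h2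
    have h6 : ((pm (WW Z R)).card : ℝ) ^ (d + 1) ≤
        (2 * (X : ℝ) ^ (ε / (4 * ((d : ℝ) + 1)))) ^ (d + 1) :=
      pow_le_pow_left₀ (Nat.cast_nonneg _) h3 _
    have h7 : (2 * (X : ℝ) ^ (ε / (4 * ((d : ℝ) + 1)))) ^ (d + 1) =
        (2 : ℝ) ^ (d + 1) * (X : ℝ) ^ (ε / 4) := by
      rw [mul_pow, ← Real.rpow_natCast ((X : ℝ) ^ (ε / (4 * ((d : ℝ) + 1)))),
        ← Real.rpow_mul hX0.le]
      congr 2
      push_cast
      field_simp
    rw [h7] at h6
    have h8 : (X : ℝ) ^ (ε / 2) = (X : ℝ) ^ (ε / 4) * (X : ℝ) ^ (ε / 4) := by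
      rw [← Real.rpow_add hX0]
      congr 1
      ring
    rw [h8]
    refine h5.trans ?_
    calc ((pm (WW Z R)).card : ℝ) ^ (d + 1) *
          (((pm (WW Z R)).card : ℝ) ^ (d + 1) * ((d : ℝ) + 1))
        ≤ ((2 : ℝ) ^ (d + 1) * (X : ℝ) ^ (ε / 4)) *
          (((2 : ℝ) ^ (d + 1) * (X : ℝ) ^ (ε / 4)) * ((d : ℝ) + 1)) :=
          mul_le_mul h6 (mul_le_mul_of_nonneg_right h6 hd1.le) (by positivity) (by positivity)
      _ = _ := by
          rw [show 2 * (d + 1) = (d + 1) + (d + 1) by ring, pow_add]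
          ring
  -- the fibers
  obtain ⟨Fm, hFm⟩ : ∃ Fm : ℝ, Fm = (2 * (Cη * ((2 * ((d : ℝ) + 1)) ^ η))) ^ (d + 1) *
      (X : ℝ) ^ (ε / 2) := ⟨_, rfl⟩
  have hfib : ∀ y ∈ S.image dat, (S.filter fun f => dat f = y).card ≤ ⌊Fm⌋₊ := by
    intro y hy
    obtain ⟨f₀, hf₀, rfl⟩ := Finset.mem_image.1 hy
    refine Nat.le_floor ?_
    have h1 := card_fiber (d := d) (S.filter fun f => dat f = dat f₀) x
      (fun i => homValue f₀ (x f₀ i).num (x f₀ i).den) (fun i => ((x f₀ i).den : ℤ)) (jj f₀)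
      (by
        intro f hf
        obtain ⟨hf1, hf2⟩ := Finset.mem_filter.1 hf
        refine ⟨(hS f hf1).1, (hx f hf1).1, fun i => ?_, fun i => ?_⟩
        · exact congrFun (congrArg Prod.fst hf2) i
        · exact congrFun (congrArg (fun z => z.2.1) hf2) i)
      (fun f hf g hg hne => hTr f (Finset.mem_filter.1 hf).1 g (Finset.mem_filter.1 hg).1 hne)
      (hjj f₀ hf₀) (fun i => by exact_mod_cast (x f₀ i).den_ne_zero)
    have hkn := kp_ne (d := d) (fun i => homValue f₀ (x f₀ i).num (x f₀ i).den)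
      (fun i => ((x f₀ i).den : ℤ)) (jj f₀) (fun i => by exact_mod_cast (x f₀ i).den_ne_zero)
      (hjj f₀ hf₀)
    have h2 : ((S.filter fun f => dat f = dat f₀).card : ℝ) ≤
        ∏ _i : Fin (d + 1), 2 * (Cη * ((2 * ((d : ℝ) + 1)) ^ η) * (X : ℝ) ^ ((2 * d + 1) * η)) := by
      refine (Nat.cast_le.2 h1).trans ?_
      rw [Nat.cast_prod]
      refine Finset.prod_le_prod (fun _ _ => Nat.cast_nonneg _) fun i _ => ?_
      push_cast
      refine mul_le_mul_of_nonneg_left ?_ (by norm_num)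
      have h3 := hkn i
      obtain ⟨K, hK⟩ : ∃ K : ℤ, K = homValue f₀ (x f₀ i).num (x f₀ i).den *
          ((x f₀ (kp (fun i => homValue f₀ (x f₀ i).num (x f₀ i).den)
            (fun i => ((x f₀ i).den : ℤ)) (jj f₀) i)).den : ℤ) ^ d -
          homValue f₀ (x f₀ (kp (fun i => homValue f₀ (x f₀ i).num (x f₀ i).den)
            (fun i => ((x f₀ i).den : ℤ)) (jj f₀) i)).num
            (x f₀ (kp (fun i => homValue f₀ (x f₀ i).num (x f₀ i).den)
            (fun i => ((x f₀ i).den : ℤ)) (jj f₀) i)).den * ((x f₀ i).den : ℤ) ^ d := ⟨_, rfl⟩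
      rw [← hK] at h3 ⊢
      have h4 : ∀ i, |homValue f₀ (x f₀ i).num (x f₀ i).den| ≤ (Z : ℤ) := by
        intro i
        have := hC f₀ hf₀ i
        rw [WW, Finset.mem_filter, Finset.mem_Icc] at this
        rw [Int.abs_eq_natAbs]
        exact_mod_cast this.1.2
      have h5 : ∀ i, ((x f₀ i).den : ℤ) ≤ (X : ℤ) := fun i => ((hx f₀ hf₀).2 i).2.1
      have h6 : |K| ≤ ((2 * ((d + 1) * X ^ (2 * d + 1)) : ℕ) : ℤ) := by
        have e1 : ∀ i k : Fin (d + 1), |homValue f₀ (x f₀ i).num (x f₀ i).den *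
            ((x f₀ k).den : ℤ) ^ d| ≤ (((d + 1) * X ^ (2 * d + 1) : ℕ) : ℤ) := by
          intro i k
          rw [abs_mul, abs_pow, Nat.abs_cast]
          calc |homValue f₀ (x f₀ i).num (x f₀ i).den| * ((x f₀ k).den : ℤ) ^ d ≤
                (Z : ℤ) * (X : ℤ) ^ d := mul_le_mul (h4 i)
                (pow_le_pow_left₀ (by positivity) (h5 k) _) (by positivity) (by positivity)
            _ = (((d + 1) * X ^ (2 * d + 1) : ℕ) : ℤ) := by
                rw [hZ]
                push_cast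
                ring
        rw [hK]
        refine (abs_sub _ _).trans ?_
        refine (add_le_add (e1 _ _) (e1 _ _)).trans (le_of_eq ?_)
        push_cast
        ring
      have h7 : (K.natAbs : ℝ) ≤ 2 * ((d : ℝ) + 1) * (X : ℝ) ^ (2 * (d : ℝ) + 1) := by
        have e1 : K.natAbs ≤ 2 * ((d + 1) * X ^ (2 * d + 1)) := by
          rw [Int.abs_eq_natAbs] at h6
          exact_mod_cast h6
        have e2 : (X : ℝ) ^ (2 * (d : ℝ) + 1) = (X : ℝ) ^ (2 * d + 1) := by
          rw [← Real.rpow_natCast]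
          congr 1
          push_cast
          ring
        rw [e2]
        have e3 : (K.natAbs : ℝ) ≤ ((2 * ((d + 1) * X ^ (2 * d + 1)) : ℕ) : ℝ) :=
          Nat.cast_le.2 e1
        refine e3.trans (le_of_eq ?_)
        push_cast
        ring
      refine (hdiv K.natAbs (Int.natAbs_ne_zero.2 h3)).trans ?_
      rw [mul_assoc]
      refine mul_le_mul_of_nonneg_left ?_ hCη.le
      refine (Real.rpow_le_rpow (Nat.cast_nonneg _) h7 hη0.le).trans (le_of_eq ?_)
      rw [Real.mul_rpow (by positivity) (by positivity), ← Real.rpow_mul hX0.le]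
    refine h2.trans (le_of_eq ?_)
    rw [Finset.prod_const, Finset.card_univ, Fintype.card_fin, hFm]
    rw [← mul_assoc 2, mul_pow, ← Real.rpow_natCast ((X : ℝ) ^ ((2 * d + 1) * η)),
      ← Real.rpow_mul hX0.le]
    congr 2
    rw [hη]
    push_cast
    field_simp
  have hcard := Finset.card_le_mul_card_image S ⌊Fm⌋₊ hfib
  have hFm0 : 0 ≤ Fm := by
    rw [hFm]
    positivity
  calc (S.card : ℝ) ≤ ((⌊Fm⌋₊ * (S.image dat).card : ℕ) : ℝ) := Nat.cast_le.2 hcard
    _ = (⌊Fm⌋₊ : ℝ) * ((S.image dat).card : ℝ) := by push_cast; ring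
    _ ≤ Fm * (((2 : ℝ) ^ (2 * (d + 1)) * ((d : ℝ) + 1)) * (X : ℝ) ^ (ε / 2)) :=
        mul_le_mul (Nat.floor_le hFm0) hdat (Nat.cast_nonneg _) hFm0
    _ = C₁ * (X : ℝ) ^ ε := by
        have h8 : (X : ℝ) ^ ε = (X : ℝ) ^ (ε / 2) * (X : ℝ) ^ (ε / 2) := by
          rw [← Real.rpow_add hX0]
          congr 1
          ring
        rw [hFm, hC₁, h8]
        ring

end Pool.Agent.R323.SE
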