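import Pool.Agent.R323.SE.J

/-!
# Almost full values of integer polynomials: the sharp version
-/

set_option autoImplicit false

namespace Pool.Agent.R323.SE

open Filter

theorem elemY (d A : ℕ) (hd : 1 ≤ d) (hA : 1 ≤ A) (ε : ℝ) (hε : 0 < ε) : ∃ (δ C : ℝ), 0 < δ ∧
    ∀ Y : ℕ, 1 ≤ Y → ∀ S : Finset (Polynomial ℤ),
      (∀ f ∈ S, f.natDegree = d ∧ (∀ i, |f.coeff i| ≤ (Y : ℤ)) ∧
        ∃ P : Finset ℚ, d < P.card ∧ ∀ x ∈ P,
          |x.num| ≤ (Y : ℤ) ^ A ∧ (x.den : ℤ) ≤ (Y : ℤ) ^ A ∧ homValue f x.num x.den ≠ 0 ∧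
          (rad ((homValue f x.num x.den).natAbs * x.den) : ℝ) ≤ (Y : ℝ) ^ δ) →
      (∀ f ∈ S, ∀ g ∈ S, f ≠ g → ¬ Tr f g) → (S.card : ℝ) ≤ C * (Y : ℝ) ^ ε := by
  have hAR : (0 : ℝ) < A := by exact_mod_cast hA
  obtain ⟨δ, C, hδ, h⟩ := elem d hd (ε / A) (by positivity)
  refine ⟨A * δ, C, by positivity, fun Y hY S hS hTr => ?_⟩
  have hYR : (1 : ℝ) ≤ Y := by exact_mod_cast hY
  have hYA : Y ≤ Y ^ A := by
    calc Y = Y ^ 1 := (pow_one _).symm
      _ ≤ Y ^ A := Nat.pow_le_pow_right hY hA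
  have h3 := h (Y ^ A) (Nat.one_le_pow _ _ hY) S ?_ hTr
  · refine h3.trans (le_of_eq ?_)
    congr 1
    push_cast
    rw [← Real.rpow_natCast, ← Real.rpow_mul (by linarith)]
    congr 1
    field_simp
  · intro f hf
    obtain ⟨h4, h5, P, hP, hP2⟩ := hS f hf
    refine ⟨h4, fun i => (h5 i).trans (by exact_mod_cast hYA), P, hP, fun x hx => ?_⟩
    obtain ⟨h6, h7, h8, h9⟩ := hP2 x hx
    refine ⟨by push_cast; exact h6, by push_cast; exact h7, h8, ?_⟩
    refine h9.trans (le_of_eq ?_)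
    push_cast
    rw [← Real.rpow_natCast, ← Real.rpow_mul (by linarith)]

theorem elem_full (d A : ℕ) (hd : 1 ≤ d) (hA : 1 ≤ A) (ε : ℝ) (hε : 0 < ε) :
    ∃ (m : ℕ) (δ C : ℝ), 0 < δ ∧ ∀ Y : ℕ, 1 ≤ Y → ∀ S : Finset (Polynomial ℤ),
      (∀ f ∈ S, f.natDegree = d ∧ (∀ i, |f.coeff i| ≤ (Y : ℤ)) ∧
        ∃ P : Finset ℚ, d < P.card ∧ ∀ x ∈ P,
          |x.num| ≤ (Y : ℤ) ^ A ∧ (x.den : ℤ) ≤ (Y : ℤ) ^ A ∧ homValue f x.num x.den ≠ 0 ∧
          ∃ T : Finset ℕ, (∀ p ∈ T, p.Prime) ∧ ((∏ p ∈ T, p : ℕ) : ℝ) ≤ (Y : ℝ) ^ δ ∧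
            ∀ p : ℕ, p.Prime → p ∉ T → p ∣ (homValue f x.num x.den).natAbs * x.den →
              p ^ m ∣ (homValue f x.num x.den).natAbs * x.den) →
      (∀ f ∈ S, ∀ g ∈ S, f ≠ g → ¬ Tr f g) → (S.card : ℝ) ≤ C * (Y : ℝ) ^ ε := by
  classical
  obtain ⟨δ, C, hδ, h⟩ := elemY d A hd hA ε hε
  obtain ⟨m, hm⟩ := exists_nat_gt ((2 * d + 2 * (A * (d + 1)) : ℝ) / (δ / 2))
  have hm' : (2 * d + 2 * (A * (d + 1)) : ℝ) ≤ δ / 2 * m := by
    rw [div_lt_iff₀ (by positivity)] at hm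
    linarith
  have hm1 : 1 ≤ m := by
    rcases Nat.eq_zero_or_pos m with h0 | h0
    · exfalso
      rw [h0] at hm'
      have : (1 : ℝ) ≤ d := by exact_mod_cast hd
      have hA0 : (0 : ℝ) ≤ A * (d + 1) := by positivity
      push_cast at hm'
      linarith
    · exact h0
  refine ⟨m, δ / 2, max C ((3 ^ (d + 2) : ℕ) : ℝ), by positivity, fun Y hY S hS hAff => ?_⟩
  have hYR : (1 : ℝ) ≤ Y := by exact_mod_cast hY
  have hYε : (1 : ℝ) ≤ (Y : ℝ) ^ ε := Real.one_le_rpow hYR hε.le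
  rcases Nat.lt_or_ge Y 2 with hY2 | hY2
  · have h1 := card_int hd hY S (fun f hf => ⟨(hS f hf).1, (hS f hf).2.1⟩)
    have hY1 : Y = 1 := by omega
    have h3 : (S.card : ℝ) ≤ ((3 ^ (d + 2) : ℕ) : ℝ) := by
      rw [hY1] at h1
      exact_mod_cast h1
    calc (S.card : ℝ) ≤ ((3 ^ (d + 2) : ℕ) : ℝ) := h3
      _ ≤ max C ((3 ^ (d + 2) : ℕ) : ℝ) := le_max_right _ _
      _ = max C ((3 ^ (d + 2) : ℕ) : ℝ) * 1 := (mul_one _).symm
      _ ≤ _ := mul_le_mul_of_nonneg_left hYε ((Nat.cast_nonneg _).trans (le_max_right _ _))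
  · refine (h Y hY S ?_ hAff).trans
      (mul_le_mul_of_nonneg_right (le_max_left _ _) (by linarith))
    intro f hf
    obtain ⟨h1, h2, P, hP, hP2⟩ := hS f hf
    refine ⟨h1, h2, P, hP, fun x hx => ?_⟩
    obtain ⟨h3, h4, h5, T, hT, hTY, hfull⟩ := hP2 x hx
    refine ⟨h3, h4, h5, ?_⟩
    have hYA : Y ≤ Y ^ A := by
      calc Y = Y ^ 1 := (pow_one _).symm
        _ ≤ Y ^ A := Nat.pow_le_pow_right hY hA
    have hYA1 : 1 ≤ Y ^ A := Nat.one_le_pow _ _ hY
    have h6 := homValue_bound (X := Y ^ A) h1 hYA1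
      (fun i => (h2 i).trans (by exact_mod_cast hYA)) (a := x.num) (b := (x.den : ℤ))
      (by push_cast; exact h3) (by rw [Nat.abs_cast]; push_cast; exact h4)
    have hz : (homValue f x.num x.den).natAbs * x.den ≠ 0 :=
      mul_ne_zero (Int.natAbs_ne_zero.2 h5) x.den_ne_zero
    have h7 := rad_full (m := m) hz T hT (fun p hp hpd hpT => hfull p hp hpT hpd)
    have h8 : (homValue f x.num x.den).natAbs * x.den ≤ ((d + 1) * (Y ^ A) ^ (d + 1)) ^ 2 := by
      rw [sq]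
      refine Nat.mul_le_mul h6 ?_
      have e1 : x.den ≤ Y ^ A := by exact_mod_cast h4
      calc x.den ≤ Y ^ A := e1
        _ = (Y ^ A) ^ 1 := (pow_one _).symm
        _ ≤ (Y ^ A) ^ (d + 1) := Nat.pow_le_pow_right hYA1 (by omega)
        _ ≤ (d + 1) * (Y ^ A) ^ (d + 1) := Nat.le_mul_of_pos_left _ (by omega)
    have h9 : ((d + 1) * (Y ^ A) ^ (d + 1)) ^ 2 ≤ Y ^ (2 * d + 2 * (A * (d + 1))) := by
      have e1 : d + 1 ≤ Y ^ d := by
        calc d + 1 ≤ 2 ^ d := Nat.lt_two_pow_self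
          _ ≤ Y ^ d := Nat.pow_le_pow_left hY2 _
      calc ((d + 1) * (Y ^ A) ^ (d + 1)) ^ 2 ≤ (Y ^ d * (Y ^ A) ^ (d + 1)) ^ 2 :=
            Nat.pow_le_pow_left (Nat.mul_le_mul_right _ e1) _
        _ = _ := by
            rw [← pow_mul, ← pow_add, ← pow_mul]
            congr 1
            ring
    have h10 : (rad ((homValue f x.num x.den).natAbs * x.den) : ℝ) ^ m ≤
        ((Y : ℝ) ^ δ) ^ m := by
      have e1 : (rad ((homValue f x.num x.den).natAbs * x.den) : ℝ) ^ m ≤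
          ((∏ p ∈ T, p : ℕ) : ℝ) ^ m * (Y : ℝ) ^ (2 * d + 2 * (A * (d + 1))) := by
        have := h7.trans (Nat.mul_le_mul_left _ (h8.trans h9))
        exact_mod_cast this
      refine e1.trans ?_
      have e2 : (Y : ℝ) ^ (2 * d + 2 * (A * (d + 1))) ≤ ((Y : ℝ) ^ (δ / 2)) ^ m := by
        rw [← Real.rpow_natCast ((Y : ℝ) ^ (δ / 2)), ← Real.rpow_mul (by linarith),
          ← Real.rpow_natCast (Y : ℝ)]
        refine Real.rpow_le_rpow_of_exponent_le hYR ?_
        push_cast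
        exact hm'
      calc ((∏ p ∈ T, p : ℕ) : ℝ) ^ m * (Y : ℝ) ^ (2 * d + 2 * (A * (d + 1)))
          ≤ ((Y : ℝ) ^ (δ / 2)) ^ m * ((Y : ℝ) ^ (δ / 2)) ^ m :=
            mul_le_mul (pow_le_pow_left₀ (Nat.cast_nonneg _) hTY _) e2 (by positivity)
              (by positivity)
        _ = ((Y : ℝ) ^ δ) ^ m := by
            rw [← mul_pow, ← Real.rpow_add (by linarith)]
            congr 2
            ring
    exact le_of_pow_le_pow_left₀ (by omega) (by positivity) h10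

/-- many classes of polynomials with `d` points with the value `1` -/
theorem many_one (d : ℕ) (hd : 1 ≤ d) : ∃ K : ℕ, 1 ≤ K ∧ ∀ Y : ℕ, 1 ≤ Y →
    ∃ S : Finset (Polynomial ℤ), Y / K ≤ S.card ∧
      (∀ f ∈ S, f.natDegree = d ∧ f.IsPrimitive ∧ (∀ i, |f.coeff i| ≤ (Y : ℤ)) ∧
        ∃ P : Finset ℚ, P.card = d ∧ ∀ x ∈ P, |x.num| ≤ (d : ℤ) ∧ x.den = 1 ∧
          homValue f x.num x.den = 1) ∧
      ∀ f ∈ S, ∀ g ∈ S, f ≠ g → ¬ Tr f g := by
  classical
  obtain ⟨g, hg⟩ : ∃ g : Polynomial ℤ, g = ∏ i ∈ Finset.range d,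
    (Polynomial.X - Polynomial.C (i : ℤ)) := ⟨_, rfl⟩
  have hgm : g.Monic := by
    rw [hg]
    exact Polynomial.monic_prod_of_monic _ _ fun i _ => Polynomial.monic_X_sub_C _
  have hgd : g.natDegree = d := by
    rw [hg, Polynomial.natDegree_prod_of_monic _ _ fun i _ => Polynomial.monic_X_sub_C _,
      Finset.sum_congr rfl fun i _ => Polynomial.natDegree_X_sub_C _]
    simp
  have hge : ∀ i : ℕ, i < d → g.eval (i : ℤ) = 0 := by
    intro i hi
    rw [hg, Polynomial.eval_prod]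
    exact Finset.prod_eq_zero (Finset.mem_range.2 hi) (by simp)
  obtain ⟨K₀, hK₀⟩ : ∃ K₀ : ℕ, ∀ i, |g.coeff i| ≤ (K₀ : ℤ) := by
    refine ⟨∑ i ∈ Finset.range (d + 1), (g.coeff i).natAbs, fun i => ?_⟩
    rcases Nat.lt_or_ge i (d + 1) with hi | hi
    · rw [Int.abs_eq_natAbs]
      exact_mod_cast Finset.single_le_sum (f := fun i => (g.coeff i).natAbs)
        (fun _ _ => Nat.zero_le _) (Finset.mem_range.2 hi)
    · rw [Polynomial.coeff_eq_zero_of_natDegree_lt (by omega), abs_zero]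
      positivity
  have hfd : ∀ k : ℤ, k ≠ 0 → (Polynomial.C k * g + 1).natDegree = d := by
    intro k hk
    rw [Polynomial.natDegree_add_eq_left_of_natDegree_lt] <;>
      rw [Polynomial.natDegree_C_mul hk, hgd]
    rw [Polynomial.natDegree_one]
    omega
  have hfl : ∀ k : ℤ, k ≠ 0 → (Polynomial.C k * g + 1).leadingCoeff = k := by
    intro k hk
    rw [Polynomial.leadingCoeff, hfd k hk, Polynomial.coeff_add, Polynomial.coeff_C_mul,
      ← hgd, Polynomial.coeff_natDegree, hgm.leadingCoeff, mul_one, hgd, Polynomial.coeff_one,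
      if_neg (by omega), add_zero]
  have hfe : ∀ (k : ℤ) (i : ℕ), i < d → (Polynomial.C k * g + 1).eval (i : ℤ) = 1 := by
    intro k i hi
    rw [Polynomial.eval_add, Polynomial.eval_mul, hge i hi, mul_zero, Polynomial.eval_one, zero_add]
  refine ⟨K₀ + 1, by omega, fun Y hY => ?_⟩
  refine ⟨(Finset.Icc 1 (Y / (K₀ + 1))).image fun k : ℕ => Polynomial.C (k : ℤ) * g + 1, ?_, ?_, ?_⟩
  · rw [Finset.card_image_of_injOn]
    · rw [Nat.card_Icc]
      omega
    · intro k hk k' hk' h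
      rw [Finset.coe_Icc, Set.mem_Icc] at hk hk'
      have h1 := congrArg Polynomial.leadingCoeff h
      simp only at h1
      rw [hfl _ (by omega), hfl _ (by omega)] at h1
      exact_mod_cast h1
  · intro f hf
    obtain ⟨k, hk, rfl⟩ := Finset.mem_image.1 hf
    rw [Finset.mem_Icc] at hk
    have hk0 : (k : ℤ) ≠ 0 := by omega
    refine ⟨hfd _ hk0, ?_, ?_, ?_⟩
    · intro r hr
      have h1 : r ∣ (Polynomial.C (k : ℤ) * g + 1).eval ((0 : ℕ) : ℤ) := by
        obtain ⟨q, hq⟩ := hr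
        rw [hq, Polynomial.eval_mul, Polynomial.eval_C]
        exact Dvd.intro _ rfl
      rw [hfe _ 0 (by omega)] at h1
      exact isUnit_of_dvd_one h1
    · intro i
      rw [Polynomial.coeff_add, Polynomial.coeff_C_mul]
      have h1 : |(k : ℤ) * g.coeff i| ≤ (k : ℤ) * K₀ := by
        rw [abs_mul, Nat.abs_cast]
        exact mul_le_mul_of_nonneg_left (hK₀ i) (by positivity)
      have h2 : |(1 : Polynomial ℤ).coeff i| ≤ (k : ℤ) := by
        rw [Polynomial.coeff_one]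
        split_ifs
        · rw [abs_one]; omega
        · rw [abs_zero]; omega
      have h3 : (k : ℤ) * K₀ + k ≤ (Y : ℤ) := by
        have h4 := Nat.div_mul_le_self Y (K₀ + 1)
        have h5 : k * (K₀ + 1) ≤ Y := (Nat.mul_le_mul_right _ hk.2).trans h4
        have h6 : ((k * (K₀ + 1) : ℕ) : ℤ) ≤ (Y : ℤ) := by exact_mod_cast h5
        push_cast at h6
        linarith
      exact (abs_add_le _ _).trans ((add_le_add h1 h2).trans h3)
    · refine ⟨(Finset.range d).image fun i : ℕ => (i : ℚ), ?_, ?_⟩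
      · rw [Finset.card_image_of_injective _ Nat.cast_injective, Finset.card_range]
      · intro x hx
        obtain ⟨i, hi, rfl⟩ := Finset.mem_image.1 hx
        have hi' := Finset.mem_range.1 hi
        have e1 : ((i : ℕ) : ℚ).num = (i : ℤ) := Rat.num_natCast i
        have e2 : ((i : ℕ) : ℚ).den = 1 := Rat.den_natCast i
        refine ⟨?_, e2, ?_⟩
        · rw [e1, Nat.abs_cast]
          exact_mod_cast hi'.le
        · rw [e1, e2]
          have h1 := homValue_eq (Polynomial.C (k : ℤ) * g + 1) (i : ℤ) (b := 1) one_ne_zero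
          rw [Int.cast_one, one_pow, one_mul, div_one] at h1
          have h2 : ((Polynomial.C (k : ℤ) * g + 1).map (Int.castRingHom ℚ)).eval ((i : ℤ) : ℚ) =
              1 := by
            have h3 := Polynomial.eval_intCast_map (Int.castRingHom ℚ)
              (Polynomial.C (k : ℤ) * g + 1) (i : ℤ)
            rw [Int.cast_id, hfe _ i hi', map_one] at h3
            exact h3
          rw [h2] at h1
          exact_mod_cast h1
  · intro f hf f' hf' hne htr
    obtain ⟨k, hk, rfl⟩ := Finset.mem_image.1 hf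
    obtain ⟨k', hk', rfl⟩ := Finset.mem_image.1 hf'
    rw [Finset.mem_Icc] at hk hk'
    obtain ⟨β, hβ⟩ := htr
    apply hne
    have h1 := congrArg Polynomial.leadingCoeff hβ
    rw [Polynomial.leadingCoeff_comp (by rw [Polynomial.natDegree_X_add_C]; exact one_ne_zero),
      Polynomial.leadingCoeff_X_add_C, one_pow, mul_one,
      Polynomial.leadingCoeff_map_of_injective (RingHom.injective_int _),
      Polynomial.leadingCoeff_map_of_injective (RingHom.injective_int _), hfl _ (by omega),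
      hfl _ (by omega)] at h1
    have h2 : (k' : ℤ) = k := by
      have h3 := RingHom.injective_int (Int.castRingHom ℚ) h1
      exact h3
    rw [h2]

end Pool.Agent.R323.SE
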