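import Pool.Agent.R323.SE.R
import Pool.Agent.R323.Few

/-!
# The field of internal functions on an internal set
-/

set_option autoImplicit false

namespace Pool.Agent.R323.SE

open Filter MvPolynomial Pool.Agent.Y902.GN Pool.Agent.R323

section ultra

variable {α : Type}

open Classical in
/-- the slice of `A` -/
noncomputable def slc (Om : ℕ → Finset α) (A : Set (ℕ × α)) (ν : ℕ) : Finset α :=
  (Om ν).filter fun t => (ν, t) ∈ A

theorem mem_slc {Om : ℕ → Finset α} {A : Set (ℕ × α)} {ν : ℕ} {t : α} :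
    t ∈ slc Om A ν ↔ t ∈ Om ν ∧ (ν, t) ∈ A := by
  classical
  unfold slc
  rw [Finset.mem_filter]

/-- every set of the ultrafilter is a positive proportion of `Om` -/
def Dn (Om : ℕ → Finset α) (W : Ultrafilter (ℕ × α)) : Prop :=
  ∀ A : Set (ℕ × α), A ∈ W → ∃ k : ℕ, ∀ᶠ ν in (Uf : Filter ℕ), (Om ν).card ≤ k * (slc Om A ν).card

theorem slc_union [DecidableEq α] (Om : ℕ → Finset α) (A B : Set (ℕ × α)) (ν : ℕ) :
    slc Om (A ∪ B) ν ⊆ slc Om A ν ∪ slc Om B ν := by
  intro t ht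
  rw [mem_slc] at ht
  rw [Finset.mem_union, mem_slc, mem_slc]
  rcases ht.2 with h | h
  · exact Or.inl ⟨ht.1, h⟩
  · exact Or.inr ⟨ht.1, h⟩

theorem slc_mono (Om : ℕ → Finset α) {A B : Set (ℕ × α)} (h : A ⊆ B) (ν : ℕ) :
    slc Om A ν ⊆ slc Om B ν := by
  intro t ht
  rw [mem_slc] at ht ⊢
  exact ⟨ht.1, h ht.2⟩

theorem exists_W (Om : ℕ → Finset α) (hne : ∀ᶠ ν in (Uf : Filter ℕ), (Om ν).Nonempty) :
    ∃ W : Ultrafilter (ℕ × α), Dn Om W := by
  classical
  let G : Filter (ℕ × α) :=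
    { sets := {A | ∀ k : ℕ, ∀ᶠ ν in (Uf : Filter ℕ), k * (slc Om Aᶜ ν).card ≤ (Om ν).card}
      univ_sets := by
        intro k
        refine Filter.Eventually.of_forall fun ν => ?_
        have : slc Om (Set.univᶜ) ν = ∅ := by
          ext t
          rw [mem_slc]
          simp
        rw [this]
        simp
      sets_of_superset := by
        intro A B hA hAB k
        filter_upwards [hA k] with ν h
        exact (Nat.mul_le_mul_left _ (Finset.card_le_card
          (slc_mono Om (Set.compl_subset_compl.2 hAB) ν))).trans h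
      inter_sets := by
        intro A B hA hB k
        filter_upwards [hA (2 * k), hB (2 * k)] with ν h1 h2
        have h3 : (slc Om (A ∩ B)ᶜ ν).card ≤ (slc Om Aᶜ ν).card + (slc Om Bᶜ ν).card := by
          rw [Set.compl_inter]
          exact (Finset.card_le_card (slc_union Om _ _ ν)).trans (Finset.card_union_le _ _)
        nlinarith }
  have hG : G.NeBot := by
    refine ⟨fun h => ?_⟩
    have h1 : (∅ : Set (ℕ × α)) ∈ G := by rw [h]; trivial
    have h2 := h1 2
    obtain ⟨ν, h3, h4⟩ := (h2.and hne).exists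
    have h5 : slc Om (∅ᶜ) ν = Om ν := by
      ext t
      rw [mem_slc]
      simp
    rw [h5] at h3
    have := Finset.card_pos.2 h4
    omega
  refine ⟨Ultrafilter.of G, fun A hA => ?_⟩
  by_contra hcon
  push Not at hcon
  have h1 : Aᶜ ∈ G := by
    intro k
    filter_upwards [hcon k] with ν h3
    rw [compl_compl]
    exact h3.le
  have h2 : Aᶜ ∈ Ultrafilter.of G := Ultrafilter.of_le G h1
  have h3 := (Ultrafilter.of G).empty_notMem
  apply h3
  have := Filter.inter_mem hA h2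
  rwa [Set.inter_compl_self] at this

variable {Om : ℕ → Finset α} {W : Ultrafilter (ℕ × α)}

theorem Dn.exists_mem (hW : Dn Om W) (hne : ∀ᶠ ν in (Uf : Filter ℕ), (Om ν).Nonempty)
    {A : Set (ℕ × α)} (hA : A ∈ W) : ∀ᶠ ν in (Uf : Filter ℕ), ∃ t ∈ Om ν, (ν, t) ∈ A := by
  obtain ⟨k, hk⟩ := hW A hA
  filter_upwards [hk, hne] with ν h1 h2
  have h3 := Finset.card_pos.2 h2
  have h4 : 0 < (slc Om A ν).card := by
    by_contra h
    have : (slc Om A ν).card = 0 := by omega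
    rw [this] at h1
    omega
  obtain ⟨t, ht⟩ := Finset.card_pos.1 h4
  rw [mem_slc] at ht
  exact ⟨t, ht.1, ht.2⟩

theorem Dn.fst (hW : Dn Om W) (hne : ∀ᶠ ν in (Uf : Filter ℕ), (Om ν).Nonempty) :
    Tendsto Prod.fst (W : Filter (ℕ × α)) (Uf : Filter ℕ) := by
  intro p hp
  by_contra hcon
  have h1 : (Prod.fst ⁻¹' p : Set (ℕ × α))ᶜ ∈ W := by
    rw [Ultrafilter.compl_mem_iff_notMem]
    exact hcon
  obtain ⟨ν, h2, h3⟩ := ((hW.exists_mem hne h1).and hp).exists
  obtain ⟨t, -, ht⟩ := h2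
  exact ht h3

theorem Dn.mem (hW : Dn Om W) (hne : ∀ᶠ ν in (Uf : Filter ℕ), (Om ν).Nonempty) :
    {x : ℕ × α | x.2 ∈ Om x.1} ∈ W := by
  by_contra hcon
  rw [← Ultrafilter.compl_mem_iff_notMem] at hcon
  obtain ⟨ν, t, h1, h2⟩ := (hW.exists_mem hne hcon).exists
  exact h2 h1

/-- the field of internal functions -/
def LL (W : Ultrafilter (ℕ × α)) : Type := Filter.Germ (W : Filter (ℕ × α)) ℚ

noncomputable instance (W : Ultrafilter (ℕ × α)) : Field (LL W) :=
  inferInstanceAs (Field (Filter.Germ (W : Filter (ℕ × α)) ℚ))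

/-- the class of a function -/
def gm (W : Ultrafilter (ℕ × α)) (f : ℕ × α → ℚ) : LL W := (f : Filter.Germ (W : Filter (ℕ × α)) ℚ)

theorem gm_eq {f g : ℕ × α → ℚ} : gm W f = gm W g ↔ ∀ᶠ x in (W : Filter (ℕ × α)), f x = g x :=
  Filter.Germ.coe_eq

theorem gm_zero {f : ℕ × α → ℚ} : gm W f = 0 ↔ ∀ᶠ x in (W : Filter (ℕ × α)), f x = 0 :=
  Filter.Germ.coe_eq (g := fun _ => (0 : ℚ))

theorem gm_add (f g : ℕ × α → ℚ) : gm W (fun x => f x + g x) = gm W f + gm W g := rfl

theorem gm_mul (f g : ℕ × α → ℚ) : gm W (fun x => f x * g x) = gm W f * gm W g := rfl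

theorem gm_sub (f g : ℕ × α → ℚ) : gm W (fun x => f x - g x) = gm W f - gm W g := rfl

theorem gm_one : gm W (fun _ => 1) = 1 := rfl

theorem gm_ex (z : LL W) : ∃ f, z = gm W f := by
  revert z
  intro (z : Filter.Germ (W : Filter (ℕ × α)) ℚ)
  induction z using Filter.Germ.inductionOn with
  | h f => exact ⟨f, rfl⟩

theorem gm_div (f g : ℕ × α → ℚ) : gm W (fun x => f x / g x) = gm W f / gm W g := rfl

theorem gm_nat (n : ℕ) : gm W (fun _ => (n : ℚ)) = (n : LL W) := by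
  induction n with
  | zero => 
    rw [Nat.cast_zero, Nat.cast_zero]
    rfl
  | succ n ih =>
    rw [Nat.cast_succ, Nat.cast_succ, gm_add, ih]
    rfl

instance : CharZero (LL W) := by
  refine charZero_of_inj_zero fun n hn => ?_
  rw [← gm_nat, gm_zero] at hn
  obtain ⟨x, hx⟩ := hn.exists
  exact_mod_cast hx

/-- constants -/
noncomputable def psf (W : Ultrafilter (ℕ × α)) (hφ : Tendsto Prod.fst (W : Filter (ℕ × α))
    (Uf : Filter ℕ)) (z : ZS) : LL W :=
  Filter.Germ.map (fun a : ℤ => (a : ℚ)) (z.compTendsto Prod.fst hφ)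

theorem psf_coe (hφ : Tendsto Prod.fst (W : Filter (ℕ × α)) (Uf : Filter ℕ)) (f : ℕ → ℤ) :
    psf W hφ (f : ZS) = gm W (fun x => ((f x.1 : ℤ) : ℚ)) := rfl

/-- constants -/
noncomputable def ps (W : Ultrafilter (ℕ × α)) (hφ : Tendsto Prod.fst (W : Filter (ℕ × α))
    (Uf : Filter ℕ)) : ZS →+* LL W where
  toFun := psf W hφ
  map_one' := by
    show psf W hφ ((fun _ => 1 : ℕ → ℤ) : ZS) = _
    rw [psf_coe]
    simp only [Int.cast_one]
    exact gm_one
  map_zero' := by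
    show psf W hφ ((fun _ => 0 : ℕ → ℤ) : ZS) = _
    rw [psf_coe, gm_zero]
    simp
  map_mul' := by
    intro x y
    induction x, y using Filter.Germ.inductionOn₂ with
    | h f g =>
      show psf W hφ ((fun ν => f ν * g ν : ℕ → ℤ) : ZS) = _
      rw [psf_coe, psf_coe, psf_coe, ← gm_mul, gm_eq]
      simp
  map_add' := by
    intro x y
    induction x, y using Filter.Germ.inductionOn₂ with
    | h f g =>
      show psf W hφ ((fun ν => f ν + g ν : ℕ → ℤ) : ZS) = _
      rw [psf_coe, psf_coe, psf_coe, ← gm_add, gm_eq]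
      simp

theorem ps_coe (hφ : Tendsto Prod.fst (W : Filter (ℕ × α)) (Uf : Filter ℕ)) (f : ℕ → ℤ) :
    ps W hφ (f : ZS) = gm W (fun x => ((f x.1 : ℤ) : ℚ)) := rfl

theorem ps_inj (hφ : Tendsto Prod.fst (W : Filter (ℕ × α)) (Uf : Filter ℕ)) :
    Function.Injective (ps W hφ) := by
  rw [injective_iff_map_eq_zero]
  intro z hz
  induction z using Filter.Germ.inductionOn with
  | h f =>
    rw [ps_coe, gm_zero] at hz
    by_contra hcon
    have h1 : ¬ ∀ᶠ ν in (Uf : Filter ℕ), f ν = 0 := fun h => hcon (Filter.Germ.coe_eq.2 h)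
    have h2 : ∀ᶠ ν in (Uf : Filter ℕ), ¬ f ν = 0 := ev_not.2 h1
    have h3 : ∀ᶠ x in (W : Filter (ℕ × α)), ¬ f x.1 = 0 := hφ.eventually h2
    obtain ⟨x, h4, h5⟩ := (hz.and h3).exists
    exact h5 (by exact_mod_cast h4)

variable (Y : ℕ → ℕ) (hφ : Tendsto Prod.fst (W : Filter (ℕ × α)) (Uf : Filter ℕ))

/-- evaluation of polynomials with bounded coefficients -/
noncomputable def evu (Y : ℕ → ℕ) (hφ : Tendsto Prod.fst (W : Filter (ℕ × α)) (Uf : Filter ℕ))
    {σ : Type} (u : σ → ℕ × α → ℤ) : MvPolynomial σ (OO Y) →+* LL W :=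
  eval₂Hom ((ps W hφ).comp (OO Y).subtype) (fun i => gm W fun x => ((u i x : ℤ) : ℚ))

variable {Y}

theorem evu_X {σ : Type} (u : σ → ℕ × α → ℤ) (i : σ) :
    evu Y hφ u (X i) = gm W fun x => ((u i x : ℤ) : ℚ) := by
  unfold evu
  rw [coe_eval₂Hom, eval₂_X]

theorem evu_C {σ : Type} (u : σ → ℕ × α → ℤ) (c : OO Y) :
    evu Y hφ u (C c) = ps W hφ c := by
  unfold evu
  rw [coe_eval₂Hom, eval₂_C]
  rfl

theorem evu_re {σ : Type} (u : σ → ℕ × α → ℤ) {P : MvPolynomial σ (OO Y)}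
    {p : ℕ → MvPolynomial σ ℤ} (hp : Re P p) :
    evu Y hφ u P = gm W fun x => ((eval (fun i => u i x) (p x.1) : ℤ) : ℚ) := by
  have key : ∀ P : MvPolynomial σ (OO Y), ∃ p, Re P p ∧
      evu Y hφ u P = gm W fun x => ((eval (fun i => u i x) (p x.1) : ℤ) : ℚ) := by
    intro P
    induction P using MvPolynomial.induction_on with
    | C c =>
      obtain ⟨f, hf⟩ := rep_exists c
      refine ⟨_, Re.C hf, ?_⟩
      rw [evu_C, hf, ps_coe]
      simp only [eval_C]
    | add P Q hP hQ =>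
      obtain ⟨p, h1, h2⟩ := hP
      obtain ⟨q, h3, h4⟩ := hQ
      refine ⟨_, h1.add h3, ?_⟩
      rw [map_add, h2, h4, ← gm_add]
      simp only [map_add, Int.cast_add]
    | mul_X P i hP =>
      obtain ⟨p, h1, h2⟩ := hP
      refine ⟨_, h1.mul (Re.X i), ?_⟩
      rw [map_mul, h2, evu_X, ← gm_mul]
      simp only [map_mul, Int.cast_mul, eval_X]
  obtain ⟨q, h1, h2⟩ := key P
  rw [h2, gm_eq]
  have h3 := hφ.eventually (hp.eq h1)
  filter_upwards [h3] with x hx
  rw [hx]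

theorem evu_eq_zero {σ : Type} (u : σ → ℕ × α → ℤ) {P : MvPolynomial σ (OO Y)}
    {p : ℕ → MvPolynomial σ ℤ} (hp : Re P p) :
    evu Y hφ u P = 0 ↔ ∀ᶠ x in (W : Filter (ℕ × α)), eval (fun i => u i x) (p x.1) = 0 := by
  rw [evu_re hφ u hp, gm_zero]
  constructor
  · intro h
    filter_upwards [h] with x hx
    exact_mod_cast hx
  · intro h
    filter_upwards [h] with x hx
    exact_mod_cast hx

end ultra

end Pool.Agent.R323.SE
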