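import Pool.Agent.R323.SE.D
import Pool.Agent.Y902.GN.Seq

/-!
# Polynomials with many rational points with values in a small set
-/

set_option autoImplicit false

namespace Pool.Agent.R323.SE

open Filter Pool.Agent.Y902.GN Pool.Agent.R323

theorem int_root {d : ℕ} (hd : 1 ≤ d) (t : Fin (d + 2) → ℤ) (ht : t (Fin.last d).castSucc ≠ 0)
    (hq : t (Fin.last (d + 1)) ≠ 0) (x c : ℚ) (h : (pol t).eval x = c) :
    ∃ z : ℤ, (z : ℚ) = (c.den : ℚ) * (t (Fin.last d).castSucc : ℚ) * x := by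
  classical
  obtain ⟨q, hqd⟩ : ∃ q : Polynomial ℤ, q = (∑ j : Fin (d + 1),
      Polynomial.C ((c.den : ℤ) * t j.castSucc) * Polynomial.X ^ (j : ℕ)) -
        Polynomial.C (c.num * t (Fin.last (d + 1))) := ⟨_, rfl⟩
  have hqQ : ((t (Fin.last (d + 1)) : ℤ) : ℚ) ≠ 0 := by exact_mod_cast hq
  have h1 : q.coeff d = (c.den : ℤ) * t (Fin.last d).castSucc := by
    rw [hqd, Polynomial.coeff_sub, Polynomial.finsetSum_coeff,
      Finset.sum_eq_single (Fin.last d)]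
    · rw [Polynomial.coeff_C_mul, Polynomial.coeff_X_pow, Fin.val_last, if_pos rfl, mul_one,
        Polynomial.coeff_C, if_neg (by omega), sub_zero]
    · intro j _ hj
      rw [Polynomial.coeff_C_mul, Polynomial.coeff_X_pow, if_neg, mul_zero]
      intro h
      exact hj (Fin.ext h.symm)
    · intro h
      exact absurd (Finset.mem_univ _) h
  have h2 : q.coeff d ≠ 0 := by
    rw [h1]
    exact mul_ne_zero (by exact_mod_cast c.den_ne_zero) ht
  have h3 : q.natDegree = d := by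
    refine le_antisymm ?_ (Polynomial.le_natDegree_of_ne_zero h2)
    rw [hqd]
    refine (Polynomial.natDegree_sub_le _ _).trans (max_le ?_ ?_)
    · refine Polynomial.natDegree_sum_le_of_forall_le _ _ fun i _ => ?_
      exact (Polynomial.natDegree_C_mul_X_pow_le _ _).trans (by omega)
    · rw [Polynomial.natDegree_C]
      exact Nat.zero_le _
  have h4 : q.leadingCoeff = (c.den : ℤ) * t (Fin.last d).castSucc := by
    rw [Polynomial.leadingCoeff, h3, h1]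
  have h5 : Polynomial.aeval x q = 0 := by
    rw [hqd, map_sub, map_sum, Polynomial.aeval_C]
    have e1 : ∀ j : Fin (d + 1), Polynomial.aeval x (Polynomial.C ((c.den : ℤ) * t j.castSucc) *
        Polynomial.X ^ (j : ℕ)) = ((c.den : ℚ) * (t (Fin.last (d + 1)) : ℚ)) *
          ((t j.castSucc : ℚ) / (t (Fin.last (d + 1)) : ℚ) * x ^ (j : ℕ)) := by
      intro j
      rw [map_mul, Polynomial.aeval_C, map_pow, Polynomial.aeval_X]
      rw [eq_intCast]
      push_cast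
      field_simp
    rw [Finset.sum_congr rfl fun j _ => e1 j, ← Finset.mul_sum]
    have e2 : ∑ j : Fin (d + 1), (t j.castSucc : ℚ) / (t (Fin.last (d + 1)) : ℚ) * x ^ (j : ℕ) =
        c := by
      rw [← h]
      unfold pol
      rw [Polynomial.eval_finsetSum]
      refine Finset.sum_congr rfl fun j _ => ?_
      rw [Polynomial.eval_mul, Polynomial.eval_C, Polynomial.eval_pow, Polynomial.eval_X]
    rw [e2, eq_intCast]
    push_cast
    have e3 : (c.den : ℚ) * c = c.num := Rat.den_mul_eq_num c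
    linear_combination (t (Fin.last (d + 1)) : ℚ) * e3
  have h6 := isIntegral_leadingCoeff_smul q x h5
  obtain ⟨z, hz⟩ := IsIntegrallyClosed.isIntegral_iff.1 h6
  refine ⟨z, ?_⟩
  rw [h4] at hz
  rw [eq_intCast] at hz
  rw [hz, zsmul_eq_mul]
  push_cast
  ring

theorem rat_le {A B : ℤ} {c : ℚ} {Z : ℕ} (hB : B ≠ 0) (h : c = (A : ℚ) / (B : ℚ))
    (hA : |A| ≤ (Z : ℤ)) (hB' : |B| ≤ (Z : ℤ)) : |c.num| ≤ (Z : ℤ) ∧ ((c.den : ℕ) : ℤ) ≤ (Z : ℤ) := by
  have h1 : c = Rat.divInt A B := by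
    rw [h, Rat.divInt_eq_div]
  constructor
  · by_cases hA0 : A = 0
    · rw [h, hA0]
      simp
    · have h2 : c.num ∣ A := by
        rw [h1]
        exact Rat.num_dvd A hB
      have h3 := Int.natAbs_le_of_dvd_ne_zero h2 hA0
      rw [Int.abs_eq_natAbs] at hA ⊢
      omega
  · have h2 : ((c.den : ℕ) : ℤ) ∣ B := by
      rw [h1]
      exact Rat.den_dvd A B
    have h3 : ((c.den : ℕ) : ℤ) ≤ |B| := Int.le_of_dvd (abs_pos.2 hB) ((dvd_abs _ _).2 h2)
    exact h3.trans hB'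

theorem val_bound {d : ℕ} (t : Fin (d + 2) → ℤ) (hq : t (Fin.last (d + 1)) ≠ 0) {Y : ℕ}
    (hY : 1 ≤ Y) (ht : ∀ j, |t j| ≤ (Y : ℤ)) {x : ℚ} (hx : |x.num| ≤ (Y : ℤ))
    (hx' : ((x.den : ℕ) : ℤ) ≤ (Y : ℤ)) :
    |((pol t).eval x).num| ≤ (((d + 1) * Y ^ (d + 1) : ℕ) : ℤ) ∧
      ((((pol t).eval x).den : ℕ) : ℤ) ≤ (((d + 1) * Y ^ (d + 1) : ℕ) : ℤ) := by
  classical
  have hqQ : ((t (Fin.last (d + 1)) : ℤ) : ℚ) ≠ 0 := by exact_mod_cast hq
  have hdQ : (x.den : ℚ) ≠ 0 := by exact_mod_cast x.den_ne_zero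
  have hY0 : (0 : ℤ) ≤ (Y : ℤ) := by positivity
  have hden0 : (0 : ℤ) ≤ (x.den : ℤ) := by positivity
  refine rat_le (A := ∑ j : Fin (d + 1), t j.castSucc * (x.num ^ (j : ℕ) *
    (x.den : ℤ) ^ (d - (j : ℕ)))) (B := t (Fin.last (d + 1)) * (x.den : ℤ) ^ d)
    (mul_ne_zero hq (pow_ne_zero _ (by exact_mod_cast x.den_ne_zero))) ?_ ?_ ?_
  · unfold pol
    rw [Polynomial.eval_finsetSum, eq_div_iff (by
      push_cast
      exact mul_ne_zero hqQ (pow_ne_zero _ hdQ)), Finset.sum_mul]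
    push_cast
    refine Finset.sum_congr rfl fun j _ => ?_
    rw [Polynomial.eval_mul, Polynomial.eval_C, Polynomial.eval_pow, Polynomial.eval_X]
    have e1 : (x.den : ℚ) ^ d = (x.den : ℚ) ^ (j : ℕ) * (x.den : ℚ) ^ (d - (j : ℕ)) := by
      rw [← pow_add]
      congr 1
      omega
    have e2 : x ^ (j : ℕ) * (x.den : ℚ) ^ (j : ℕ) = (x.num : ℚ) ^ (j : ℕ) := by
      rw [← mul_pow, Rat.mul_den_eq_num]
    rw [e1]
    field_simp
    rw [← e2]
    ring
  · calc |∑ j : Fin (d + 1), t j.castSucc * (x.num ^ (j : ℕ) * (x.den : ℤ) ^ (d - (j : ℕ)))|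
        ≤ ∑ j : Fin (d + 1), |t j.castSucc * (x.num ^ (j : ℕ) * (x.den : ℤ) ^ (d - (j : ℕ)))| :=
          Finset.abs_sum_le_sum_abs _ _
      _ ≤ ∑ _j : Fin (d + 1), (Y : ℤ) ^ (d + 1) := by
          refine Finset.sum_le_sum fun j _ => ?_
          rw [abs_mul, abs_mul, abs_pow, abs_pow, abs_of_nonneg hden0]
          have e1 : (Y : ℤ) ^ (d + 1) = Y * ((Y : ℤ) ^ (j : ℕ) * (Y : ℤ) ^ (d - (j : ℕ))) := by
            rw [← pow_add, pow_succ']
            congr 2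
            omega
          rw [e1]
          exact mul_le_mul (ht _) (mul_le_mul (pow_le_pow_left₀ (abs_nonneg _) hx _)
            (pow_le_pow_left₀ hden0 hx' _) (pow_nonneg hden0 _) (pow_nonneg hY0 _))
            (mul_nonneg (pow_nonneg (abs_nonneg _) _) (pow_nonneg hden0 _)) hY0
      _ = _ := by
          rw [Finset.sum_const, Finset.card_univ, Fintype.card_fin, nsmul_eq_mul]
          push_cast
          ring
  · rw [abs_mul, abs_pow, abs_of_nonneg hden0]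
    calc |t (Fin.last (d + 1))| * (x.den : ℤ) ^ d ≤ (Y : ℤ) * (Y : ℤ) ^ d :=
          mul_le_mul (ht _) (pow_le_pow_left₀ hden0 hx' _) (pow_nonneg hden0 _) hY0
      _ = (Y : ℤ) ^ (d + 1) := by ring
      _ ≤ ((d + 1 : ℕ) : ℤ) * (Y : ℤ) ^ (d + 1) := by
          have : (1 : ℤ) ≤ ((d + 1 : ℕ) : ℤ) := by push_cast; omega
          nlinarith [pow_nonneg hY0 (d + 1)]
      _ = _ := by push_cast; ring

theorem card_box' {n : ℕ} {X : ℕ} (S : Finset (Fin n → ℤ))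
    (hS : ∀ c ∈ S, ∀ j, |c j| ≤ (X : ℤ)) : S.card ≤ (2 * X + 1) ^ n := by
  classical
  have h1 : S ⊆ Fintype.piFinset fun _ : Fin n => Finset.Icc (-(X : ℤ)) X := by
    intro c hc
    rw [Fintype.mem_piFinset]
    intro j
    rw [Finset.mem_Icc]
    exact abs_le.1 (hS c hc j)
  refine (Finset.card_le_card h1).trans (le_of_eq ?_)
  rw [Fintype.card_piFinset]
  simp only [Int.card_Icc, Finset.prod_const, Finset.card_univ, Fintype.card_fin]
  congr 1
  omega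

/-- more than `N` points of height at most `Y` with values in `V` -/
def Many (N Y : ℕ) (V : Finset ℚ) (f : Polynomial ℚ) : Prop :=
  ∃ P : Finset ℚ, N < P.card ∧ ∀ x ∈ P, |x.num| ≤ (Y : ℤ) ∧ ((x.den : ℕ) : ℤ) ≤ (Y : ℤ) ∧
    f.eval x ∈ V

/-- **Small sets of values.** -/
theorem small_values (d : ℕ) (hd : 1 ≤ d) (ε : ℝ) (hε : 0 < ε) : ∃ (N : ℕ) (δ C : ℝ), 0 < δ ∧
    ∀ Y : ℕ, 1 ≤ Y → ∀ V : Finset ℚ, (V.card : ℝ) ≤ (Y : ℝ) ^ δ →
    ∀ S : Finset (Fin (d + 2) → ℤ),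
      (∀ t ∈ S, (∀ j, |t j| ≤ (Y : ℤ)) ∧ t (Fin.last d).castSucc ≠ 0 ∧
        t (Fin.last (d + 1)) ≠ 0 ∧ Many N Y V (pol t)) →
      (∀ t ∈ S, ∀ t' ∈ S, t ≠ t' → ¬ Aff (pol t) (pol t')) → (S.card : ℝ) ≤ C * (Y : ℝ) ^ ε := by
  classical
  by_contra hcon
  push Not at hcon
  choose X hX1 V hV S hS hcj hcard using fun ν : ℕ => hcon ν (1 / ((ν : ℝ) + 1)) (ν : ℝ)
    (by positivity)
  have hXR : ∀ ν, (1 : ℝ) ≤ (X ν : ℝ) := fun ν => by exact_mod_cast hX1 ν
  -- the points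
  have hpts : ∀ ν, ∀ t : Fin (d + 2) → ℤ, ∃ x : ℕ → ℚ, t ∈ S ν →
      (∀ i, i < ν + 1 → |(x i).num| ≤ (X ν : ℤ) ∧ (((x i).den : ℕ) : ℤ) ≤ (X ν : ℤ) ∧
        (pol t).eval (x i) ∈ V ν) ∧ ∀ i j, i < ν + 1 → j < ν + 1 → i ≠ j → x i ≠ x j := by
    intro ν t
    by_cases ht : t ∈ S ν
    · obtain ⟨-, -, -, P, hP1, hP2⟩ := hS ν t ht
      refine ⟨fun i => if h : i < P.card then (P.equivFin.symm ⟨i, h⟩ : ℚ) else 0, fun _ => ⟨?_, ?_⟩⟩
      · intro i hi
        simp only [dif_pos (by omega : i < P.card)]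
        exact hP2 _ (P.equivFin.symm ⟨i, by omega⟩).2
      · intro i j hi hj hij h
        simp only [dif_pos (by omega : i < P.card), dif_pos (by omega : j < P.card)] at h
        have h1 := P.equivFin.symm.injective (Subtype.ext h)
        exact hij (congrArg Fin.val h1)
    · exact ⟨fun _ => 0, fun h => absurd h ht⟩
  choose pts hpts using hpts
  -- the pigeonhole principle
  let I : ℕ → ℕ := fun ν => min ν ⌊ε * ((ν : ℝ) + 1) / 2⌋₊
  have hI1 : ∀ ν, I ν ≤ ν := fun ν => min_le_left _ _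
  have hI2 : ∀ ν, (I ν : ℝ) ≤ ε * ((ν : ℝ) + 1) / 2 := fun ν => by
    have h1 : (I ν : ℝ) ≤ ((⌊ε * ((ν : ℝ) + 1) / 2⌋₊ : ℕ) : ℝ) :=
      Nat.cast_le.2 (min_le_right _ _)
    exact h1.trans (Nat.floor_le (by positivity))
  have hI3 : ∀ i, ∀ᶠ ν in (Uf : Filter ℕ), i < I ν := by
    intro i
    obtain ⟨k, hk⟩ := exists_nat_gt ((2 * ((i : ℝ) + 1)) / ε)
    filter_upwards [ev_ge (max k (i + 1))] with ν hν
    have h1 : k ≤ ν := (le_max_left _ _).trans hν
    have h2 : i + 1 ≤ ν := (le_max_right _ _).trans hν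
    refine lt_min (by omega) ?_
    rw [← Nat.add_one_le_iff, Nat.le_floor_iff (by positivity)]
    rw [div_lt_iff₀ hε] at hk
    have h3 : (k : ℝ) ≤ (ν : ℝ) := by exact_mod_cast h1
    push_cast
    nlinarith
  have hfib : ∀ ν, ∃ y : Fin (I ν) → ℚ, (ν : ℝ) * (X ν : ℝ) ^ (ε / 2) ≤
      (((S ν).filter fun t => (fun i : Fin (I ν) => (pol t).eval (pts ν t i)) = y).card : ℝ) := by
    intro ν
    rcases Finset.eq_empty_or_nonempty (S ν) with hSe | ⟨t₀, ht₀⟩
    · exfalso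
      have h1 := hcard ν
      rw [hSe, Finset.card_empty, Nat.cast_zero] at h1
      have : (0 : ℝ) ≤ (ν : ℝ) * (X ν : ℝ) ^ ε := by positivity
      linarith
    have hmaps : ∀ t ∈ S ν, (fun i : Fin (I ν) => (pol t).eval (pts ν t i)) ∈
        Fintype.piFinset fun _ : Fin (I ν) => V ν := by
      intro t ht
      rw [Fintype.mem_piFinset]
      intro i
      exact ((hpts ν t ht).1 i (by have := hI1 ν; omega)).2.2
    obtain ⟨y, -, hy⟩ := Finset.exists_le_card_fiber_of_nsmul_le_card_of_maps_to (M := ℝ)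
      hmaps ⟨_, hmaps t₀ ht₀⟩ (b := (ν : ℝ) * (X ν : ℝ) ^ (ε / 2)) (by
        rw [nsmul_eq_mul, Fintype.card_piFinset, Finset.prod_const, Finset.card_univ,
          Fintype.card_fin]
        refine le_trans ?_ (hcard ν).le
        push_cast
        have h1 : ((V ν).card : ℝ) ^ (I ν) ≤ (X ν : ℝ) ^ (ε / 2) := by
          calc ((V ν).card : ℝ) ^ (I ν) ≤ ((X ν : ℝ) ^ (1 / ((ν : ℝ) + 1))) ^ (I ν) :=
                pow_le_pow_left₀ (Nat.cast_nonneg _) (hV ν) _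
            _ = (X ν : ℝ) ^ (1 / ((ν : ℝ) + 1) * (I ν : ℝ)) := by
                rw [← Real.rpow_natCast, ← Real.rpow_mul (by linarith [hXR ν])]
            _ ≤ (X ν : ℝ) ^ (ε / 2) := by
                refine Real.rpow_le_rpow_of_exponent_le (hXR ν) ?_
                have h2 := hI2 ν
                rw [div_mul_eq_mul_div, one_mul, div_le_iff₀ (by positivity)]
                linarith
        calc ((V ν).card : ℝ) ^ (I ν) * ((ν : ℝ) * (X ν : ℝ) ^ (ε / 2)) ≤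
              (X ν : ℝ) ^ (ε / 2) * ((ν : ℝ) * (X ν : ℝ) ^ (ε / 2)) :=
              mul_le_mul_of_nonneg_right h1 (by positivity)
          _ = (ν : ℝ) * ((X ν : ℝ) ^ (ε / 2) * (X ν : ℝ) ^ (ε / 2)) := by ring
          _ = (ν : ℝ) * (X ν : ℝ) ^ ε := by
              rw [← Real.rpow_add (by linarith [hXR ν])]
              congr 2
              ring)
    exact ⟨y, hy⟩
  choose y hy using hfib
  obtain ⟨Om, hOm⟩ : ∃ Om : ℕ → Finset (Fin (d + 2) → ℤ), ∀ ν, Om ν = (S ν).filter fun t =>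
      (fun i : Fin (I ν) => (pol t).eval (pts ν t i)) = y ν := ⟨_, fun _ => rfl⟩
  have hOmS : ∀ ν, ∀ t ∈ Om ν, t ∈ S ν := by
    intro ν t ht
    rw [hOm] at ht
    exact (Finset.mem_filter.1 ht).1
  let c : ℕ → ℕ → ℚ := fun i ν => if h : i < I ν then y ν ⟨i, h⟩ else 0
  have hc : ∀ ν, ∀ t ∈ Om ν, ∀ i, i < I ν → (pol t).eval (pts ν t i) = c i ν := by
    intro ν t ht i hi
    rw [hOm] at ht
    have h1 := congrFun (Finset.mem_filter.1 ht).2 ⟨i, hi⟩
    show _ = dite _ _ _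
    rw [dif_pos hi]
    exact h1
  let e : ℕ → ℕ → ℤ := fun i ν => ((c i ν).den : ℤ)
  let p : ℕ → ℕ → ℤ := fun i ν => (c i ν).num
  have he0 : ∀ i ν, e i ν ≠ 0 := fun i ν => by
    show ((c i ν).den : ℤ) ≠ 0
    exact_mod_cast (c i ν).den_ne_zero
  let z : ℕ → ℕ → (Fin (d + 2) → ℤ) → ℤ := fun i ν t =>
    ((e i ν : ℚ) * (t (Fin.last d).castSucc : ℚ) * pts ν t i).num
  have hz : ∀ ν, ∀ t ∈ Om ν, ∀ i, i < I ν →
      ((z i ν t : ℤ) : ℚ) = (e i ν : ℚ) * (t (Fin.last d).castSucc : ℚ) * pts ν t i := by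
    intro ν t ht i hi
    obtain ⟨h1, h2, h3, -⟩ := hS ν t (hOmS ν t ht)
    obtain ⟨z', hz'⟩ := int_root hd t h2 h3 (pts ν t i) (c i ν) (hc ν t ht i hi)
    have h4 : (e i ν : ℚ) * (t (Fin.last d).castSucc : ℚ) * pts ν t i = (z' : ℚ) := by
      rw [hz']
      show (((c i ν).den : ℤ) : ℚ) * _ * _ = _
      push_cast
      ring
    show ((((e i ν : ℚ) * (t (Fin.last d).castSucc : ℚ) * pts ν t i).num : ℤ) : ℚ) = _
    rw [h4, Rat.num_intCast]
  have hxx : ∀ ν, ∀ t ∈ Om ν, ∀ i, i < I ν → xx e z i (ν, t) = pts ν t i := by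
    intro ν t ht i hi
    obtain ⟨h1, h2, h3, -⟩ := hS ν t (hOmS ν t ht)
    unfold xx
    have h4 : (e i ν : ℚ) * (t (Fin.last d).castSucc : ℚ) ≠ 0 :=
      mul_ne_zero (by exact_mod_cast he0 i ν) (by exact_mod_cast h2)
    rw [div_eq_iff h4]
    have := hz ν t ht i hi
    simp only at this ⊢
    rw [this]
    ring
  let Y : ℕ → ℕ := fun ν => (d + 1) ^ 2 * (X ν) ^ (2 * d + 6)
  have hYX : ∀ ν k, k ≤ 2 * d + 6 → (d + 1) * (X ν) ^ k ≤ Y ν := fun ν k hk =>
    Nat.mul_le_mul (by nlinarith) (Nat.pow_le_pow_right (hX1 ν) hk)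
  -- sizes
  have hXbig : ∀ m : ℕ, ∀ᶠ ν in (Uf : Filter ℕ), m ≤ X ν := by
    intro m
    filter_upwards [ev_ge ((2 * m + 1) ^ (d + 2) + 1)] with ν hν
    by_contra hlt
    push Not at hlt
    have h1 := card_box' (S ν) (fun c hc => (hS ν c hc).1)
    have h2 : (2 * X ν + 1) ^ (d + 2) ≤ (2 * m + 1) ^ (d + 2) :=
      Nat.pow_le_pow_left (by omega) _
    have h3 : (ν : ℝ) < ((S ν).card : ℝ) := by
      refine lt_of_le_of_lt ?_ (hcard ν)
      have : (1 : ℝ) ≤ (X ν : ℝ) ^ ε := Real.one_le_rpow (hXR ν) hε.le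
      nlinarith [(Nat.cast_nonneg ν : (0 : ℝ) ≤ (ν : ℝ))]
    have h4 : ν < (S ν).card := by exact_mod_cast h3
    omega
  have hY : ∀ m : ℕ, ∀ᶠ ν in (Uf : Filter ℕ), m ≤ Y ν := by
    intro m
    filter_upwards [hXbig m] with ν hν
    have h1 := hYX ν 1 (by omega)
    rw [pow_one] at h1
    nlinarith
  have hbig : Big Y Om := by
    have hpos : (0 : ℝ) < ε / (2 * (2 * d + 6)) := by positivity
    refine big_of_card (ε := ε / (2 * (2 * d + 6))) hpos (hY 2) ?_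
    obtain ⟨m, hm⟩ := exists_nat_gt ((((d + 1) ^ 2 : ℕ) : ℝ) ^ (ε / (2 * (2 * d + 6))))
    filter_upwards [ev_ge m] with ν hν
    have hX0 : (0 : ℝ) ≤ (X ν : ℝ) := Nat.cast_nonneg _
    have e2 : ((Y ν : ℕ) : ℝ) ^ (ε / (2 * (2 * d + 6))) =
        (((d + 1) ^ 2 : ℕ) : ℝ) ^ (ε / (2 * (2 * d + 6))) * (X ν : ℝ) ^ (ε / 2) := by
      show (((d + 1) ^ 2 * (X ν) ^ (2 * d + 6) : ℕ) : ℝ) ^ (ε / (2 * (2 * d + 6))) = _
      rw [Nat.cast_mul, Nat.cast_pow (X ν), Real.mul_rpow (by positivity) (by positivity),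
        ← Real.rpow_natCast (X ν : ℝ), ← Real.rpow_mul hX0]
      congr 2
      push_cast
      field_simp
    rw [e2]
    have h1 := hy ν
    rw [← hOm] at h1
    refine lt_of_lt_of_le ?_ h1
    refine mul_lt_mul_of_pos_right ?_ (by
      have := hXR ν
      positivity)
    have : (m : ℝ) ≤ (ν : ℝ) := by exact_mod_cast hν
    linarith
  have hval : ∀ i, ∀ᶠ ν in (Uf : Filter ℕ), |p i ν| ≤ (((d + 1) * X ν ^ (d + 1) : ℕ) : ℤ) ∧
      e i ν ≤ (((d + 1) * X ν ^ (d + 1) : ℕ) : ℤ) := by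
    intro i
    filter_upwards [hI3 i, hbig.nonempty] with ν h1 h2
    obtain ⟨t, ht⟩ := h2
    have h3 := hc ν t ht i h1
    obtain ⟨g1, -, g3, -⟩ := hS ν t (hOmS ν t ht)
    obtain ⟨h4, h5, -⟩ := (hpts ν t (hOmS ν t ht)).1 i (by have := hI1 ν; omega)
    have h6 := val_bound t g3 (hX1 ν) g1 h4 h5
    rw [h3] at h6
    exact h6
  have hepos : ∀ i ν, 0 < e i ν := fun i ν => by
    show 0 < ((c i ν).den : ℤ)
    exact_mod_cast (c i ν).den_pos
  have hcore := core hd hY hbig e p z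
    (fun i => Filter.Eventually.of_forall fun ν => he0 i ν)
    (fun i => by
      filter_upwards [hval i] with ν h1
      rw [abs_of_pos (hepos i ν)]
      exact h1.2.trans (by exact_mod_cast hYX ν (d + 1) (by omega)))
    (fun i => by
      filter_upwards [hval i] with ν h1
      exact h1.1.trans (by exact_mod_cast hYX ν (d + 1) (by omega)))
    (Filter.Eventually.of_forall fun ν t ht => ⟨(hS ν t (hOmS ν t ht)).2.1,
      (hS ν t (hOmS ν t ht)).2.2.1⟩)
    (Filter.Eventually.of_forall fun ν t ht j => by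
      have h1 := (hS ν t (hOmS ν t ht)).1 j
      have h2 := hYX ν 2 (by omega)
      have h3 : (t j) ^ 2 ≤ (X ν : ℤ) ^ 2 := sq_le_sq' (abs_le.1 h1).1 (abs_le.1 h1).2
      refine h3.trans ?_
      have h4 : (((d + 1) * X ν ^ 2 : ℕ) : ℤ) ≤ (Y ν : ℤ) := by exact_mod_cast h2
      push_cast at h4
      nlinarith [sq_nonneg (X ν : ℤ)])
    (fun i => by
      filter_upwards [hval i, hI3 i] with ν h1 h2 t ht
      obtain ⟨g1, -, g3, -⟩ := hS ν t (hOmS ν t ht)
      obtain ⟨h4, h5, -⟩ := (hpts ν t (hOmS ν t ht)).1 i (by have := hI1 ν; omega)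
      have h6 := hz ν t ht i h2
      have h7 : |pts ν t i| ≤ (X ν : ℚ) := by
        rw [← Rat.num_div_den (pts ν t i), abs_div, div_le_iff₀ (by
          rw [Nat.abs_cast]
          exact_mod_cast (pts ν t i).den_pos), Nat.abs_cast]
        have e1 : (|((pts ν t i).num : ℚ)|) ≤ (X ν : ℚ) := by exact_mod_cast h4
        have e2 : (1 : ℚ) ≤ ((pts ν t i).den : ℚ) := by exact_mod_cast (pts ν t i).den_pos
        have e3 : (0 : ℚ) ≤ (X ν : ℚ) := by positivity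
        nlinarith
      have h8 : |(t (Fin.last d).castSucc : ℚ)| ≤ (X ν : ℚ) := by
        exact_mod_cast g1 (Fin.last d).castSucc
      have h9 : |(e i ν : ℚ)| ≤ (((d + 1) * X ν ^ (d + 1) : ℕ) : ℚ) := by
        have := h1.2
        rw [← abs_of_pos (hepos i ν)] at this
        exact_mod_cast this
      have h10 : |((z i ν t : ℤ) : ℚ)| ≤ (((d + 1) * X ν ^ (d + 3) : ℕ) : ℚ) := by
        rw [h6, abs_mul, abs_mul]
        calc |(e i ν : ℚ)| * |(t (Fin.last d).castSucc : ℚ)| * |pts ν t i| ≤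
              (((d + 1) * X ν ^ (d + 1) : ℕ) : ℚ) * (X ν : ℚ) * (X ν : ℚ) :=
              mul_le_mul (mul_le_mul h9 h8 (abs_nonneg _) (by positivity)) h7 (abs_nonneg _)
                (by positivity)
          _ = _ := by
              push_cast
              ring
      have h11 : |z i ν t| ≤ (((d + 1) * X ν ^ (d + 3) : ℕ) : ℤ) := by exact_mod_cast h10
      have h12 := sq_le_sq' (abs_le.1 h11).1 (abs_le.1 h11).2
      refine h12.trans (le_of_eq ?_)
      show _ = (((d + 1) ^ 2 * (X ν) ^ (2 * d + 6) : ℕ) : ℤ)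
      push_cast
      ring)
    (fun i => by
      filter_upwards [hI3 i] with ν h1 t ht
      rw [hxx ν t ht i h1, hc ν t ht i h1]
      show _ = ((c i ν).num : ℚ) / (((c i ν).den : ℤ) : ℚ)
      rw [Int.cast_natCast, Rat.num_div_den])
    (fun i j hij => by
      filter_upwards [hI3 i, hI3 j] with ν h1 h2 t ht
      rw [hxx ν t ht i h1, hxx ν t ht j h2]
      exact (hpts ν t (hOmS ν t ht)).2 i j (by have := hI1 ν; omega) (by have := hI1 ν; omega) hij)
  obtain ⟨ν, t, ht, t', ht', hne, hA⟩ := hcore.exists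
  exact hcj ν t (hOmS ν t ht) t' (hOmS ν t' ht') hne hA

end Pool.Agent.R323.SE
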