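import Pool.Agent.R323.SE.N

/-!
# Values with a small radical
-/

set_option autoImplicit false

namespace Pool.Agent.R323.SE

open Filter

/-- the product of the primes dividing `n` -/
def rad (n : ℕ) : ℕ := ∏ p ∈ n.primeFactors, p

/-- the product of the primes dividing the numerator or the denominator -/
def radQ (c : ℚ) : ℕ := rad (c.num.natAbs * c.den)

theorem rad_pos (n : ℕ) : 1 ≤ rad n :=
  Finset.prod_pos fun _ hp => (Nat.prime_of_mem_primeFactors hp).pos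

theorem rad_le_of_dvd {a b : ℕ} (h : a ∣ b) (hb : b ≠ 0) : rad a ≤ rad b :=
  Finset.prod_le_prod_of_subset_of_one_le' (Nat.primeFactors_mono h hb)
    fun _ hp _ => (Nat.prime_of_mem_primeFactors hp).one_le

theorem split_power (m : ℕ) {n : ℕ} (hn : n ≠ 0) (hm : 1 ≤ m) :
    ∃ u v : ℕ, u ^ m * v = n ∧ v ≤ rad n ^ m := by
  classical
  refine ⟨∏ p ∈ n.primeFactors, p ^ (n.factorization p / m),
    ∏ p ∈ n.primeFactors, p ^ (n.factorization p % m), ?_, ?_⟩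
  · rw [← Finset.prod_pow, ← Finset.prod_mul_distrib]
    conv_rhs => rw [← Nat.prod_factorization_pow_eq_self hn]
    rw [Finsupp.prod, Nat.support_factorization]
    refine Finset.prod_congr rfl fun p _ => ?_
    rw [← pow_mul, ← pow_add]
    congr 1
    rw [mul_comm]
    exact Nat.div_add_mod _ _
  · unfold rad
    rw [← Finset.prod_pow]
    refine Finset.prod_le_prod (fun _ _ => Nat.zero_le _) fun p hp => ?_
    exact Nat.pow_le_pow_right (Nat.prime_of_mem_primeFactors hp).pos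
      (Nat.mod_lt _ (by omega)).le

/-- the integers at most `Z` with a radical at most `R` -/
def WW (Z R : ℕ) : Finset ℕ := (Finset.Icc 1 Z).filter fun n => rad n ≤ R

theorem card_WW {m Z R U : ℕ} (hm : 1 ≤ m) (hU : Z < (U + 1) ^ m) :
    (WW Z R).card ≤ (U + 1) * (R ^ m + 1) := by
  classical
  have h1 : ∀ n : ℕ, ∃ q : ℕ × ℕ, n ∈ WW Z R → q.1 ^ m * q.2 = n ∧ q.2 ≤ R ^ m := by
    intro n
    by_cases hn : n ∈ WW Z R
    · rw [WW, Finset.mem_filter, Finset.mem_Icc] at hn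
      obtain ⟨u, v, h1, h2⟩ := split_power m (n := n) (by omega) hm
      exact ⟨(u, v), fun _ => ⟨h1, h2.trans (Nat.pow_le_pow_left hn.2 _)⟩⟩
    · exact ⟨(0, 0), fun h => absurd h hn⟩
  choose q hq using h1
  have h2 : (WW Z R).card ≤ (Finset.range (U + 1) ×ˢ Finset.range (R ^ m + 1)).card := by
    refine Finset.card_le_card_of_injOn q ?_ ?_
    · intro n hn
      have hn' : n ∈ WW Z R := hn
      obtain ⟨h3, h4⟩ := hq n hn'
      rw [WW, Finset.mem_filter, Finset.mem_Icc] at hn'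
      have h5 : (q n).2 ≠ 0 := by
        intro h0
        rw [h0, mul_zero] at h3
        omega
      have h6 : (q n).1 ^ m ≤ n := by
        calc (q n).1 ^ m = (q n).1 ^ m * 1 := (mul_one _).symm
          _ ≤ (q n).1 ^ m * (q n).2 := Nat.mul_le_mul_left _ (by omega)
          _ = n := h3
      have h7 : (q n).1 < U + 1 := by
        by_contra hcon
        push Not at hcon
        have := Nat.pow_le_pow_left hcon m
        omega
      refine Finset.mem_coe.2 (Finset.mem_product.2 ⟨Finset.mem_range.2 h7, Finset.mem_range.2 ?_⟩)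
      omega
    · intro n hn n' hn' h
      rw [← (hq n hn).1, ← (hq n' hn').1, h]
  rw [Finset.card_product, Finset.card_range, Finset.card_range] at h2
  exact h2

/-- the rational numbers of height at most `Z` with a radical at most `R` -/
def VQ (Z R : ℕ) : Finset ℚ :=
  ((WW Z R ×ˢ WW Z R).image fun p => ((p.1 : ℕ) : ℚ) / ((p.2 : ℕ) : ℚ)) ∪
    (((WW Z R ×ˢ WW Z R).image fun p => -(((p.1 : ℕ) : ℚ) / ((p.2 : ℕ) : ℚ))) ∪ {0})

theorem card_VQ (Z R : ℕ) : (VQ Z R).card ≤ 2 * (WW Z R).card ^ 2 + 1 := by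
  classical
  unfold VQ
  refine (Finset.card_union_le _ _).trans ?_
  have h1 := Finset.card_image_le (s := WW Z R ×ˢ WW Z R)
    (f := fun p => ((p.1 : ℕ) : ℚ) / ((p.2 : ℕ) : ℚ))
  have h2 := Finset.card_image_le (s := WW Z R ×ˢ WW Z R)
    (f := fun p => -(((p.1 : ℕ) : ℚ) / ((p.2 : ℕ) : ℚ)))
  have h3 := Finset.card_union_le ((WW Z R ×ˢ WW Z R).image
    fun p => -(((p.1 : ℕ) : ℚ) / ((p.2 : ℕ) : ℚ))) ({0} : Finset ℚ)
  rw [Finset.card_singleton] at h3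
  rw [Finset.card_product] at h1 h2
  nlinarith

theorem mem_VQ {Z R : ℕ} {c : ℚ} (h1 : |c.num| ≤ (Z : ℤ)) (h2 : ((c.den : ℕ) : ℤ) ≤ (Z : ℤ))
    (h3 : radQ c ≤ R) : c ∈ VQ Z R := by
  classical
  by_cases hc : c = 0
  · rw [VQ, Finset.mem_union, Finset.mem_union, Finset.mem_singleton]
    exact Or.inr (Or.inr hc)
  have hn : c.num.natAbs ≠ 0 := by
    rw [Int.natAbs_ne_zero, Rat.num_ne_zero]
    exact hc
  have hnd : c.num.natAbs * c.den ≠ 0 := mul_ne_zero hn c.den_ne_zero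
  have hA : c.num.natAbs ∈ WW Z R := by
    rw [WW, Finset.mem_filter, Finset.mem_Icc]
    refine ⟨⟨by omega, ?_⟩, (rad_le_of_dvd (Dvd.intro _ rfl) hnd).trans h3⟩
    rw [Int.abs_eq_natAbs] at h1
    exact_mod_cast h1
  have hB : c.den ∈ WW Z R := by
    rw [WW, Finset.mem_filter, Finset.mem_Icc]
    refine ⟨⟨c.den_pos, by exact_mod_cast h2⟩, (rad_le_of_dvd (Dvd.intro_left _ rfl) hnd).trans h3⟩
  rcases le_total 0 c.num with h | h
  · refine Finset.mem_union_left _ (Finset.mem_image.2 ⟨(c.num.natAbs, c.den),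
      Finset.mem_product.2 ⟨hA, hB⟩, ?_⟩)
    have h4 : ((c.num.natAbs : ℕ) : ℚ) = (c.num : ℚ) := by
      rw [Nat.cast_natAbs, abs_of_nonneg h]
    show ((c.num.natAbs : ℕ) : ℚ) / (c.den : ℚ) = c
    rw [h4]
    exact Rat.num_div_den c
  · refine Finset.mem_union_right _ (Finset.mem_union_left _
      (Finset.mem_image.2 ⟨(c.num.natAbs, c.den), Finset.mem_product.2 ⟨hA, hB⟩, ?_⟩))
    have h4 : ((c.num.natAbs : ℕ) : ℚ) = -(c.num : ℚ) := by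
      rw [Nat.cast_natAbs, abs_of_nonpos h, Int.cast_neg]
    show -(((c.num.natAbs : ℕ) : ℚ) / (c.den : ℚ)) = c
    rw [h4, neg_div, neg_neg]
    exact Rat.num_div_den c

/-- there are few rational numbers with a small radical -/
theorem few_VQ (d : ℕ) (δ₀ : ℝ) (hδ₀ : 0 < δ₀) : ∃ (δ : ℝ) (X₀ : ℕ), 0 < δ ∧
    ∀ X : ℕ, X₀ ≤ X → 1 ≤ X →
      ((VQ ((d + 1) * X ^ (d + 1)) ⌊(X : ℝ) ^ δ⌋₊).card : ℝ) ≤ (X : ℝ) ^ δ₀ := by
  obtain ⟨m, hm⟩ := exists_nat_gt (max 1 (8 * ((d : ℝ) + 2) / δ₀))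
  have hm1 : (1 : ℝ) < m := lt_of_le_of_lt (le_max_left _ _) hm
  have hm1' : 1 ≤ m := by
    have : (1 : ℝ) < (m : ℝ) := hm1
    exact_mod_cast this.le
  have hm2 : ((d : ℝ) + 2) / m ≤ δ₀ / 8 := by
    have h1 := (le_max_right 1 (8 * ((d : ℝ) + 2) / δ₀)).trans_lt hm
    rw [div_lt_iff₀ hδ₀] at h1
    rw [div_le_div_iff₀ (by linarith) (by norm_num)]
    linarith
  obtain ⟨X₁, hX₁⟩ := exists_nat_gt ((33 : ℝ) ^ (2 / δ₀))
  refine ⟨δ₀ / (8 * m), max X₁ (d + 1), by positivity, fun X hX hX1 => ?_⟩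
  have hXR : (1 : ℝ) ≤ X := by exact_mod_cast hX1
  have hX0 : (0 : ℝ) < X := by linarith
  have hXd : d + 1 ≤ X := (le_max_right _ _).trans hX
  have hX33 : (33 : ℝ) ≤ (X : ℝ) ^ (δ₀ / 2) := by
    have h1 : (33 : ℝ) ^ (2 / δ₀) ≤ X := by
      have h2 : (X₁ : ℝ) ≤ X := by exact_mod_cast (le_max_left _ _).trans hX
      linarith
    calc (33 : ℝ) = ((33 : ℝ) ^ (2 / δ₀)) ^ (δ₀ / 2) := by
          rw [← Real.rpow_mul (by norm_num)]
          rw [show 2 / δ₀ * (δ₀ / 2) = 1 by field_simp, Real.rpow_one]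
      _ ≤ (X : ℝ) ^ (δ₀ / 2) := Real.rpow_le_rpow (by positivity) h1 (by positivity)
  obtain ⟨Z, hZ⟩ : ∃ Z, Z = (d + 1) * X ^ (d + 1) := ⟨_, rfl⟩
  obtain ⟨R, hR⟩ : ∃ R, R = ⌊(X : ℝ) ^ (δ₀ / (8 * m))⌋₊ := ⟨_, rfl⟩
  rw [← hZ, ← hR]
  have hZ1 : (Z : ℝ) ≤ (X : ℝ) ^ ((d : ℝ) + 2) := by
    have h1 : Z ≤ X ^ (d + 2) := by
      rw [hZ, pow_succ' X (d + 1)]
      exact Nat.mul_le_mul_right _ hXd
    have h2 : (X : ℝ) ^ ((d : ℝ) + 2) = (X : ℝ) ^ (d + 2) := by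
      rw [← Real.rpow_natCast]
      congr 1
      push_cast
      ring
    rw [h2]
    exact_mod_cast h1
  obtain ⟨U, hU⟩ : ∃ U, U = ⌊(Z : ℝ) ^ (1 / (m : ℝ))⌋₊ := ⟨_, rfl⟩
  have hmpos : (0 : ℝ) < m := by linarith
  have hU1 : Z < (U + 1) ^ m := by
    have h1 : (Z : ℝ) ^ (1 / (m : ℝ)) < (U : ℝ) + 1 := by
      rw [hU]
      exact Nat.lt_floor_add_one _
    have h2 : (Z : ℝ) < ((U : ℝ) + 1) ^ m := by
      calc (Z : ℝ) = ((Z : ℝ) ^ (1 / (m : ℝ))) ^ m := by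
            rw [← Real.rpow_natCast, ← Real.rpow_mul (Nat.cast_nonneg _), one_div,
              inv_mul_cancel₀ hmpos.ne', Real.rpow_one]
        _ < ((U : ℝ) + 1) ^ m := pow_lt_pow_left₀ h1 (by positivity) (by omega)
    exact_mod_cast h2
  have hU2 : (U : ℝ) + 1 ≤ 2 * (X : ℝ) ^ (δ₀ / 8) := by
    have h1 : (U : ℝ) ≤ (Z : ℝ) ^ (1 / (m : ℝ)) := by
      rw [hU]
      exact Nat.floor_le (by positivity)
    have h2 : (Z : ℝ) ^ (1 / (m : ℝ)) ≤ (X : ℝ) ^ (δ₀ / 8) := by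
      calc (Z : ℝ) ^ (1 / (m : ℝ)) ≤ ((X : ℝ) ^ ((d : ℝ) + 2)) ^ (1 / (m : ℝ)) :=
            Real.rpow_le_rpow (Nat.cast_nonneg _) hZ1 (by positivity)
        _ = (X : ℝ) ^ (((d : ℝ) + 2) / m) := by
            rw [← Real.rpow_mul hX0.le]
            congr 1
            ring
        _ ≤ _ := Real.rpow_le_rpow_of_exponent_le hXR hm2
    have h3 : (1 : ℝ) ≤ (X : ℝ) ^ (δ₀ / 8) := Real.one_le_rpow hXR (by positivity)
    linarith
  have hR1 : ((R : ℕ) : ℝ) ^ m + 1 ≤ 2 * (X : ℝ) ^ (δ₀ / 8) := by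
    have h1 : (R : ℝ) ≤ (X : ℝ) ^ (δ₀ / (8 * m)) := by
      rw [hR]
      exact Nat.floor_le (by positivity)
    have h2 : (R : ℝ) ^ m ≤ (X : ℝ) ^ (δ₀ / 8) := by
      calc (R : ℝ) ^ m ≤ ((X : ℝ) ^ (δ₀ / (8 * m))) ^ m := pow_le_pow_left₀ (Nat.cast_nonneg _) h1 _
        _ = (X : ℝ) ^ (δ₀ / 8) := by
            rw [← Real.rpow_natCast, ← Real.rpow_mul hX0.le]
            congr 1
            field_simp
    have h3 : (1 : ℝ) ≤ (X : ℝ) ^ (δ₀ / 8) := Real.one_le_rpow hXR (by positivity)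
    linarith
  have hW : ((WW Z R).card : ℝ) ≤ 4 * (X : ℝ) ^ (δ₀ / 4) := by
    have h1 : ((WW Z R).card : ℝ) ≤ ((U : ℝ) + 1) * ((R : ℝ) ^ m + 1) := by
      exact_mod_cast card_WW hm1' hU1
    refine h1.trans ((mul_le_mul hU2 hR1 (by positivity) (by positivity)).trans (le_of_eq ?_))
    have h2 : (X : ℝ) ^ (δ₀ / 4) = (X : ℝ) ^ (δ₀ / 8) * (X : ℝ) ^ (δ₀ / 8) := by
      rw [← Real.rpow_add hX0]
      congr 1
      ring
    rw [h2]
    ring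
  have hV : ((VQ Z R).card : ℝ) ≤ 2 * ((WW Z R).card : ℝ) ^ 2 + 1 := by
    exact_mod_cast card_VQ Z R
  have h4 : ((WW Z R).card : ℝ) ^ 2 ≤ 16 * (X : ℝ) ^ (δ₀ / 2) := by
    calc ((WW Z R).card : ℝ) ^ 2 ≤ (4 * (X : ℝ) ^ (δ₀ / 4)) ^ 2 :=
          pow_le_pow_left₀ (Nat.cast_nonneg _) hW _
      _ = 16 * ((X : ℝ) ^ (δ₀ / 4) * (X : ℝ) ^ (δ₀ / 4)) := by ring
      _ = 16 * (X : ℝ) ^ (δ₀ / 2) := by
          rw [← Real.rpow_add hX0]
          congr 2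
          ring
  have h5 : (1 : ℝ) ≤ (X : ℝ) ^ (δ₀ / 2) := Real.one_le_rpow hXR (by positivity)
  have h6 : (X : ℝ) ^ δ₀ = (X : ℝ) ^ (δ₀ / 2) * (X : ℝ) ^ (δ₀ / 2) := by
    rw [← Real.rpow_add hX0]
    congr 1
    ring
  rw [h6]
  nlinarith

/-- **Values with a small radical.** -/
theorem small_radical (d : ℕ) (hd : 1 ≤ d) (ε : ℝ) (hε : 0 < ε) : ∃ (N : ℕ) (δ C : ℝ), 0 < δ ∧
    ∀ X : ℕ, 1 ≤ X → ∀ S : Finset (Fin (d + 2) → ℤ),
      (∀ t ∈ S, (∀ j, |t j| ≤ (X : ℤ)) ∧ t (Fin.last d).castSucc ≠ 0 ∧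
        t (Fin.last (d + 1)) ≠ 0 ∧ ∃ P : Finset ℚ, N < P.card ∧ ∀ x ∈ P, |x.num| ≤ (X : ℤ) ∧
          ((x.den : ℕ) : ℤ) ≤ (X : ℤ) ∧ (radQ ((pol t).eval x) : ℝ) ≤ (X : ℝ) ^ δ) →
      (∀ t ∈ S, ∀ t' ∈ S, t ≠ t' → ¬ Aff (pol t) (pol t')) → (S.card : ℝ) ≤ C * (X : ℝ) ^ ε := by
  obtain ⟨N, δ₀, C, hδ₀, h⟩ := small_values d hd ε hε
  obtain ⟨δ, X₀, hδ, hX₀⟩ := few_VQ d δ₀ hδ₀
  refine ⟨N, δ, max C (((2 * X₀ + 1) ^ (d + 2) : ℕ) : ℝ), hδ, fun X hX S hS hA => ?_⟩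
  have hXR : (1 : ℝ) ≤ X := by exact_mod_cast hX
  have hXε : (1 : ℝ) ≤ (X : ℝ) ^ ε := Real.one_le_rpow hXR hε.le
  rcases lt_or_ge X X₀ with hlt | hge
  · have h1 := card_box' S (fun c hc => (hS c hc).1)
    have h2 : (2 * X + 1) ^ (d + 2) ≤ (2 * X₀ + 1) ^ (d + 2) := Nat.pow_le_pow_left (by omega) _
    have h3 : (S.card : ℝ) ≤ (((2 * X₀ + 1) ^ (d + 2) : ℕ) : ℝ) := by exact_mod_cast h1.trans h2
    calc (S.card : ℝ) ≤ (((2 * X₀ + 1) ^ (d + 2) : ℕ) : ℝ) := h3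
      _ ≤ max C (((2 * X₀ + 1) ^ (d + 2) : ℕ) : ℝ) := le_max_right _ _
      _ = max C (((2 * X₀ + 1) ^ (d + 2) : ℕ) : ℝ) * 1 := (mul_one _).symm
      _ ≤ _ := mul_le_mul_of_nonneg_left hXε ((Nat.cast_nonneg _).trans (le_max_right _ _))
  · refine (h X hX _ (hX₀ X hge hX) S ?_ hA).trans
      (mul_le_mul_of_nonneg_right (le_max_left _ _) (by linarith))
    intro t ht
    obtain ⟨h1, h2, h3, P, hP, hP2⟩ := hS t ht
    refine ⟨h1, h2, h3, P, hP, fun x hx => ?_⟩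
    obtain ⟨h4, h5, h6⟩ := hP2 x hx
    have h7 := val_bound t h3 hX h1 h4 h5
    exact ⟨h4, h5, mem_VQ h7.1 h7.2 (Nat.le_floor h6)⟩

end Pool.Agent.R323.SE
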