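import Pool.Agent.R323.SE.P

/-!
# Values which are almost full
-/

set_option autoImplicit false

namespace Pool.Agent.R323.SE

open Filter

/-- the coefficients of `f` are fractions with a common denominator, all of these integers having
absolute value at most `Y` -/
def HeightLe (f : Polynomial ℚ) (Y : ℕ) : Prop :=
  ∃ q : ℤ, q ≠ 0 ∧ |q| ≤ (Y : ℤ) ∧ ∀ i, ∃ a : ℤ, |a| ≤ (Y : ℤ) ∧ f.coeff i = (a : ℚ) / (q : ℚ)

theorem exists_pol {d : ℕ} {f : Polynomial ℚ} {Y : ℕ} (hf : f.natDegree = d)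
    (h : HeightLe f Y) (hd : 1 ≤ d) : ∃ t : Fin (d + 2) → ℤ, pol t = f ∧ (∀ j, |t j| ≤ (Y : ℤ)) ∧
      t (Fin.last d).castSucc ≠ 0 ∧ t (Fin.last (d + 1)) ≠ 0 := by
  classical
  obtain ⟨q, hq, hqY, ha⟩ := h
  choose a ha1 ha2 using ha
  have hf0 : f ≠ 0 := by
    rintro rfl
    rw [Polynomial.natDegree_zero] at hf
    omega
  refine ⟨Fin.snoc (α := fun _ => ℤ) (fun j : Fin (d + 1) => a j) q, ?_, ?_, ?_, ?_⟩
  · unfold pol
    rw [Polynomial.as_sum_range_C_mul_X_pow f, hf, Finset.sum_range]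
    refine Finset.sum_congr rfl fun j _ => ?_
    rw [Fin.snoc_castSucc, Fin.snoc_last, ha2]
  · intro j
    refine Fin.lastCases ?_ (fun j => ?_) j
    · rw [Fin.snoc_last]
      exact hqY
    · rw [Fin.snoc_castSucc]
      exact ha1 _
  · rw [Fin.snoc_castSucc, Fin.val_last]
    intro h0
    have h1 := ha2 d
    rw [h0, Int.cast_zero, zero_div] at h1
    have h2 : f.leadingCoeff = 0 := by
      rw [Polynomial.leadingCoeff, hf, h1]
    exact hf0 (Polynomial.leadingCoeff_eq_zero.1 h2)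
  · rw [Fin.snoc_last]
    exact hq

theorem card_poly {d : ℕ} (hd : 1 ≤ d) {Y : ℕ} (S : Finset (Polynomial ℚ))
    (hS : ∀ f ∈ S, f.natDegree = d ∧ HeightLe f Y) : S.card ≤ (2 * Y + 1) ^ (d + 2) := by
  classical
  have h1 : ∀ f : Polynomial ℚ, ∃ t : Fin (d + 2) → ℤ, f ∈ S → pol t = f ∧
      ∀ j, |t j| ≤ (Y : ℤ) := by
    intro f
    by_cases hf : f ∈ S
    · obtain ⟨t, h2, h3, -⟩ := exists_pol (hS f hf).1 (hS f hf).2 hd
      exact ⟨t, fun _ => ⟨h2, h3⟩⟩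
    · exact ⟨fun _ => 0, fun h => absurd h hf⟩
  choose t ht using h1
  have h2 : (S.image t).card = S.card := Finset.card_image_of_injOn (by
    intro f hf g hg h
    have h3 : t f = t g := h
    rw [← (ht f hf).1, ← (ht g hg).1, h3])
  rw [← h2]
  refine card_box' _ ?_
  intro c hc
  obtain ⟨f, hf, rfl⟩ := Finset.mem_image.1 hc
  exact (ht f hf).2

theorem radical_poly (d A : ℕ) (hd : 1 ≤ d) (hA : 1 ≤ A) (ε : ℝ) (hε : 0 < ε) :
    ∃ (N : ℕ) (δ C : ℝ), 0 < δ ∧ ∀ Y : ℕ, 1 ≤ Y → ∀ S : Finset (Polynomial ℚ),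
      (∀ f ∈ S, f.natDegree = d ∧ HeightLe f Y ∧ ∃ P : Finset ℚ, N < P.card ∧ ∀ x ∈ P,
        |x.num| ≤ (Y : ℤ) ^ A ∧ (x.den : ℤ) ≤ (Y : ℤ) ^ A ∧
          (radQ (f.eval x) : ℝ) ≤ (Y : ℝ) ^ δ) →
      (∀ f ∈ S, ∀ g ∈ S, f ≠ g → ¬ Aff f g) → (S.card : ℝ) ≤ C * (Y : ℝ) ^ ε := by
  classical
  have hAR : (0 : ℝ) < A := by exact_mod_cast hA
  obtain ⟨N, δ, C, hδ, h⟩ := small_radical d hd (ε / A) (by positivity)
  refine ⟨N, A * δ, C, by positivity, fun Y hY S hS hAff => ?_⟩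
  have hYR : (1 : ℝ) ≤ Y := by exact_mod_cast hY
  have h1 : ∀ f : Polynomial ℚ, ∃ t : Fin (d + 2) → ℤ, f ∈ S → pol t = f ∧
      (∀ j, |t j| ≤ (Y : ℤ)) ∧ t (Fin.last d).castSucc ≠ 0 ∧ t (Fin.last (d + 1)) ≠ 0 := by
    intro f
    by_cases hf : f ∈ S
    · obtain ⟨t, h2⟩ := exists_pol (hS f hf).1 (hS f hf).2.1 hd
      exact ⟨t, fun _ => h2⟩
    · exact ⟨fun _ => 0, fun h => absurd h hf⟩
  choose t ht using h1
  have h2 : (S.image t).card = S.card := Finset.card_image_of_injOn (by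
    intro f hf g hg h
    have h3 : t f = t g := h
    rw [← (ht f hf).1, ← (ht g hg).1, h3])
  have hYA : Y ≤ Y ^ A := by
    calc Y = Y ^ 1 := (pow_one _).symm
      _ ≤ Y ^ A := Nat.pow_le_pow_right hY hA
  have h3 := h (Y ^ A) (Nat.one_le_pow _ _ hY) (S.image t) ?_ ?_
  · rw [h2] at h3
    refine h3.trans (le_of_eq ?_)
    congr 1
    push_cast
    rw [← Real.rpow_natCast, ← Real.rpow_mul (by linarith)]
    congr 1
    field_simp
  · intro c hc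
    obtain ⟨f, hf, rfl⟩ := Finset.mem_image.1 hc
    obtain ⟨h4, h5, h6, h7⟩ := ht f hf
    obtain ⟨-, -, P, hP, hP2⟩ := hS f hf
    refine ⟨fun j => (h5 j).trans (by exact_mod_cast hYA), h6, h7, P, hP, fun x hx => ?_⟩
    obtain ⟨h8, h9, h10⟩ := hP2 x hx
    refine ⟨by push_cast; exact h8, by push_cast; exact h9, ?_⟩
    rw [h4]
    refine h10.trans (le_of_eq ?_)
    push_cast
    rw [← Real.rpow_natCast, ← Real.rpow_mul (by linarith)]
  · intro c hc c' hc' hne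
    obtain ⟨f, hf, rfl⟩ := Finset.mem_image.1 hc
    obtain ⟨g, hg, rfl⟩ := Finset.mem_image.1 hc'
    rw [(ht f hf).1, (ht g hg).1]
    exact hAff f hf g hg fun h => hne (by rw [h])

theorem rad_full {n m : ℕ} (hn : n ≠ 0) (T : Finset ℕ) (hT : ∀ p ∈ T, p.Prime)
    (h : ∀ p : ℕ, p.Prime → p ∣ n → p ∉ T → p ^ m ∣ n) :
    rad n ^ m ≤ (∏ p ∈ T, p) ^ m * n := by
  classical
  have h1 : rad n ^ m ≤ ∏ p ∈ n.primeFactors, ((if p ∈ T then p ^ m else 1) *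
      p ^ n.factorization p) := by
    unfold rad
    rw [← Finset.prod_pow]
    refine Finset.prod_le_prod (fun _ _ => Nat.zero_le _) fun p hp => ?_
    have hpp := Nat.prime_of_mem_primeFactors hp
    split_ifs with hpT
    · exact Nat.le_mul_of_pos_right _ (pow_pos hpp.pos _)
    · rw [one_mul]
      refine Nat.pow_le_pow_right hpp.pos ?_
      exact (hpp.pow_dvd_iff_le_factorization hn).1 (h p hpp (Nat.dvd_of_mem_primeFactors hp) hpT)
  refine h1.trans ?_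
  rw [Finset.prod_mul_distrib]
  refine Nat.mul_le_mul ?_ (le_of_eq ?_)
  · rw [← Finset.prod_filter, ← Finset.prod_pow]
    refine Finset.prod_le_prod_of_subset_of_one_le' ?_ ?_
    · intro p hp
      exact (Finset.mem_filter.1 hp).2
    · intro p hp _
      exact Nat.one_le_pow _ _ (hT p hp).pos
  · conv_rhs => rw [← Nat.prod_factorization_pow_eq_self hn]
    rw [Finsupp.prod, Nat.support_factorization]

/-- the prime `p` divides the numerator or the denominator of `z` to a power at least `n`, or not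
at all -/
def FullAt (n p : ℕ) (z : ℚ) : Prop :=
  p ∣ z.num.natAbs * z.den → p ^ n ∣ z.num.natAbs * z.den

theorem full_poly (d A : ℕ) (hd : 1 ≤ d) (hA : 1 ≤ A) (ε : ℝ) (hε : 0 < ε) :
    ∃ (N n₀ : ℕ) (δ C : ℝ), 0 < δ ∧ 1 ≤ n₀ ∧ ∀ Y : ℕ, 1 ≤ Y → ∀ S : Finset (Polynomial ℚ),
      (∀ f ∈ S, f.natDegree = d ∧ HeightLe f Y ∧ ∃ P : Finset ℚ, N < P.card ∧ ∀ x ∈ P,
        |x.num| ≤ (Y : ℤ) ^ A ∧ (x.den : ℤ) ≤ (Y : ℤ) ^ A ∧ f.eval x ≠ 0 ∧
          ∃ T : Finset ℕ, (∀ p ∈ T, p.Prime) ∧ ((∏ p ∈ T, p : ℕ) : ℝ) ≤ (Y : ℝ) ^ δ ∧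
            ∃ n : ℕ, n₀ ≤ n ∧ ∀ p : ℕ, p.Prime → p ∉ T → FullAt n p (f.eval x)) →
      (∀ f ∈ S, ∀ g ∈ S, f ≠ g → ¬ Aff f g) → (S.card : ℝ) ≤ C * (Y : ℝ) ^ ε := by
  classical
  obtain ⟨N, δ, C, hδ, h⟩ := radical_poly d A hd hA ε hε
  obtain ⟨n₀, hn₀⟩ := exists_nat_gt ((2 * d + 2 * (A * (d + 1)) : ℝ) / (δ / 2))
  have hn₀' : (2 * d + 2 * (A * (d + 1)) : ℝ) ≤ δ / 2 * n₀ := by
    rw [div_lt_iff₀ (by positivity)] at hn₀
    linarith
  have hn₀1 : 1 ≤ n₀ := by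
    rcases Nat.eq_zero_or_pos n₀ with h0 | h0
    · exfalso
      rw [h0] at hn₀'
      have : (1 : ℝ) ≤ d := by exact_mod_cast hd
      have hA0 : (0 : ℝ) ≤ A * (d + 1) := by positivity
      push_cast at hn₀'
      linarith
    · exact h0
  refine ⟨N, n₀, δ / 2, max C ((3 ^ (d + 2) : ℕ) : ℝ), by positivity, hn₀1,
    fun Y hY S hS hAff => ?_⟩
  have hYR : (1 : ℝ) ≤ Y := by exact_mod_cast hY
  have hYε : (1 : ℝ) ≤ (Y : ℝ) ^ ε := Real.one_le_rpow hYR hε.le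
  rcases Nat.lt_or_ge Y 2 with hY2 | hY2
  · have h1 := card_poly hd S (Y := Y) (fun f hf => ⟨(hS f hf).1, (hS f hf).2.1⟩)
    have hY1 : Y = 1 := by omega
    have h3 : (S.card : ℝ) ≤ ((3 ^ (d + 2) : ℕ) : ℝ) := by
      rw [hY1] at h1
      exact_mod_cast h1
    calc (S.card : ℝ) ≤ ((3 ^ (d + 2) : ℕ) : ℝ) := h3
      _ ≤ max C ((3 ^ (d + 2) : ℕ) : ℝ) := le_max_right _ _
      _ = max C ((3 ^ (d + 2) : ℕ) : ℝ) * 1 := (mul_one _).symm
      _ ≤ _ := mul_le_mul_of_nonneg_left hYε ((Nat.cast_nonneg _).trans (le_max_right _ _))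
  · refine (h Y hY S ?_ hAff).trans
      (mul_le_mul_of_nonneg_right (le_max_left _ _) (by linarith))
    intro f hf
    obtain ⟨h1, h2, P, hP, hP2⟩ := hS f hf
    refine ⟨h1, h2, P, hP, fun x hx => ?_⟩
    obtain ⟨h3, h4, h5, T, hT, hTY, n, hn, hfull⟩ := hP2 x hx
    refine ⟨h3, h4, ?_⟩
    obtain ⟨t, ht1, ht2, ht3, ht4⟩ := exists_pol h1 h2 hd
    have hYA : Y ≤ Y ^ A := by
      calc Y = Y ^ 1 := (pow_one _).symm
        _ ≤ Y ^ A := Nat.pow_le_pow_right hY hA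
    have h6 := val_bound t ht4 (Y := Y ^ A) (Nat.one_le_pow _ _ hY)
      (fun j => (ht2 j).trans (by exact_mod_cast hYA)) (x := x) (by push_cast; exact h3)
      (by push_cast; exact h4)
    rw [ht1] at h6
    have hz : (f.eval x).num.natAbs * (f.eval x).den ≠ 0 :=
      mul_ne_zero (Int.natAbs_ne_zero.2 (Rat.num_ne_zero.2 h5)) (f.eval x).den_ne_zero
    have h7 := rad_full (m := n) hz T hT (fun p hp hpd hpT => hfull p hp hpT hpd)
    have h8 : (f.eval x).num.natAbs * (f.eval x).den ≤ ((d + 1) * (Y ^ A) ^ (d + 1)) ^ 2 := by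
      rw [sq]
      refine Nat.mul_le_mul ?_ ?_
      · have := h6.1
        rw [Int.abs_eq_natAbs] at this
        exact_mod_cast this
      · exact_mod_cast h6.2
    have h9 : ((d + 1) * (Y ^ A) ^ (d + 1)) ^ 2 ≤ Y ^ (2 * d + 2 * (A * (d + 1))) := by
      have e1 : d + 1 ≤ Y ^ d := by
        calc d + 1 ≤ 2 ^ d := Nat.lt_two_pow_self
          _ ≤ Y ^ d := Nat.pow_le_pow_left hY2 _
      calc ((d + 1) * (Y ^ A) ^ (d + 1)) ^ 2 ≤ (Y ^ d * (Y ^ A) ^ (d + 1)) ^ 2 :=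
            Nat.pow_le_pow_left (Nat.mul_le_mul_right _ e1) _
        _ = _ := by
            rw [← pow_mul, ← pow_add, ← pow_mul]
            congr 1
            ring
    have h10 : (radQ (f.eval x) : ℝ) ^ n ≤ ((Y : ℝ) ^ δ) ^ n := by
      have e1 : (radQ (f.eval x) : ℝ) ^ n ≤ ((∏ p ∈ T, p : ℕ) : ℝ) ^ n *
          (Y : ℝ) ^ (2 * d + 2 * (A * (d + 1))) := by
        have := h7.trans (Nat.mul_le_mul_left _ (h8.trans h9))
        exact_mod_cast this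
      refine e1.trans ?_
      have e2 : (Y : ℝ) ^ (2 * d + 2 * (A * (d + 1))) ≤ ((Y : ℝ) ^ (δ / 2)) ^ n := by
        rw [← Real.rpow_natCast ((Y : ℝ) ^ (δ / 2)), ← Real.rpow_mul (by linarith),
          ← Real.rpow_natCast (Y : ℝ)]
        refine Real.rpow_le_rpow_of_exponent_le hYR ?_
        have e3 : (n₀ : ℝ) ≤ n := by exact_mod_cast hn
        push_cast
        nlinarith
      calc ((∏ p ∈ T, p : ℕ) : ℝ) ^ n * (Y : ℝ) ^ (2 * d + 2 * (A * (d + 1)))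
          ≤ ((Y : ℝ) ^ (δ / 2)) ^ n * ((Y : ℝ) ^ (δ / 2)) ^ n :=
            mul_le_mul (pow_le_pow_left₀ (Nat.cast_nonneg _) hTY _) e2 (by positivity)
              (by positivity)
        _ = ((Y : ℝ) ^ δ) ^ n := by
            rw [← mul_pow, ← Real.rpow_add (by linarith)]
            congr 2
            ring
    exact le_of_pow_le_pow_left₀ (by omega) (by positivity) h10

end Pool.Agent.R323.SE
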