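import Pool.Agent.R323.DM2
import Pool.Agent.Y394.GN.Alg

/-!
# Relations with uniform degrees, and function field data with a given basis
-/

set_option autoImplicit false

namespace Pool.Agent.R323.SE

open Filter MvPolynomial Pool.Agent.Y902.GN Pool.Agent.R323

/-- **Relations** whose degree depends on the number of parameters and the size only. -/
theorem relationU (d m : ℕ) : ∃ D : ℕ, ∀ (Y : ℕ → ℕ) (N : ℕ) (Om : ℕ → Finset (Fin N → ℤ)),
    (∀ m : ℕ, ∀ᶠ ν in (Uf : Filter ℕ), m ≤ Y ν) → Gen Y Om →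
    (∀ᶠ ν in (Uf : Filter ℕ), Y ν + 2 ≤ (Om ν).card ^ m) → ∀ F : FF Y Om, F.d = d → Bd Y Om →
    ∀ U V : MvPolynomial (Fin N) (OO Y), V ∉ JI Y Om → LT Y Om U V →
    ∃ c : (Fin F.d → Fin (D + 1)) × Fin (D + 1) → OO Y, c ≠ 0 ∧
      ∑ e, C (c e) * ((∏ i, X (F.ι i) ^ (e.1 i : ℕ)) *
        (U ^ (e.2 : ℕ) * V ^ (D - (e.2 : ℕ)))) ∈ JI Y Om := by
  classical
  obtain ⟨k, hk⟩ : ∃ k, k = 4 * (2 * d + 7) * (2 * m) + 1 := ⟨_, rfl⟩
  have hk1 : 1 ≤ k := by omega
  obtain ⟨D, ρ, X₀, hS⟩ := S_P d k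
  refine ⟨D, ?_⟩
  intro Y N Om hY hG hm F hF hb U V hV hLT
  subst hF
  have hprime := hG.isPrime hY
  obtain ⟨xx, hX⟩ := rootX Y k hk1
  -- the representatives
  obtain ⟨nU, U', hU'⟩ := rep_sb F U
  obtain ⟨nV, V', hV'⟩ := rep_sb F V
  obtain ⟨U1, hU1⟩ : ∃ U1, U1 = rename some F.B₀ ^ nV * U' := ⟨_, rfl⟩
  obtain ⟨V1, hV1⟩ : ∃ V1, V1 = rename some F.B₀ ^ nU * V' := ⟨_, rfl⟩
  have eU : rename F.ι F.B₀ ^ (nU + nV) * U - sb F.ι F.A U1 ∈ JI Y Om := by
    have e : rename F.ι F.B₀ ^ (nU + nV) * U - sb F.ι F.A U1 =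
        rename F.ι F.B₀ ^ nV * (rename F.ι F.B₀ ^ nU * U - sb F.ι F.A U') := by
      rw [hU1, map_mul, map_pow, sb_rename, pow_add]
      ring
    rw [e]
    exact Ideal.mul_mem_left _ _ hU'
  have eV : rename F.ι F.B₀ ^ (nU + nV) * V - sb F.ι F.A V1 ∈ JI Y Om := by
    have e : rename F.ι F.B₀ ^ (nU + nV) * V - sb F.ι F.A V1 =
        rename F.ι F.B₀ ^ nU * (rename F.ι F.B₀ ^ nV * V - sb F.ι F.A V') := by
      rw [hV1, map_mul, map_pow, sb_rename, pow_add]
      ring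
    rw [e]
    exact Ideal.mul_mem_left _ _ hV'
  have hB : rename F.ι F.B₀ ∉ JI Y Om := by
    have := F.B0_notMem
    unfold FF.B0 at this
    rwa [sb_rename] at this
  have hV1n : sb F.ι F.A V1 ∉ JI Y Om := by
    intro h
    have h1 : rename F.ι F.B₀ ^ (nU + nV) * V ∈ JI Y Om := by
      have := Ideal.add_mem _ eV h
      rwa [sub_add_cancel] at this
    rcases hprime.mem_or_mem h1 with h2 | h2
    · exact hB (hprime.mem_of_pow_mem _ h2)
    · exact hV h2
  have hgn : sb F.ι F.A (pderiv none F.H * V1) ∉ JI Y Om := by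
    rw [map_mul]
    intro h
    rcases hprime.mem_or_mem h with h2 | h2
    · exact F.HT h2
    · exact hV1n h2
  -- the polynomial whose zeros are avoided
  obtain ⟨Z, hZ⟩ : ∃ Z : ℕ → Finset (Fin N → ℤ), ∀ ν t, t ∈ Z ν ↔ t ∈ Om ν ∧
      eval (F.sp ν t) (pderiv none (sq F.H ν) * sq V1 ν) ≠ 0 :=
    ⟨fun ν => (Om ν).filter fun t => eval (F.sp ν t) (pderiv none (sq F.H ν) * sq V1 ν) ≠ 0,
      fun ν t => Finset.mem_filter⟩
  have hgr : Re (pderiv none F.H * V1) (fun ν => pderiv none (sq F.H ν) * sq V1 ν) :=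
    ((Re.sq F.H).pderiv none).mul (Re.sq V1)
  have hZm : ∀ᶠ ν in (Uf : Filter ℕ), Y ν + 2 ≤ (Z ν).card ^ (2 * m) := by
    have h1 : ¬ Big Y (fun ν => (Om ν).filter fun t =>
        eval (F.sp ν t) (pderiv none (sq F.H ν) * sq V1 ν) = 0) :=
      F.notBig hG hgr hgn (Filter.Eventually.of_forall fun ν => Finset.filter_subset _ _)
        (Filter.Eventually.of_forall fun ν t ht => (Finset.mem_filter.1 ht).2)
    have h2 : ∀ᶠ ν in (Uf : Filter ℕ), ¬ (Y ν + 2 ≤ ((Om ν).filter fun t =>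
        eval (F.sp ν t) (pderiv none (sq F.H ν) * sq V1 ν) = 0).card ^ (2 * m)) := by
      rw [ev_not]
      intro h
      exact h1 ⟨2 * m, h⟩
    filter_upwards [hm, h2, hY (4 ^ m)] with ν a b c
    have e : (Om ν).card = (Z ν).card + ((Om ν).filter fun t =>
        eval (F.sp ν t) (pderiv none (sq F.H ν) * sq V1 ν) = 0).card := by
      have e1 := Finset.card_filter_add_card_filter_not (s := Om ν)
        (fun t => eval (F.sp ν t) (pderiv none (sq F.H ν) * sq V1 ν) = 0)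
      have e2 : Z ν = (Om ν).filter fun t =>
          ¬ eval (F.sp ν t) (pderiv none (sq F.H ν) * sq V1 ν) = 0 := by
        ext t
        rw [hZ, Finset.mem_filter]
      rw [e2]
      omega
    set A := (Z ν).card with hA
    set B := ((Om ν).filter fun t =>
        eval (F.sp ν t) (pderiv none (sq F.H ν) * sq V1 ν) = 0).card with hB'
    rcases le_total B A with h | h
    · refine half_aux (a.trans (Nat.pow_le_pow_left ?_ m)) (by omega)
      omega
    · exfalso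
      apply b
      refine half_aux (a.trans (Nat.pow_le_pow_left ?_ m)) (by omega)
      omega
  obtain ⟨C2, hC2⟩ := val_bd F hb hgr
  have hrU := (mem_JI ((((Re.sq (rename F.ι F.B₀ ^ (nU + nV)))).mul (Re.sq U)).sub
    (F.sb_re (Re.sq U1)))).1 eU
  have hrV := (mem_JI ((((Re.sq (rename F.ι F.B₀ ^ (nU + nV)))).mul (Re.sq V)).sub
    (F.sb_re (Re.sq V1)))).1 eV
  have key : ∀ᶠ ν in (Uf : Filter ℕ), ∃ (T' : Finset (Fin N → ℤ))
      (c : (Fin F.d → Fin (D + 1)) × Fin (D + 1) → ℤ),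
      T' ⊆ Z ν ∧ (Z ν).card ≤ xx ν ^ (2 * F.d + 7) * T'.card ∧ c ≠ 0 ∧
      (∀ e, |c e| ≤ (xx ν : ℤ) ^ ρ) ∧
      ∀ t ∈ T', ∑ e, c e * ((∏ i, t (F.ι i) ^ (e.1 i : ℕ)) *
        (eval t (sq U ν) ^ (e.2 : ℕ) * eval t (sq V ν) ^ (D - (e.2 : ℕ)))) = 0 := by
    filter_upwards [X_large hY (fun ν => (hX ν).2.1) X₀, hC2, (F.mem (Re.sq F.H)).1 F.H0, hrU, hrV,
      hLT, hb, hY 1, ev_size hY hk1 (fun ν => (hX ν).2.1) (M := fun _ => 0) (w := fun _ => 0)
        (fun c => by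
          filter_upwards [hY 1] with ν hν
          rcases Nat.eq_zero_or_pos c with h | h
          · subst h; simpa using hν
          · rw [zero_pow (by omega)]; omega)
        (fun c => by
          filter_upwards [hY 1] with ν hν
          rcases Nat.eq_zero_or_pos c with h | h
          · subst h; simpa using hν
          · rw [zero_pow (by omega)]; omega) (C2 + 1)] with ν g1 g2 g3 g4 g5 g6 g7 g8 g9
    have hex : ∀ t, ∃ a b : ℤ, t ∈ Om ν → IsCoprime a b ∧ |a| ≤ (Y ν : ℤ) ∧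
        |b| ≤ (Y ν : ℤ) ∧ a * eval t (sq V ν) = b * eval t (sq U ν) := by
      intro t
      by_cases ht : t ∈ Om ν
      · obtain ⟨a, b, h⟩ := g6 t ht
        exact ⟨a, b, fun _ => h⟩
      · exact ⟨0, 0, fun h => absurd h ht⟩
    choose a b hab using hex
    obtain ⟨T', hT', hcard, c, hc0, hcb, hc⟩ := hS (xx ν) (Y ν) g1 g8 (by
      have := (hX ν).2.1
      omega) (sq F.H ν) (sq U1 ν) (sq V1 ν) (Fin N → ℤ) (Z ν) (F.sp ν) a b (by
      intro t ht
      obtain ⟨ht1, ht2⟩ := (hZ ν t).1 ht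
      obtain ⟨h1, h2, h3, h4⟩ := hab t ht1
      refine ⟨g3 t ht1, fun i => g7 t ht1 _, h2, h3, h1, ?_, ht2, ?_⟩
      · have e1 := g4 t ht1
        have e2 := g5 t ht1
        rw [map_sub, map_mul, F.eval_sb, sub_eq_zero] at e1 e2
        rw [← e1, ← e2]
        linear_combination (eval t (sq (rename F.ι F.B₀ ^ (nU + nV)) ν)) * h4
      · refine lt_of_le_of_lt (g2 t ht1) ?_
        have h5 : (Y ν : ℤ) + 2 < 2 ^ (Nat.log 2 (Y ν + 2) + 1) := by
          have := Nat.lt_pow_succ_log_self (by norm_num : 1 < 2) (Y ν + 2)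
          exact_mod_cast this
        calc ((Y ν : ℤ) + 2) ^ C2 ≤ (2 ^ (Nat.log 2 (Y ν + 2) + 1)) ^ C2 :=
              pow_le_pow_left₀ (by positivity) h5.le _
          _ = 2 ^ ((Nat.log 2 (Y ν + 2) + 1) * C2) := by rw [← pow_mul]
          _ < 2 ^ xx ν := by
              apply pow_lt_pow_right₀ (by norm_num)
              nlinarith)
    refine ⟨T', c, hT', hcard, hc0, hcb, fun t ht => ?_⟩
    obtain ⟨ht1, ht2⟩ := (hZ ν t).1 (hT' ht)
    obtain ⟨h1, h2, h3, h4⟩ := hab t ht1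
    have h5 := hc t ht
    have hVt : eval t (sq V ν) ≠ 0 := by
      intro h
      apply ht2
      have e2 := g5 t ht1
      rw [map_sub, map_mul, F.eval_sb, sub_eq_zero, h, mul_zero] at e2
      rw [map_mul, ← e2, mul_zero]
    have hbt : b t ≠ 0 := by
      intro h
      rw [h, zero_mul] at h4
      have h6 : a t = 0 := (mul_eq_zero.1 h4).resolve_right hVt
      rw [h, h6] at h1
      exact not_isCoprime_zero_zero h1
    have h6 : b t ^ D * ∑ e, c e * ((∏ i, t (F.ι i) ^ (e.1 i : ℕ)) *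
        (eval t (sq U ν) ^ (e.2 : ℕ) * eval t (sq V ν) ^ (D - (e.2 : ℕ)))) =
        eval t (sq V ν) ^ D * ∑ e, c e * ((∏ i, F.sp ν t (some i) ^ (e.1 i : ℕ)) *
        (a t ^ (e.2 : ℕ) * b t ^ (D - (e.2 : ℕ)))) := by
      rw [Finset.mul_sum, Finset.mul_sum]
      refine Finset.sum_congr rfl fun e _ => ?_
      have hD : D = (e.2 : ℕ) + (D - (e.2 : ℕ)) := by
        have := e.2.2
        omega
      have e1 : b t ^ D = b t ^ (e.2 : ℕ) * b t ^ (D - (e.2 : ℕ)) := by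
        rw [← pow_add, ← hD]
      have e2 : eval t (sq V ν) ^ D = eval t (sq V ν) ^ (e.2 : ℕ) *
          eval t (sq V ν) ^ (D - (e.2 : ℕ)) := by
        rw [← pow_add, ← hD]
      have e3 : b t ^ (e.2 : ℕ) * eval t (sq U ν) ^ (e.2 : ℕ) =
          a t ^ (e.2 : ℕ) * eval t (sq V ν) ^ (e.2 : ℕ) := by
        rw [← mul_pow, ← mul_pow, h4]
      simp only [F.sp_some]
      rw [e1, e2]
      linear_combination (c e * (∏ i, t (F.ι i) ^ (e.1 i : ℕ)) * b t ^ (D - (e.2 : ℕ)) *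
        eval t (sq V ν) ^ (D - (e.2 : ℕ))) * e3
    rw [h5, mul_zero] at h6
    exact (mul_eq_zero.1 h6).resolve_left (pow_ne_zero _ hbt)
  obtain ⟨Om', hOm'⟩ := key.choice
  obtain ⟨cc, hcc⟩ := hOm'.choice
  have hsub : ∀ᶠ ν in (Uf : Filter ℕ), Om' ν ⊆ Om ν := by
    filter_upwards [hcc] with ν h
    exact h.1.trans fun t ht => ((hZ ν t).1 ht).1
  have hbig : Big Y Om' := by
    refine Big.frac hY (A := Z) (X := xx) (m := 2 * m) (e := 2 * F.d + 7) (k := k) (by omega)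
      hZm ?_ ?_
    · filter_upwards [hcc] with ν hν
      exact hν.2.1
    · exact Filter.Eventually.of_forall fun ν => ⟨(hX ν).1, (hX ν).2.2⟩
  have hmem : ∀ e, ((fun ν => cc ν e : ℕ → ℤ) : ZS) ∈ OO Y := by
    intro e
    rw [mem_OO]
    refine ⟨(k + 1) * ρ, ?_⟩
    filter_upwards [hcc] with ν hν
    refine (hν.2.2.2.1 e).trans ?_
    rw [pow_mul]
    refine pow_le_pow_left₀ (by positivity) ?_ _
    have h1 : xx ν ≤ xx ν ^ k := Nat.le_self_pow (by omega) _
    have h2 := (hX ν).2.2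
    have h3 : 2 ^ k * (Y ν + 2) ≤ (Y ν + 2) ^ k * (Y ν + 2) :=
      Nat.mul_le_mul_right _ (Nat.pow_le_pow_left (by omega) _)
    have h4 : xx ν ≤ (Y ν + 2) ^ (k + 1) := by
      rw [pow_succ]
      omega
    exact_mod_cast h4
  refine ⟨fun e => ⟨_, hmem e⟩, ?_, ?_⟩
  · intro h0
    have h1 : ∀ e, ∀ᶠ ν in (Uf : Filter ℕ), cc ν e = 0 := by
      intro e
      have h2 := congrArg (Subtype.val) (congrFun h0 e)
      exact Filter.Germ.coe_eq.1 h2
    have h2 := (Filter.eventually_all).2 h1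
    obtain ⟨ν, h3, h4⟩ := (h2.and hcc).exists
    exact h4.2.2.1 (funext h3)
  · refine hG.2 Om' hsub hbig ?_
    have hre : Re (∑ e : (Fin F.d → Fin (D + 1)) × Fin (D + 1),
        C (⟨_, hmem e⟩ : OO Y) * ((∏ i, X (F.ι i) ^ (e.1 i : ℕ)) *
        (U ^ (e.2 : ℕ) * V ^ (D - (e.2 : ℕ)))))
        (fun ν => ∑ e : (Fin F.d → Fin (D + 1)) × Fin (D + 1),
          C (cc ν e) * ((∏ i, X (F.ι i) ^ (e.1 i : ℕ)) *
          (sq U ν ^ (e.2 : ℕ) * sq V ν ^ (D - (e.2 : ℕ))))) := by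
      refine Re.sum _ fun e _ => (Re.C rfl).mul (Re.mul (Re.prod _ fun i _ => ?_) (Re.mul ?_ ?_))
      · exact Re_pow (Re.X _) _
      · exact Re_pow (Re.sq U) _
      · exact Re_pow (Re.sq V) _
    rw [mem_JI hre]
    filter_upwards [hcc] with ν hν t ht
    have h1 := hν.2.2.2.2 t ht
    rw [map_sum]
    simp only [map_mul, map_prod, map_pow, eval_C, eval_X]
    exact h1

/-- function field data with a given basis -/
theorem FF_of (O : Type) [CommRing O] [IsDomain O] [CharZero O] (N : ℕ)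
    (J : Ideal (MvPolynomial (Fin N) O)) (hJ : J.IsPrime) {d : ℕ} (ι : Fin d → Fin N)
    (hind : ∀ P : MvPolynomial (Fin d) O, rename ι P ∈ J → P = 0)
    (halg : ∀ i : Fin N, ∃ p : Polynomial (MvPolynomial (Fin d) O), p ≠ 0 ∧
      Polynomial.eval₂ (rename ι : MvPolynomial (Fin d) O →ₐ[O] _).toRingHom
        (X i : MvPolynomial (Fin N) O) p ∈ J) :
    ∃ (A : MvPolynomial (Fin N) O) (H : MvPolynomial (Option (Fin d)) O)
      (B₀ : MvPolynomial (Fin d) O) (B : Fin N → MvPolynomial (Option (Fin d)) O),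
      (∀ P : MvPolynomial (Fin d) O, rename ι P ∈ J → P = 0) ∧
      sb ι A H ∈ J ∧ sb ι A (pderiv none H) ∉ J ∧
      (∀ P, sb ι A P ∈ J → ∃ (c : MvPolynomial (Fin d) O)
        (Q : MvPolynomial (Option (Fin d)) O), c ≠ 0 ∧ rename some c * P = H * Q) ∧
      B₀ ≠ 0 ∧ ∀ i, rename ι B₀ * X i - sb ι A (B i) ∈ J := by
  classical
  have hdom : IsDomain (MvPolynomial (Fin N) O ⧸ J) := Ideal.Quotient.isDomain J
  let mk : MvPolynomial (Fin N) O →ₐ[O] MvPolynomial (Fin N) O ⧸ J := Ideal.Quotient.mkₐ O J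
  have hmk : Function.Surjective mk := Ideal.Quotient.mkₐ_surjective O J
  have hJ0 : ∀ P, P ∈ J ↔ mk P = 0 := fun P => Ideal.Quotient.eq_zero_iff_mem.symm
  have hren : ∀ P : MvPolynomial (Fin d) O, mk (MvPolynomial.rename ι P) = 0 → P = 0 := by
    intro P hP
    exact hind P ((hJ0 _).2 hP)
  have hcomp : mk.comp (MvPolynomial.rename ι) =
      MvPolynomial.aeval (fun b => mk (MvPolynomial.X (ι b))) := by
    apply MvPolynomial.algHom_ext
    intro b
    rw [AlgHom.comp_apply, MvPolynomial.rename_X, MvPolynomial.aeval_X]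
  have hι : AlgebraicIndependent O (fun b => mk (MvPolynomial.X (ι b))) := by
    refine (injective_iff_map_eq_zero _).2 fun P hP => hren P ?_
    have h3 : mk (MvPolynomial.rename ι P) =
        MvPolynomial.aeval (fun b => mk (MvPolynomial.X (ι b))) P := AlgHom.congr_fun hcomp P
    rw [h3]
    exact hP
  have halg' : ∀ z : MvPolynomial (Fin N) O ⧸ J, IsAlgebraic (Algebra.adjoin O
      (Set.range fun b => mk (MvPolynomial.X (ι b)))) z := by
    intro z
    obtain ⟨P, rfl⟩ := hmk z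
    induction P using MvPolynomial.induction_on with
    | C c =>
      have h1 : mk (C c) = algebraMap (Algebra.adjoin O
          (Set.range fun b => mk (MvPolynomial.X (ι b)))) _ (algebraMap O _ c) := by
        exact mk.commutes c
      rw [h1]
      exact isAlgebraic_algebraMap _
    | add P Q hP hQ =>
      rw [map_add]
      exact hP.add hQ
    | mul_X P i hP =>
      rw [map_mul]
      refine hP.mul ?_
      obtain ⟨p, hp0, hp⟩ := halg i
      let e := hι.aevalEquiv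
      refine ⟨p.map e.toAlgHom.toRingHom, ?_, ?_⟩
      · rw [Ne, Polynomial.map_eq_zero_iff]
        · exact hp0
        · exact e.injective
      · rw [Polynomial.aeval_def, Polynomial.eval₂_map]
        have h1 : (algebraMap (Algebra.adjoin O (Set.range fun b => mk (MvPolynomial.X (ι b)))) _).comp
            e.toAlgHom.toRingHom = mk.toRingHom.comp
              (rename ι : MvPolynomial (Fin d) O →ₐ[O] _).toRingHom := by
          refine RingHom.ext fun P => ?_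
          have h2 : algebraMap _ (MvPolynomial (Fin N) O ⧸ J) (hι.aevalEquiv P) =
            MvPolynomial.aeval (fun b => mk (MvPolynomial.X (ι b))) P := hι.algebraMap_aevalEquiv P
          exact h2.trans (AlgHom.congr_fun hcomp P).symm
        rw [h1]
        exact (Polynomial.hom_eval₂ p (rename ι : MvPolynomial (Fin d) O →ₐ[O] _).toRingHom
          mk.toRingHom (X i)).symm.trans ((hJ0 _).1 hp)
  obtain ⟨L, _, _, hL⟩ : ∃ (L : Type) (_ : Field L) (_ : Algebra (MvPolynomial (Fin N) O ⧸ J) L),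
      IsFractionRing (MvPolynomial (Fin N) O ⧸ J) L :=
    ⟨FractionRing (MvPolynomial (Fin N) O ⧸ J), inferInstance, inferInstance, inferInstance⟩
  obtain ⟨F, _, _, hF⟩ : ∃ (F : Type) (_ : Field F) (_ : Algebra (MvPolynomial (Fin d) O) F),
      IsFractionRing (MvPolynomial (Fin d) O) F :=
    ⟨FractionRing (MvPolynomial (Fin d) O), inferInstance, inferInstance, inferInstance⟩
  let y : MvPolynomial (Fin d) O →+* L :=
    (algebraMap _ L).comp (mk.toRingHom.comp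
      (MvPolynomial.rename ι : _ →ₐ[O] MvPolynomial (Fin N) O).toRingHom)
  have hyinj : Function.Injective y := by
    rw [injective_iff_map_eq_zero]
    intro P hP
    apply hren
    exact (map_eq_zero_iff _ (IsFractionRing.injective (MvPolynomial (Fin N) O ⧸ J) L)).1 hP
  let algSL : Algebra (MvPolynomial (Fin d) O) L := y.toAlgebra
  let algFL : Algebra F L := (IsFractionRing.lift (A := MvPolynomial (Fin d) O) (K := F) hyinj).toAlgebra
  have hst : IsScalarTower (MvPolynomial (Fin d) O) F L := by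
    refine IsScalarTower.of_algebraMap_eq fun P => ?_
    change y P = IsFractionRing.lift hyinj (algebraMap _ F P)
    rw [IsFractionRing.lift_algebraMap]
  obtain ⟨A, H, B₀, B, h1, h2, h3, h4, h5⟩ := Pool.Agent.Y394.GN.assemble (F := F) (L := L) mk hmk ι
    hι halg' (fun P => rfl)
  exact ⟨A, H, B₀, B, fun P hP => hren P ((hJ0 _).1 hP), (hJ0 _).2 h1,
    fun h => h2 ((hJ0 _).1 h), fun P hP => h3 P ((hJ0 _).1 hP), h4, fun i => (hJ0 _).2 (h5 i)⟩

/-- relations with respect to a given basis -/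
theorem relationI (d m : ℕ) : ∃ D : ℕ, ∀ (Y : ℕ → ℕ) (N : ℕ) (Om : ℕ → Finset (Fin N → ℤ)),
    (∀ m : ℕ, ∀ᶠ ν in (Uf : Filter ℕ), m ≤ Y ν) → Gen Y Om →
    (∀ᶠ ν in (Uf : Filter ℕ), Y ν + 2 ≤ (Om ν).card ^ m) → ∀ ι : Fin d → Fin N,
    (∀ P : MvPolynomial (Fin d) (OO Y), rename ι P ∈ JI Y Om → P = 0) →
    (∀ i : Fin N, ∃ p : Polynomial (MvPolynomial (Fin d) (OO Y)), p ≠ 0 ∧
      Polynomial.eval₂ (rename ι : MvPolynomial (Fin d) (OO Y) →ₐ[OO Y] _).toRingHom
        (X i : MvPolynomial (Fin N) (OO Y)) p ∈ JI Y Om) → Bd Y Om →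
    ∀ U V : MvPolynomial (Fin N) (OO Y), V ∉ JI Y Om → LT Y Om U V →
    ∃ c : (Fin d → Fin (D + 1)) × Fin (D + 1) → OO Y, c ≠ 0 ∧
      ∑ e, C (c e) * ((∏ i, X (ι i) ^ (e.1 i : ℕ)) *
        (U ^ (e.2 : ℕ) * V ^ (D - (e.2 : ℕ)))) ∈ JI Y Om := by
  obtain ⟨D, hD⟩ := relationU d m
  refine ⟨D, ?_⟩
  intro Y N Om hY hG hm ι hind halg hb U V hV hLT
  obtain ⟨A, H, B₀, B, h1, h2, h3, h4, h5, h6⟩ := FF_of (OO Y) N (JI Y Om) (hG.isPrime hY) ι hind
    halg
  exact hD Y N Om hY hG hm ⟨d, ι, A, H, B₀, B, h1, h2, h3, h4, h5, h6⟩ rfl hb U V hV hLT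

end Pool.Agent.R323.SE
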